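import Mathlib
import Pool.Agent.H90.KB.Ifk
import Pool.Agent.H2.FC.Bas

/-!
RM: the graph of the edges of `F` that are in none of the matchings `mm ℓ`, `ℓ < K`.

Proof.  `rmv_dgi`: `{u ∈ Q : F.Adj w u}` is the disjoint union of `{u ∈ Q : F.Adj w u, ∀ ℓ < K, mm ℓ w ≠ u}` (`= {u ∈ Q : (rmv F mm K).Adj w u}`, as `mm ℓ u = w ↔ mm ℓ w = u` by `Inv`) and the image of `{ℓ < K : mm ℓ w ≠ w, mm ℓ w ∈ Q}` under the map `ℓ ↦ mm ℓ w`, which is injective on this set by `hdis` (and `F.Adj w (mm ℓ w)` by `hadj`).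
`rmv_ee`: `ee F A B = ∑_{v ∈ A} dgi F B v` (`Finset.card_sigma`/`card_filter` on products; see `ee_sum` or similar in the library, or prove it) and `rmv_dgi`. `rmv_sum`: `dg F v = dgi F univ v` and `rmv_dgi` with `Q = univ`: `un mm K univ v = #{ℓ < K : mm ℓ v ≠ v} = ∑_{ℓ < K} if mm ℓ v ≠ v then 1 else 0`, exchange the sums.
-/

set_option autoImplicit false

namespace Pool.Agent.H2.F2

open Finset Classical
open Pool.Agent.H71.DN Pool.Agent.H71.HL Pool.Agent.H71.DC Pool.Agent.H90.KB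

/-- The edges of `F` that are in none of the matchings `mm ℓ`, `ℓ < K`. -/
def rmv {V : Type} (F : SimpleGraph V) (mm : ℕ → V → V) (K : ℕ) : SimpleGraph V where
  Adj a b := F.Adj a b ∧ ∀ ℓ < K, mm ℓ a ≠ b ∧ mm ℓ b ≠ a
  symm := ⟨fun _ _ h => ⟨h.1.symm, fun ℓ hℓ => ⟨(h.2 ℓ hℓ).2, (h.2 ℓ hℓ).1⟩⟩⟩
  loopless := ⟨fun _ h => F.irrefl h.1⟩

theorem rmv_le {V : Type} (F : SimpleGraph V) (mm : ℕ → V → V) (K : ℕ) : rmv F mm K ≤ F :=
  fun _ _ h => h.1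

theorem rmv_dgi {V : Type} [Fintype V] (F : SimpleGraph V) (mm : ℕ → V → V) (K : ℕ)
    (hinv : ∀ ℓ < K, Inv (mm ℓ)) (hadj : ∀ ℓ < K, ∀ v, mm ℓ v ≠ v → F.Adj v (mm ℓ v))
    (hdis : ∀ i < K, ∀ j < K, i ≠ j → ∀ v, mm i v ≠ v → mm i v ≠ mm j v)
    (Q : Finset V) (w : V) : dgi F Q w = dgi (rmv F mm K) Q w + un mm K Q w := by
  have hsp := card_filter_add_card_filter_not (s := Q.filter fun u => F.Adj w u)
    (fun u => ∀ ℓ < K, mm ℓ w ≠ u)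
  unfold dgi
  rw [← hsp]
  congr 1
  · apply congrArg Finset.card
    ext u
    rw [mem_filter, mem_filter, mem_filter]
    constructor
    · rintro ⟨⟨h1, h2⟩, h3⟩
      refine ⟨h1, h2, fun ℓ hℓ => ⟨h3 ℓ hℓ, fun h4 => h3 ℓ hℓ ?_⟩⟩
      rw [← h4]
      exact hinv ℓ hℓ u
    · rintro ⟨h1, h2, h3⟩
      exact ⟨⟨h1, h2⟩, fun ℓ hℓ => (h3 ℓ hℓ).1⟩
  · unfold un
    symm
    refine card_bij (fun ℓ _ => mm ℓ w) ?_ ?_ ?_
    · intro ℓ hℓ
      rw [mem_filter, mem_range] at hℓ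
      rw [mem_filter, mem_filter]
      exact ⟨⟨hℓ.2.2, hadj ℓ hℓ.1 w hℓ.2.1⟩, fun h => h ℓ hℓ.1 rfl⟩
    · intro i hi j hj hij
      rw [mem_filter, mem_range] at hi hj
      by_contra hne
      exact hdis i hi.1 j hj.1 hne w hi.2.1 hij
    · intro u hu
      rw [mem_filter, mem_filter] at hu
      obtain ⟨⟨h1, h2⟩, h3⟩ := hu
      push Not at h3
      obtain ⟨ℓ, hℓ, h4⟩ := h3
      refine ⟨ℓ, ?_, h4⟩
      rw [mem_filter, mem_range, h4]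
      exact ⟨hℓ, h2.ne', h1⟩

theorem Rm_ee {V : Type} [Fintype V] (F : SimpleGraph V) (A B : Finset V) :
    ee F A B = ∑ v ∈ A, dgi F B v := by
  unfold ee dgi
  rw [card_filter, sum_product]
  refine sum_congr rfl fun a _ => ?_
  rw [card_filter]

theorem rmv_ee {V : Type} [Fintype V] (F : SimpleGraph V) (mm : ℕ → V → V) (K : ℕ)
    (hinv : ∀ ℓ < K, Inv (mm ℓ)) (hadj : ∀ ℓ < K, ∀ v, mm ℓ v ≠ v → F.Adj v (mm ℓ v))
    (hdis : ∀ i < K, ∀ j < K, i ≠ j → ∀ v, mm i v ≠ v → mm i v ≠ mm j v)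
    (A B : Finset V) : ee F A B = ee (rmv F mm K) A B + up mm K A B := by
  rw [Rm_ee, Rm_ee, up, ← sum_add_distrib]
  exact sum_congr rfl fun v _ => rmv_dgi F mm K hinv hadj hdis B v

theorem rmv_sum {V : Type} [Fintype V] (F : SimpleGraph V) (mm : ℕ → V → V) (K : ℕ)
    (hinv : ∀ ℓ < K, Inv (mm ℓ)) (hadj : ∀ ℓ < K, ∀ v, mm ℓ v ≠ v → F.Adj v (mm ℓ v))
    (hdis : ∀ i < K, ∀ j < K, i ≠ j → ∀ v, mm i v ≠ v → mm i v ≠ mm j v)
    (A : Finset V) : ∑ v ∈ A, dg F v = ∑ v ∈ A, dg (rmv F mm K) v +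
      ∑ ℓ ∈ range K, (A.filter fun v => mm ℓ v ≠ v).card := by
  have h1 : ∀ v, dg F v = dg (rmv F mm K) v + un mm K univ v := fun v =>
    rmv_dgi F mm K hinv hadj hdis univ v
  have h2 : ∀ v, un mm K univ v = ∑ ℓ ∈ range K, if mm ℓ v ≠ v then 1 else 0 := by
    intro v
    unfold un
    rw [card_filter]
    refine sum_congr rfl fun ℓ _ => ?_
    by_cases h : mm ℓ v ≠ v
    · rw [if_pos ⟨h, mem_univ _⟩, if_pos h]
    · rw [if_neg (fun h' => h h'.1), if_neg h]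
  rw [sum_congr rfl fun v _ => h1 v, sum_add_distrib, sum_congr rfl fun v _ => h2 v, sum_comm]
  congr 1
  refine sum_congr rfl fun ℓ _ => ?_
  rw [card_filter]

end Pool.Agent.H2.F2
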