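import Mathlib
import Pool.Agent.H90.KB.Ifk
import Pool.Agent.H2.F2.Rm
import Pool.Agent.H2.FC.Fgs
import Pool.Agent.H2.FC.Asm

/-!
ASB: auxiliary facts for the assembly of the colouring of the defect edges with `Δ + 2 p` labels, uniformly in `p`.
-/

set_option autoImplicit false

namespace Pool.Agent.H2.F2

open Finset Classical
open Pool.Agent.H71.DN Pool.Agent.H71.DX Pool.Agent.H71.DR Pool.Agent.H71.HL Pool.Agent.H71.DC
open Pool.Agent.H71.TD Pool.Agent.H2.NE Pool.Agent.H2.FC Pool.Agent.H90.KB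

theorem sum_pos (L n : ℕ) (s bk ix : ℕ → ℕ) (g : ℕ → ℕ → ℤ)
    (h1 : ∀ ℓ < L, bk ℓ < n ∧ ix ℓ < s (bk ℓ))
    (h2 : ∀ b < n, ∀ i < s b, ∃ ℓ < L, bk ℓ = b ∧ ix ℓ = i)
    (h3 : ∀ ℓ < L, ∀ ℓ' < L, bk ℓ = bk ℓ' → ix ℓ = ix ℓ' → ℓ = ℓ') :
    ∑ ℓ ∈ range L, g (bk ℓ) (ix ℓ) = ∑ b ∈ range n, ∑ i ∈ range (s b), g b i := by
  rw [Finset.sum_sigma']
  refine Finset.sum_bij (fun ℓ _ => (⟨bk ℓ, ix ℓ⟩ : Σ _ : ℕ, ℕ)) ?_ ?_ ?_ ?_
  · intro ℓ hℓ
    rw [mem_range] at hℓ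
    rw [mem_sigma, mem_range, mem_range]
    exact h1 ℓ hℓ
  · intro ℓ hℓ ℓ' hℓ' h
    rw [mem_range] at hℓ hℓ'
    have h4 : bk ℓ = bk ℓ' := congrArg Sigma.fst h
    have h5 : ix ℓ = ix ℓ' := congrArg Sigma.snd h
    exact h3 ℓ hℓ ℓ' hℓ' h4 h5
  · rintro ⟨b, i⟩ h
    rw [mem_sigma, mem_range, mem_range] at h
    obtain ⟨ℓ, hℓ, h4, h5⟩ := h2 b h.1 i h.2
    refine ⟨ℓ, mem_range.2 hℓ, ?_⟩
    show (⟨bk ℓ, ix ℓ⟩ : Σ _ : ℕ, ℕ) = ⟨b, i⟩
    rw [h4, h5]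
  · intro ℓ _
    rfl

theorem sum_pt {V : Type} [Fintype V] (nd : V → ℕ) (m : ℕ) (g : V → ℕ) :
    ∑ v ∈ univ.filter (fun v => nd v < m), g v = ∑ P ∈ range m, ∑ v ∈ pt nd P, g v := by
  rw [← Finset.sum_fiberwise_of_maps_to (g := nd) (t := range m)
    (fun v hv => by
      rw [mem_filter] at hv
      exact mem_range.2 hv.2)]
  refine sum_congr rfl fun P hP => ?_
  rw [mem_range] at hP
  refine sum_congr ?_ fun _ _ => rfl
  unfold pt
  ext v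
  simp only [mem_filter, mem_univ, true_and]
  constructor
  · exact fun h => h.2
  · exact fun h => ⟨by omega, h⟩

theorem card_pt {V : Type} [Fintype V] (nd : V → ℕ) (m : ℕ) (p : V → Prop) [DecidablePred p] :
    (univ.filter fun v => nd v < m ∧ p v).card =
      ∑ P ∈ range m, ((pt nd P).filter fun v => p v).card := by
  have h1 := sum_pt nd m (fun v => if p v then 1 else 0)
  have h2 : (univ.filter fun v => nd v < m ∧ p v) =
      (univ.filter fun v => nd v < m).filter fun v => p v := by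
    rw [filter_filter]
  rw [h2, card_filter, h1]
  refine sum_congr rfl fun P _ => ?_
  rw [card_filter]

/-- The degree of an exceptional vertex after the removal of the matchings of the window region. -/
theorem deg_rmv {V : Type} [Fintype V] (F : SimpleGraph V) (nd : V → ℕ) (m Δ p κ : ℕ)
    (Z : Finset V) (C : ℝ) (mm : ℕ → V → V) (cw : V → ℕ) (hK : KbOut F nd m Δ p Z C κ mm cw)
    (w : V) (hw : w ∈ pt nd m) (hd : dg F w = Δ) : dg (rmv F mm κ) w + κ = Δ + 2 * p := by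
  have h1 : dg F w = dg (rmv F mm κ) w + un mm κ univ w :=
    rmv_dgi F mm κ hK.inv hK.adj hK.dis univ w
  have h2 : un mm κ univ w + 2 * p = κ := by
    have h3 : ((range κ).filter fun ℓ => mm ℓ w ≠ w ∧ mm ℓ w ∈ (univ : Finset V)) =
        (range κ).filter fun ℓ => ¬ mm ℓ w = w := by
      refine filter_congr fun ℓ _ => ?_
      simp
    have h4 : ((range κ).filter fun ℓ => mm ℓ w = w) = Ioc (cw w - p) (cw w + p) := by
      ext ℓ
      rw [mem_filter, mem_range, mem_Ioc]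
      have h5 := hK.c1 w hw
      constructor
      · rintro ⟨h6, h7⟩
        have h8 := (hK.c3 w hw ℓ h6).1 h7
        omega
      · intro h6
        refine ⟨by omega, (hK.c3 w hw ℓ (by omega)).2 ⟨by omega, h6.2⟩⟩
    have h5 := Finset.card_filter_add_card_filter_not (s := range κ) (fun ℓ => mm ℓ w = w)
    rw [h4, Nat.card_Ioc, card_range] at h5
    have h6 := hK.c1 w hw
    unfold un
    rw [h3]
    omega
  omega

/-- The imbalances in the window region. -/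
theorem uu_kb {V : Type} [Fintype V] (F : SimpleGraph V) (nd : V → ℕ) (m Δ p κ : ℕ)
    (Z : Finset V) (C : ℝ) (mm : ℕ → V → V) (cw : V → ℕ) (hK : KbOut F nd m Δ p Z C κ mm cw)
    (i : ℕ) (hi : 2 * i + 1 < m)
    (hb : ∑ v ∈ pt nd (2 * i), dg F v = ∑ v ∈ pt nd (2 * i + 1), dg F v) (ℓ : ℕ) (hℓ : ℓ < κ) :
    ((|uu nd (mm ℓ) i| : ℤ) : ℝ) ≤ 2 * C := by
  obtain ⟨ρ, _, _, h3⟩ := hK.ct ℓ hℓ
  have h4 := abs_le.1 (h3 (2 * i) (by omega))
  have h5 := abs_le.1 (h3 (2 * i + 1) hi)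
  have h6 : (∑ v ∈ pt nd (2 * i), (dg F v : ℝ)) = ∑ v ∈ pt nd (2 * i + 1), (dg F v : ℝ) := by
    exact_mod_cast hb
  rw [h6] at h4
  unfold uu
  push_cast
  rw [abs_le]
  constructor <;> linarith [h4.1, h4.2, h5.1, h5.2]

/-- The imbalance of the remaining graph. -/
theorem bal_rmv {V : Type} [Fintype V] (F : SimpleGraph V) (nd : V → ℕ) (m Δ p κ : ℕ)
    (Z : Finset V) (C : ℝ) (mm : ℕ → V → V) (cw : V → ℕ) (hK : KbOut F nd m Δ p Z C κ mm cw)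
    (i : ℕ) (hi : 2 * i + 1 < m)
    (hb : ∑ v ∈ pt nd (2 * i), dg F v = ∑ v ∈ pt nd (2 * i + 1), dg F v) :
    |∑ v ∈ pt nd (2 * i), (dg (rmv F mm κ) v : ℝ) -
      ∑ v ∈ pt nd (2 * i + 1), (dg (rmv F mm κ) v : ℝ)| ≤ 2 * C * κ := by
  have h1 := rmv_sum F mm κ hK.inv hK.adj hK.dis (pt nd (2 * i))
  have h2 := rmv_sum F mm κ hK.inv hK.adj hK.dis (pt nd (2 * i + 1))
  have h3 : (∑ v ∈ pt nd (2 * i), (dg (rmv F mm κ) v : ℝ) -
      ∑ v ∈ pt nd (2 * i + 1), (dg (rmv F mm κ) v : ℝ)) =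
      -∑ ℓ ∈ range κ, ((uu nd (mm ℓ) i : ℤ) : ℝ) := by
    have h4 : ((∑ v ∈ pt nd (2 * i), dg F v : ℕ) : ℝ) =
        ((∑ v ∈ pt nd (2 * i + 1), dg F v : ℕ) : ℝ) := by rw [hb]
    rw [h1, h2] at h4
    unfold uu
    push_cast at h4 ⊢
    rw [sum_sub_distrib]
    linarith
  rw [h3, abs_neg]
  calc |∑ ℓ ∈ range κ, ((uu nd (mm ℓ) i : ℤ) : ℝ)| ≤
        ∑ ℓ ∈ range κ, |((uu nd (mm ℓ) i : ℤ) : ℝ)| := Finset.abs_sum_le_sum_abs _ _
    _ ≤ ∑ ℓ ∈ range κ, 2 * C := by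
        refine sum_le_sum fun ℓ hℓ => ?_
        rw [mem_range] at hℓ
        have h5 := uu_kb F nd m Δ p κ Z C mm cw hK i hi hb ℓ hℓ
        push_cast at h5
        exact h5
    _ = 2 * C * κ := by
        rw [sum_const, card_range, nsmul_eq_mul]
        ring

/-- The balance of a block. -/
theorem bal_b (SA SB TA TB θ E e s : ℝ) (hA : |SA - θ * TA| ≤ E) (hB : |SB - θ * TB| ≤ E)
    (hT : |TA - TB| ≤ e) (h0 : 0 ≤ θ) (h1 : θ ≤ 1) (hE : 120 * E ≤ s) (he : 60 * e ≤ s) :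
    30 * |SA - SB| ≤ s := by
  have h2 := abs_le.1 hA
  have h3 := abs_le.1 hB
  have h4 : |θ * (TA - TB)| ≤ e := by
    rw [abs_mul, abs_of_nonneg h0]
    calc θ * |TA - TB| ≤ 1 * |TA - TB| := mul_le_mul_of_nonneg_right h1 (abs_nonneg _)
      _ ≤ e := by rw [one_mul]; exact hT
  have h5 := abs_le.1 h4
  have h6 : |SA - SB| ≤ 2 * E + e := by
    rw [abs_le]
    constructor <;> nlinarith [h2.1, h2.2, h3.1, h3.2, h5.1, h5.2]
  linarith

/-- The number of covered vertices in the window region. -/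
theorem sm_kb {V : Type} [Fintype V] (F : SimpleGraph V) (nd : V → ℕ) (m Δ p κ : ℕ)
    (Z : Finset V) (C : ℝ) (mm : ℕ → V → V) (cw : V → ℕ) (hK : KbOut F nd m Δ p Z C κ mm cw)
    (f δ : ℝ) (hΔ : 0 < Δ)
    (hF : ((∑ v ∈ univ.filter fun v => nd v < m, dg F v : ℕ) : ℝ) ≤
      f * (Fintype.card V : ℝ) ^ 2)
    (h8 : 2 * (m * C) ≤ δ * Fintype.card V)
    (hf : 2 * f * (Fintype.card V : ℝ) ^ 2 ≤ δ * Fintype.card V * Δ) (ℓ : ℕ) (hℓ : ℓ < κ) :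
    ((univ.filter fun v => nd v < m ∧ mm ℓ v ≠ v).card : ℝ) ≤ δ * Fintype.card V := by
  obtain ⟨ρ, h1, h2, h3⟩ := hK.ct ℓ hℓ
  have hΔ' : (0 : ℝ) < Δ := by exact_mod_cast hΔ
  rw [card_pt nd m (fun v => mm ℓ v ≠ v)]
  push_cast
  have h4 : ∑ P ∈ range m, (((pt nd P).filter fun v => mm ℓ v ≠ v).card : ℝ) ≤
      ∑ P ∈ range m, (C + ρ / Δ * ∑ v ∈ pt nd P, (dg F v : ℝ)) := by
    refine sum_le_sum fun P hP => ?_
    rw [mem_range] at hP
    have h5 := abs_le.1 (h3 P hP)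
    linarith [h5.2]
  rw [sum_add_distrib, sum_const, card_range, nsmul_eq_mul, ← mul_sum] at h4
  have h5 : (∑ P ∈ range m, ∑ v ∈ pt nd P, (dg F v : ℝ)) =
      ((∑ v ∈ univ.filter fun v => nd v < m, dg F v : ℕ) : ℝ) := by
    rw [sum_pt nd m (fun v => dg F v)]
    push_cast
    rfl
  rw [h5] at h4
  have h6 : ρ / Δ * ((∑ v ∈ univ.filter fun v => nd v < m, dg F v : ℕ) : ℝ) ≤
      1 / Δ * (f * (Fintype.card V : ℝ) ^ 2) := by
    have h7 : ρ / Δ ≤ 1 / Δ := div_le_div_of_nonneg_right h2 hΔ'.le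
    exact mul_le_mul h7 hF (Nat.cast_nonneg _) (by positivity)
  have h7 : 1 / Δ * (f * (Fintype.card V : ℝ) ^ 2) ≤ δ * Fintype.card V / 2 := by
    rw [one_div, inv_mul_le_iff₀ hΔ']
    linarith
  linarith

end Pool.Agent.H2.F2
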