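import Mathlib

/-!
The ten groups of labels.
-/

set_option autoImplicit false

namespace Pool.Agent.H2.F2

/-- The groups of labels: `0 = T1`, `1 = T2`, `2 =` the rest of the block `0`, `2 + j =` the block `j` (`1 ≤ j ≤ 6`), `9 =` the rest of
the block `7`. A vertex of the class `c` and the quarter `q` is not used at the labels of the group `b` if `fb c q b`. -/
def fb (c q b : ℕ) : Prop :=
  (b = 0 ∧ (q < 2 ∨ c = 0)) ∨ (b = 1 ∧ (2 ≤ q ∨ c = 0)) ∨ (b = 2 ∧ c = 0) ∨
    (3 ≤ b ∧ (c + 2 = b ∨ c + 3 = b))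

end Pool.Agent.H2.F2
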