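import Mathlib
import Pool.Agent.H2.F2.Defs

/-!
HLB: distribution of the elements of `E` to `n` groups with exact numbers `N b` and forbidden groups (`f e b`: the group `b` is forbidden for `e`).

Proof.  Hall's theorem (`Finset.all_card_le_biUnion_card_iff_exists_injective` for the type `↥E`) with `A e := {(b, i) : b < n, i < N b, ¬ f e b}` (a finset of `ℕ × ℕ`, for example a filter of `(range n).sigma`/`range n ×ˢ range (#E + 1)`): let `S` be a nonempty finset of elements of `E`,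
`R := {b < n : ∀ e ∈ S, f e b}`. The union of the `A e`, `e ∈ S`, is `{(b, i) : b < n, b ∉ R, i < N b}` and has `∑_{b < n} N b - ∑_{b ∈ R} N b = #E - ∑_{b ∈ R} N b` elements. If `R` is not empty then `#S ≤ #{e ∈ E : ∀ b ∈ R, f e b} ≤ #E - ∑_{b ∈ R} N b` by `hR`; if `R = ∅` then `#S ≤ #E`.
Let `g : E → ℕ × ℕ` be the injective choice, `β e := (g e).1` for `e ∈ E` (`0` otherwise). For `b < n`: `e ↦ (g e).2` is injective from `{e ∈ E : β e = b}` to `range (N b)`, so the cardinality is at most `N b`; the sum over `b < n` of both is `#E` (`Finset.card_eq_sum_card_fiberwise`), so all are equal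
(`Finset.sum_eq_sum_iff_of_le`).
-/

set_option autoImplicit false

namespace Pool.Agent.H2.F2

open Finset Classical

theorem hlb_hall {α : Type} (E : Finset α) (n : ℕ) (N : ℕ → ℕ) (f : α → ℕ → Prop)
    (hsum : ∑ b ∈ range n, N b = E.card)
    (hR : ∀ R ⊆ range n, R.Nonempty →
      (E.filter fun e => ∀ b ∈ R, f e b).card + ∑ b ∈ R, N b ≤ E.card) :
    ∃ g : {x : α // x ∈ E} → (Σ _ : ℕ, ℕ), Function.Injective g ∧
      ∀ e : {x : α // x ∈ E}, g e ∈ ((range n).sigma fun b => range (N b)).filter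
        fun p => ¬ f (e : α) p.1 := by
  refine (Finset.all_card_le_biUnion_card_iff_exists_injective _).1 ?_
  intro S
  rcases S.eq_empty_or_nonempty with hS | hS
  · rw [hS, card_empty]
    exact Nat.zero_le _
  set R := (range n).filter fun b => ∀ e ∈ S, f (e : α) b with hRd
  have hRn : R ⊆ range n := filter_subset _ _
  have hsub : ((range n \ R).sigma fun b => range (N b)) ⊆
      S.biUnion fun e => ((range n).sigma fun b => range (N b)).filter fun p => ¬ f (e : α) p.1 := by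
    intro p hp
    rw [mem_sigma, mem_sdiff] at hp
    obtain ⟨⟨h1, h2⟩, h3⟩ := hp
    have h4 : ¬ ∀ e ∈ S, f (e : α) p.1 := fun h => h2 (mem_filter.2 ⟨h1, h⟩)
    push Not at h4
    obtain ⟨e, he, hf⟩ := h4
    rw [mem_biUnion]
    exact ⟨e, he, mem_filter.2 ⟨mem_sigma.2 ⟨h1, h3⟩, hf⟩⟩
  refine le_trans ?_ (card_le_card hsub)
  rw [card_sigma]
  simp only [card_range]
  have h5 : ∑ b ∈ range n \ R, N b + ∑ b ∈ R, N b = ∑ b ∈ range n, N b := sum_sdiff hRn
  have h6 : S.card ≤ (E.filter fun e => ∀ b ∈ R, f e b).card := by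
    refine card_le_card_of_injOn (fun e => (e : α)) ?_ (fun a _ b _ h => Subtype.ext h)
    intro e he
    rw [mem_coe, mem_filter]
    refine ⟨e.2, fun b hb => ?_⟩
    exact (mem_filter.1 hb).2 e he
  rcases R.eq_empty_or_nonempty with hR0 | hR0
  · have h7 : (E.filter fun e => ∀ b ∈ R, f e b).card ≤ E.card := card_filter_le _ _
    have h8 : ∑ b ∈ R, N b = 0 := by rw [hR0, sum_empty]
    rw [h8] at h5
    omega
  · have h7 := hR R hRn hR0
    omega

theorem hlb {α : Type} (E : Finset α) (n : ℕ) (N : ℕ → ℕ) (f : α → ℕ → Prop)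
    (hsum : ∑ b ∈ range n, N b = E.card)
    (hR : ∀ R ⊆ range n, R.Nonempty →
      (E.filter fun e => ∀ b ∈ R, f e b).card + ∑ b ∈ R, N b ≤ E.card) :
    ∃ β : α → ℕ, (∀ e ∈ E, β e < n ∧ ¬ f e (β e)) ∧
      ∀ b < n, (E.filter fun e => β e = b).card = N b := by
  obtain ⟨g, hg, hgm⟩ := hlb_hall E n N f hsum hR
  set β : α → ℕ := fun e => if h : e ∈ E then (g ⟨e, h⟩).1 else 0 with hβ
  have hβe : ∀ (e : α) (h : e ∈ E), β e = (g ⟨e, h⟩).1 := by
    intro e h
    rw [hβ]
    exact dif_pos h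
  have hmem : ∀ (e : α) (h : e ∈ E), (g ⟨e, h⟩).1 < n ∧ (g ⟨e, h⟩).2 < N (g ⟨e, h⟩).1 ∧
      ¬ f e (g ⟨e, h⟩).1 := by
    intro e h
    have h1 := hgm ⟨e, h⟩
    rw [mem_filter, mem_sigma, mem_range, mem_range] at h1
    exact ⟨h1.1.1, h1.1.2, h1.2⟩
  have h1 : ∀ e ∈ E, β e < n ∧ ¬ f e (β e) := by
    intro e he
    rw [hβe e he]
    exact ⟨(hmem e he).1, (hmem e he).2.2⟩
  refine ⟨β, h1, ?_⟩
  have hle : ∀ b ∈ range n, (E.filter fun e => β e = b).card ≤ N b := by
    intro b _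
    rw [← card_range (N b)]
    set γ : α → ℕ := fun e => if h : e ∈ E then (g ⟨e, h⟩).2 else 0 with hγ
    have hγe : ∀ (e : α) (h : e ∈ E), γ e = (g ⟨e, h⟩).2 := by
      intro e h
      rw [hγ]
      exact dif_pos h
    refine card_le_card_of_injOn γ ?_ ?_
    · intro e he
      rw [mem_coe, mem_filter] at he
      rw [mem_coe, mem_range, hγe e he.1]
      have h2 := (hmem e he.1).2.1
      have h3 : (g ⟨e, he.1⟩).1 = b := by rw [← hβe e he.1]; exact he.2
      exact lt_of_lt_of_eq h2 (congrArg N h3)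
    · intro e he e' he' hee
      rw [mem_coe, mem_filter] at he he'
      rw [hγe e he.1, hγe e' he'.1] at hee
      have h2 : (g ⟨e, he.1⟩).1 = (g ⟨e', he'.1⟩).1 := by
        rw [← hβe e he.1, ← hβe e' he'.1, he.2, he'.2]
      have h3 : g ⟨e, he.1⟩ = g ⟨e', he'.1⟩ := by
        rcases h4 : g ⟨e, he.1⟩ with ⟨a, b⟩
        rcases h5 : g ⟨e', he'.1⟩ with ⟨a', b'⟩
        rw [h4, h5] at h2 hee
        simp only at h2 hee
        rw [h2, hee]
      exact congrArg Subtype.val (hg h3)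
  have hcard : E.card = ∑ b ∈ range n, (E.filter fun e => β e = b).card :=
    card_eq_sum_card_fiberwise (fun e he => mem_coe.2 (mem_range.2 (h1 e he).1))
  have heq := (sum_eq_sum_iff_of_le hle).1 (by rw [← hcard, hsum])
  intro b hb
  exact heq b (mem_range.2 hb)

end Pool.Agent.H2.F2
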