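import Mathlib
import Pool.Agent.H2.F2.Hlb

/-!
HE: the edges between two pieces get their groups. `c1, q1` and `c2, q2` are the classes and quarters of the two ends. Use the STATEMENT of `hlb` (`F2/Hlb.lean`).

Proof.  `hlb E 10 N f` with `f e b := fb (c1 e) (q1 e) b ∨ fb (c2 e) (q2 e) b`. Let `M := #E`, `∅ ≠ R ⊆ range 10`, `W := #{e ∈ E : ∀ b ∈ R, f e b}`; to show: `W + ∑_{b ∈ R} N b ≤ M`. For a set `S` of pairs `(j, j')` of classes which contains `(j', j)` together with `(j, j')`: the number of `e ∈ E` with `(c1 e, c2 e) ∈ S` is at most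
`#S * 3 M / 100` (from `hj`: sum over the unordered pairs in `S`). Let `R' := {b ∈ R : 2 ≤ b}`, `C b := {c < 7 : c + 2 = b ∨ c + 3 = b}` (for `b ≥ 2`; at most two elements): `f e b` implies `c1 e ∈ C b` or `c2 e ∈ C b`. `100 ∑_{b ∈ R} N b ≤ 4 M + 17 M #R'`.
 * `W = 0`: `∑_{b ∈ R} N b ≤ M`. So let `W > 0`: then `#R' ≤ 4`, as the two classes of an `e` are together in at most four of the sets `C b`.
 * `#R' = 1`, `b ∈ R'`: the pairs with `j ∈ C b` or `j' ∈ C b`: at most `49 - 25 = 24`: `W ≤ 72 M / 100`; together `≤ 72 + 4 + 17 = 93`.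
 * `#R' ≥ 2`, two elements `b < b'` of `R'` with `b' ≥ b + 2`: `C b ∩ C b' = ∅`, so `(j ∈ C b and j' ∈ C b')` or reversed: at most 8 pairs: `W ≤ 24 M / 100`, together `≤ 24 + 4 + 17 * 4 = 96`.
 * otherwise `R' = {b, b + 1}`: pairs with `j = b - 2` or `j' = b - 2` (the class in both; at most 13) or `{j, j'} = {b - 3, b - 1}` (2): `W ≤ 45 M / 100`, together `≤ 45 + 4 + 34`. (All these bounds for the numbers of pairs can be checked with `decide` for the finitely many `b, b'`: define the finset of pairs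
   `((range 7 ×ˢ range 7).filter ..)`.)
 * `R' = ∅`, `R = {0}`: `f e 0` fails if `2 ≤ q1, 2 ≤ q2, c1 ≠ 0, c2 ≠ 0`: `W ≤ M - M / 25` by `hY` and `100 N 0 ≤ 2 M`; `R = {1}`: the same with `hX`; `R = {0, 1}`: `f e 0 ∧ f e 1` fails on both of these (disjoint) sets: `W ≤ M - 2 M / 25`, `100 (N 0 + N 1) ≤ 4 M`.
-/

set_option autoImplicit false

namespace Pool.Agent.H2.F2

open Finset Classical

/-- the pairs of classes for which all groups of `R` are forbidden -/
def SR (R : Finset ℕ) : Finset (ℕ × ℕ) :=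
  (range 7 ×ˢ range 7).filter fun p => ∀ b ∈ R, (p.1 + 2 = b ∨ p.1 + 3 = b) ∨ (p.2 + 2 = b ∨ p.2 + 3 = b)

theorem SR_bound : ∀ R ∈ (Finset.Icc 2 9).powerset, R.Nonempty → (SR R).card ≠ 0 →
    3 * (SR R).card + 4 + 17 * R.card ≤ 100 := by
  unfold SR
  decide +kernel

theorem pairs_bound {α : Type} (E : Finset α) (c1 c2 : α → ℕ)
    (hj : ∀ j < 7, ∀ j' < 7, 100 * (E.filter fun e => (c1 e = j ∧ c2 e = j') ∨
      (c1 e = j' ∧ c2 e = j)).card ≤ (if j = j' then 3 else 6) * E.card)
    (S : Finset (ℕ × ℕ)) (h7 : ∀ p ∈ S, p.1 < 7 ∧ p.2 < 7) (hsymm : ∀ p ∈ S, p.swap ∈ S) :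
    100 * (E.filter fun e => (c1 e, c2 e) ∈ S).card ≤ 3 * S.card * E.card := by
  set n : ℕ × ℕ → ℕ := fun p => (E.filter fun e => (c1 e, c2 e) = p).card with hn
  have h1 : (E.filter fun e => (c1 e, c2 e) ∈ S).card = ∑ p ∈ S, n p := by
    have hf := Finset.card_eq_sum_card_fiberwise (f := fun e => (c1 e, c2 e))
      (s := E.filter fun e => (c1 e, c2 e) ∈ S) (t := S)
      (fun e he => (Finset.mem_filter.1 (Finset.mem_coe.1 he)).2)
    rw [hf]
    refine Finset.sum_congr rfl fun p hp => ?_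
    rw [hn]
    congr 1
    ext e
    simp only [Finset.mem_filter]
    constructor
    · rintro ⟨⟨h1, h2⟩, h3⟩
      exact ⟨h1, h3⟩
    · rintro ⟨h1, h3⟩
      exact ⟨⟨h1, h3 ▸ hp⟩, h3⟩
  have h2 : ∑ p ∈ S, n p = ∑ p ∈ S, n p.swap := by
    refine Finset.sum_bij' (fun p _ => p.swap) (fun p _ => p.swap) hsymm hsymm ?_ ?_ ?_
    · intro p _
      exact Prod.swap_swap p
    · intro p _
      exact Prod.swap_swap p
    · intro p _
      rw [Prod.swap_swap]
  have h3 : ∀ p ∈ S, 100 * (n p + n p.swap) ≤ 6 * E.card := by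
    rintro ⟨j, j'⟩ hp
    have h4 := h7 _ hp
    have h5 := hj j h4.1 j' h4.2
    by_cases hjj : j = j'
    · subst hjj
      rw [if_pos rfl] at h5
      have h6 : n (j, j) ≤ (E.filter fun e => (c1 e = j ∧ c2 e = j) ∨ (c1 e = j ∧ c2 e = j)).card := by
        refine Finset.card_le_card ?_
        intro e he
        rw [Finset.mem_filter] at he ⊢
        exact ⟨he.1, Or.inl ⟨congrArg Prod.fst he.2, congrArg Prod.snd he.2⟩⟩
      show 100 * (n (j, j) + n (j, j)) ≤ 6 * E.card
      omega
    · rw [if_neg hjj] at h5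
      have h6 : n (j, j') + n (j', j) ≤
          (E.filter fun e => (c1 e = j ∧ c2 e = j') ∨ (c1 e = j' ∧ c2 e = j)).card := by
        have hd : Disjoint (E.filter fun e => (c1 e, c2 e) = (j, j'))
            (E.filter fun e => (c1 e, c2 e) = (j', j)) := by
          rw [Finset.disjoint_left]
          intro e h7 h8
          have h9 := congrArg Prod.fst (Finset.mem_filter.1 h7).2
          have h10 := congrArg Prod.fst (Finset.mem_filter.1 h8).2
          exact hjj (h9.symm.trans h10)
        show (E.filter fun e => (c1 e, c2 e) = (j, j')).card +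
          (E.filter fun e => (c1 e, c2 e) = (j', j)).card ≤ _
        rw [← Finset.card_union_of_disjoint hd]
        refine Finset.card_le_card ?_
        intro e he
        rw [Finset.mem_union, Finset.mem_filter, Finset.mem_filter] at he
        rw [Finset.mem_filter]
        rcases he with he | he
        · exact ⟨he.1, Or.inl ⟨congrArg Prod.fst he.2, congrArg Prod.snd he.2⟩⟩
        · exact ⟨he.1, Or.inr ⟨congrArg Prod.fst he.2, congrArg Prod.snd he.2⟩⟩
      show 100 * (n (j, j') + n (j', j)) ≤ 6 * E.card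
      omega
  have h4 : ∑ p ∈ S, 100 * (n p + n p.swap) ≤ ∑ _p ∈ S, 6 * E.card := Finset.sum_le_sum h3
  rw [← Finset.mul_sum, Finset.sum_add_distrib, ← h2, ← h1, Finset.sum_const, smul_eq_mul] at h4
  have h5 : 3 * S.card * E.card * 2 = S.card * (6 * E.card) := by ring
  omega

theorem fb_two {c q b : ℕ} (hb : 2 ≤ b) (h : fb c q b) : c + 2 = b ∨ c + 3 = b := by
  unfold fb at h
  omega

theorem he {α : Type} (E : Finset α) (c1 q1 c2 q2 : α → ℕ) (N : ℕ → ℕ)
    (hsum : ∑ b ∈ range 10, N b = E.card)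
    (hj : ∀ j < 7, ∀ j' < 7, 100 * (E.filter fun e => (c1 e = j ∧ c2 e = j') ∨
      (c1 e = j' ∧ c2 e = j)).card ≤ (if j = j' then 3 else 6) * E.card)
    (hcl : ∀ e ∈ E, c1 e < 7 ∧ c2 e < 7)
    (hX : E.card ≤ 25 * (E.filter fun e => (q1 e < 2 ∧ c1 e ≠ 0) ∧ q2 e < 2 ∧ c2 e ≠ 0).card)
    (hY : E.card ≤ 25 * (E.filter fun e => (2 ≤ q1 e ∧ c1 e ≠ 0) ∧ 2 ≤ q2 e ∧ c2 e ≠ 0).card)
    (hN0 : 100 * N 0 ≤ 2 * E.card) (hN1 : 100 * N 1 ≤ 2 * E.card)
    (hNb : ∀ b < 10, 100 * N b ≤ 17 * E.card) :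
    ∃ β : α → ℕ, (∀ e ∈ E, β e < 10 ∧ ¬ fb (c1 e) (q1 e) (β e) ∧ ¬ fb (c2 e) (q2 e) (β e)) ∧
      ∀ b < 10, (E.filter fun e => β e = b).card = N b := by
  set M := E.card with hM
  refine hlb E 10 N (fun e b => fb (c1 e) (q1 e) b ∨ fb (c2 e) (q2 e) b) hsum ?_ |>.imp fun β h => ?_
  swap
  · refine ⟨fun e he => ⟨(h.1 e he).1, fun h1 => (h.1 e he).2 (Or.inl h1), fun h1 =>
      (h.1 e he).2 (Or.inr h1)⟩, h.2⟩
  intro R hR hne
  suffices key : (E.filter fun e => ∀ b ∈ R, fb (c1 e) (q1 e) b ∨ fb (c2 e) (q2 e) b).card +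
      ∑ b ∈ R, N b ≤ M by
    convert key
  have hspl : ∑ b ∈ R, N b ≤ N 0 + N 1 + ∑ b ∈ R.filter fun b => 2 ≤ b, N b := by
    rw [← Finset.sum_filter_add_sum_filter_not R (fun b => 2 ≤ b) N, add_comm]
    refine Nat.add_le_add_right ?_ _
    calc ∑ b ∈ R.filter (fun b => ¬ 2 ≤ b), N b ≤ ∑ b ∈ range 2, N b := by
          refine Finset.sum_le_sum_of_subset ?_
          intro b hb
          rw [Finset.mem_filter] at hb
          rw [Finset.mem_range]
          omega
      _ = N 0 + N 1 := by rw [Finset.sum_range_succ, Finset.sum_range_one]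
  set R' := R.filter fun b => 2 ≤ b with hR'
  rcases R'.eq_empty_or_nonempty with hemp | hnon
  · rw [hemp, Finset.sum_empty, add_zero] at hspl
    have hR01 : ∀ b ∈ R, b = 0 ∨ b = 1 := by
      intro b hb
      by_contra hcon
      have : b ∈ R' := by
        rw [hR', Finset.mem_filter]
        exact ⟨hb, by omega⟩
      rw [hemp] at this
      exact absurd this (Finset.notMem_empty b)
    by_cases h0 : 0 ∈ R
    · have h1 : (E.filter fun e => ∀ b ∈ R, fb (c1 e) (q1 e) b ∨ fb (c2 e) (q2 e) b).card +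
          (E.filter fun e => (2 ≤ q1 e ∧ c1 e ≠ 0) ∧ 2 ≤ q2 e ∧ c2 e ≠ 0).card ≤ M := by
        rw [← Finset.card_union_of_disjoint]
        · exact Finset.card_le_card (Finset.union_subset (Finset.filter_subset _ _) (Finset.filter_subset _ _))
        · rw [Finset.disjoint_left]
          intro e h1 h2
          have h3 := (Finset.mem_filter.1 h1).2 0 h0
          have h4 := (Finset.mem_filter.1 h2).2
          unfold fb at h3
          omega
      omega
    · obtain ⟨b, hb⟩ := hne
      have h10 : 1 ∈ R := by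
        rcases hR01 b hb with rfl | rfl
        · exact absurd hb h0
        · exact hb
      have h1 : (E.filter fun e => ∀ b ∈ R, fb (c1 e) (q1 e) b ∨ fb (c2 e) (q2 e) b).card +
          (E.filter fun e => (q1 e < 2 ∧ c1 e ≠ 0) ∧ q2 e < 2 ∧ c2 e ≠ 0).card ≤ M := by
        rw [← Finset.card_union_of_disjoint]
        · exact Finset.card_le_card (Finset.union_subset (Finset.filter_subset _ _) (Finset.filter_subset _ _))
        · rw [Finset.disjoint_left]
          intro e h1 h2
          have h3 := (Finset.mem_filter.1 h1).2 1 h10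
          have h4 := (Finset.mem_filter.1 h2).2
          unfold fb at h3
          omega
      omega
  · have hR'sub : R' ∈ (Finset.Icc 2 9).powerset := by
      rw [Finset.mem_powerset]
      intro b hb
      rw [hR', Finset.mem_filter] at hb
      have := Finset.mem_range.1 (hR hb.1)
      rw [Finset.mem_Icc]
      omega
    have hW : (E.filter fun e => ∀ b ∈ R, fb (c1 e) (q1 e) b ∨ fb (c2 e) (q2 e) b).card ≤
        (E.filter fun e => (c1 e, c2 e) ∈ SR R').card := by
      refine Finset.card_le_card ?_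
      intro e he
      rw [Finset.mem_filter] at he ⊢
      refine ⟨he.1, ?_⟩
      unfold SR
      rw [Finset.mem_filter, Finset.mem_product, Finset.mem_range, Finset.mem_range]
      refine ⟨hcl e he.1, fun b hb => ?_⟩
      rw [hR', Finset.mem_filter] at hb
      rcases he.2 b hb.1 with h | h
      · exact Or.inl (fb_two hb.2 h)
      · exact Or.inr (fb_two hb.2 h)
    have hS := pairs_bound E c1 c2 hj (SR R') (by
      intro p hp
      unfold SR at hp
      rw [Finset.mem_filter, Finset.mem_product, Finset.mem_range, Finset.mem_range] at hp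
      exact hp.1) (by
      intro p hp
      unfold SR at hp ⊢
      rw [Finset.mem_filter, Finset.mem_product] at hp ⊢
      refine ⟨⟨hp.1.2, hp.1.1⟩, fun b hb => ?_⟩
      exact (hp.2 b hb).symm)
    rw [← hM] at hS
    have hsumR : ∑ b ∈ R, N b ≤ M := by
      rw [← hsum]
      exact Finset.sum_le_sum_of_subset hR
    rcases Nat.eq_zero_or_pos (SR R').card with hz | hpos
    · rw [hz, mul_zero, zero_mul] at hS
      omega
    · have hB := SR_bound R' hR'sub hnon hpos.ne'
      have h17 : 100 * ∑ b ∈ R', N b ≤ 17 * R'.card * M := by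
        rw [Finset.mul_sum]
        calc ∑ b ∈ R', 100 * N b ≤ ∑ _b ∈ R', 17 * M := by
              refine Finset.sum_le_sum fun b hb => ?_
              rw [hR', Finset.mem_filter] at hb
              exact hNb b (Finset.mem_range.1 (hR hb.1))
          _ = 17 * R'.card * M := by
              rw [Finset.sum_const, smul_eq_mul]
              ring
      have h18 : (3 * (SR R').card + 4 + 17 * R'.card) * M ≤ 100 * M := Nat.mul_le_mul_right _ hB
      have h19 : (3 * (SR R').card + 4 + 17 * R'.card) * M =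
          3 * (SR R').card * M + 4 * M + 17 * R'.card * M := by ring
      omega

end Pool.Agent.H2.F2
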