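import Mathlib
import Pool.Agent.H71.TD.Ifc
import Pool.Agent.H2.F2.He

/-!
INN: the edges of `F` between (and inside) the pieces `P < m` get their groups. Use the STATEMENT of `he` (`F2/He.lean`).

Proof.  Let `key : V → ℕ` be injective. For `P ≤ P' < m` let `E P P'` be the finset of the pairs `(a, c)` with `F.Adj a c`, `nd a = P`, `nd c = P'` and (`P = P' → key a < key c`), `M := #(E P P')`. `ee F (pt nd P) (pt nd P') = M` for `P < P'` and `= 2 M` for `P = P'` (the same for the subsets of equal type). Call `P P'` good if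
`10000 + 100 B0 ≤ M`. Good: `N b := ⌊θ b * M⌋₊` for `b < 9`, `N 9 := M - ∑_{b < 9} N b`; so `N b ≤ θ b M`, `θ 9 M ≤ N 9 ≤ θ 9 M + 9`. `he` for `E P P'` with `c1 = cl a, q1 = qt a, c2 = cl c, q2 = qt c`: `hj`: for `P < P'`, `j ≠ j'` the number is `ee (P ∩ j) (P' ∩ j') + ee (P ∩ j') (P' ∩ j) ≤ 2 (M + B0) / 35 ≤ 6 M / 100`;
for `j = j'` it is `ee (P ∩ j) (P' ∩ j) ≤ (M + B0) / 35 ≤ 3 M / 100`; for `P = P'`, `j ≠ j'`: `ee (P ∩ j) (P ∩ j') ≤ (2 M + B0) / 35`; `j = j'`: `ee (P ∩ j) (P ∩ j) / 2 ≤ (2 M + B0) / 70`. `hX`: `M ≤ 24 #{..} + B0` (for `P = P'` after division by `2`), so `99 M / 100 ≤ 24 #{..}`. `100 N 0 ≤ 150 M / 100 ≤ 2 M` (and `N 1`),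
`100 N b ≤ 31 M / 2 + 900 ≤ 17 M`. Bad `P P'`: every edge gets some allowed group: for classes `c, c' < 7` there is `b` with `2 ≤ b < 10` and `¬ fb c q b`, `¬ fb c' q' b` for all `q, q'` (each class forbids at most two of the eight groups `2, .., 9`; finite check).
`γ a c := γ c a :=` the group of the pair `(a, c) ∈ E P P'` (for `F.Adj a c`, `nd a, nd c < m` exactly one of `(a, c)`, `(c, a)` is in some `E P P'`, `P ≤ P'`), `0` otherwise.
The sums: `∑_{v ∈ pt nd P} #{u : F.Adj v u ∧ nd u < m ∧ γ v u = b} = ∑_{P' ≠ P} #{e ∈ E (min) (max) : γ e = b} + 2 #{e ∈ E P P : γ e = b}` and the same without `γ`. The errors: good: at most `9` (twice for `P' = P`), bad: at most `M < 10000 + 100 B0` (twice for `P' = P`). So the total error is at most `m (20000 + 200 B0)`.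
-/

set_option autoImplicit false

namespace Pool.Agent.H2.F2

open Finset Classical
open Pool.Agent.H71.DN Pool.Agent.H71.HL Pool.Agent.H71.DC

theorem exg : ∀ c < 7, ∀ c' < 7, ∃ b < 10, 3 ≤ b ∧ c + 2 ≠ b ∧ c + 3 ≠ b ∧ c' + 2 ≠ b ∧
    c' + 3 ≠ b := by
  decide +kernel

theorem not_fb {c q b : ℕ} (h3 : 3 ≤ b) (h1 : c + 2 ≠ b) (h2 : c + 3 ≠ b) : ¬ fb c q b := by
  unfold fb
  omega

/-- the ordered edges from the piece `P` to the piece `P'` with `q` -/
noncomputable def ws {V : Type} [Fintype V] (F : SimpleGraph V) (nd : V → ℕ) (P P' : ℕ)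
    (q : V → V → Prop) : Finset (V × V) :=
  (univ : Finset (V × V)).filter fun e =>
    F.Adj e.1 e.2 ∧ nd e.1 = P ∧ nd e.2 = P' ∧ q e.1 e.2

/-- their number -/
noncomputable def wc {V : Type} [Fintype V] (F : SimpleGraph V) (nd : V → ℕ) (P P' : ℕ)
    (q : V → V → Prop) : ℕ := (ws F nd P P' q).card

theorem mem_ws {V : Type} [Fintype V] {F : SimpleGraph V} {nd : V → ℕ} {P P' : ℕ}
    {q : V → V → Prop} {e : V × V} : e ∈ ws F nd P P' q ↔
      F.Adj e.1 e.2 ∧ nd e.1 = P ∧ nd e.2 = P' ∧ q e.1 e.2 := by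
  unfold ws
  rw [mem_filter]
  exact ⟨fun h => h.2, fun h => ⟨mem_univ _, h⟩⟩

theorem mem_pt {V : Type} [Fintype V] {nd : V → ℕ} {P : ℕ} {v : V} :
    v ∈ pt nd P ↔ nd v = P := by
  unfold pt
  rw [mem_filter]
  exact ⟨fun h => h.2, fun h => ⟨mem_univ _, h⟩⟩

/-- the edges between `P` and `P'`, each one once -/
noncomputable def eo {V : Type} [Fintype V] (F : SimpleGraph V) (nd key : V → ℕ) (P P' : ℕ) :
    Finset (V × V) :=
  (univ : Finset (V × V)).filter fun e =>
    F.Adj e.1 e.2 ∧ nd e.1 = P ∧ nd e.2 = P' ∧ (P = P' → key e.1 < key e.2)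

theorem mem_eo {V : Type} [Fintype V] {F : SimpleGraph V} {nd key : V → ℕ} {P P' : ℕ}
    {e : V × V} : e ∈ eo F nd key P P' ↔
      F.Adj e.1 e.2 ∧ nd e.1 = P ∧ nd e.2 = P' ∧ (P = P' → key e.1 < key e.2) := by
  unfold eo
  rw [mem_filter]
  exact ⟨fun h => h.2, fun h => ⟨mem_univ _, h⟩⟩

theorem wc_swap {V : Type} [Fintype V] (F : SimpleGraph V) (nd : V → ℕ) (P P' : ℕ)
    (q : V → V → Prop) (hq : ∀ a c, q a c → q c a) : wc F nd P P' q = wc F nd P' P q := by
  unfold wc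
  refine Finset.card_bij (fun e _ => e.swap) ?_ ?_ ?_
  · rintro ⟨a, c⟩ he
    rw [mem_ws] at he ⊢
    exact ⟨he.1.symm, he.2.2.1, he.2.1, hq _ _ he.2.2.2⟩
  · rintro ⟨a, c⟩ _ ⟨a', c'⟩ _ h
    have h1 : c = c' := congrArg Prod.fst h
    have h2 : a = a' := congrArg Prod.snd h
    rw [h1, h2]
  · rintro ⟨a, c⟩ he
    rw [mem_ws] at he
    refine ⟨(c, a), ?_, rfl⟩
    rw [mem_ws]
    exact ⟨he.1.symm, he.2.2.1, he.2.1, hq _ _ he.2.2.2⟩

theorem wc_ne_of {V : Type} [Fintype V] (F : SimpleGraph V) (nd key : V → ℕ) {P P' : ℕ}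
    (hne : P ≠ P') (q : V → V → Prop) {s : Finset (V × V)}
    (hs : ∀ e, e ∈ s ↔ e ∈ eo F nd key P P' ∧ q e.1 e.2) :
    wc F nd P P' q = s.card := by
  unfold wc
  congr 1
  ext e
  rw [hs, mem_ws, mem_eo]
  constructor
  · rintro ⟨h1, h2, h3, h4⟩
    exact ⟨⟨h1, h2, h3, fun h => absurd h hne⟩, h4⟩
  · rintro ⟨⟨h1, h2, h3, _⟩, h4⟩
    exact ⟨h1, h2, h3, h4⟩

theorem wc_diag_of {V : Type} [Fintype V] (F : SimpleGraph V) (nd key : V → ℕ)
    (hkey : Function.Injective key) (P : ℕ) (q : V → V → Prop) (hq : ∀ a c, q a c → q c a)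
    {s : Finset (V × V)} (hs : ∀ e, e ∈ s ↔ e ∈ eo F nd key P P ∧ q e.1 e.2) :
    wc F nd P P q = 2 * s.card := by
  have h1 : wc F nd P P q = s.card + (s.image Prod.swap).card := by
    rw [← card_union_of_disjoint]
    · unfold wc
      congr 1
      ext ⟨a, c⟩
      rw [mem_ws, mem_union, mem_image, hs, mem_eo]
      constructor
      · rintro ⟨h1, h2, h3, h4⟩
        have hac : key a ≠ key c := fun h => h1.ne (hkey h)
        rcases lt_or_gt_of_ne hac with h | h
        · exact Or.inl ⟨⟨h1, h2, h3, fun _ => h⟩, h4⟩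
        · refine Or.inr ⟨(c, a), ?_, rfl⟩
          rw [hs, mem_eo]
          exact ⟨⟨h1.symm, h3, h2, fun _ => h⟩, hq _ _ h4⟩
      · rintro (⟨⟨h1, h2, h3, _⟩, h4⟩ | ⟨⟨c', a'⟩, h, h'⟩)
        · exact ⟨h1, h2, h3, h4⟩
        · have e1 : a' = a := congrArg Prod.fst h'
          have e2 : c' = c := congrArg Prod.snd h'
          subst e1 e2
          rw [hs, mem_eo] at h
          exact ⟨h.1.1.symm, h.1.2.2.1, h.1.2.1, hq _ _ h.2⟩
    · rw [disjoint_left]
      rintro ⟨a, c⟩ h h'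
      rw [hs, mem_eo] at h
      obtain ⟨⟨c', a'⟩, h2, h3⟩ := mem_image.mp h'
      have e1 : a' = a := congrArg Prod.fst h3
      have e2 : c' = c := congrArg Prod.snd h3
      subst e1 e2
      rw [hs, mem_eo] at h2
      exact absurd (h.1.2.2.2 rfl) (not_lt.mpr (h2.1.2.2.2 rfl).le)
  rw [h1, card_image_of_injective _ Prod.swap_injective]
  omega

theorem ee_wc {V : Type} [Fintype V] (F : SimpleGraph V) (nd : V → ℕ) (P P' : ℕ)
    (r r' : V → Prop) {A B : Finset V} (hA : ∀ v, v ∈ A ↔ nd v = P ∧ r v)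
    (hB : ∀ v, v ∈ B ↔ nd v = P' ∧ r' v) :
    ee F A B = wc F nd P P' (fun a c => r a ∧ r' c) := by
  unfold ee wc
  congr 1
  ext ⟨a, c⟩
  rw [mem_filter, mem_product, hA, hB, mem_ws]
  exact ⟨fun h => ⟨h.2, h.1.1.1, h.1.2.1, h.1.1.2, h.1.2.2⟩,
    fun h => ⟨⟨⟨h.2.1, h.2.2.2.1⟩, h.2.2.1, h.2.2.2.2⟩, h.1⟩⟩

theorem ee_wc' {V : Type} [Fintype V] (F : SimpleGraph V) (nd : V → ℕ) (P P' : ℕ) :
    ee F (pt nd P) (pt nd P') = wc F nd P P' (fun _ _ => True) := by
  unfold ee wc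
  congr 1
  ext ⟨a, c⟩
  rw [mem_filter, mem_product, mem_pt, mem_pt, mem_ws]
  exact ⟨fun h => ⟨h.2, h.1.1, h.1.2, trivial⟩, fun h => ⟨⟨h.2.1, h.2.2.1⟩, h.1⟩⟩

theorem wc_or {V : Type} [Fintype V] (F : SimpleGraph V) (nd : V → ℕ) (P P' : ℕ)
    (q q' : V → V → Prop) :
    wc F nd P P' (fun a c => q a c ∨ q' a c) ≤ wc F nd P P' q + wc F nd P P' q' := by
  unfold wc
  refine le_trans (card_le_card ?_) (card_union_le _ _)
  intro e he
  rw [mem_ws] at he
  rw [mem_union, mem_ws, mem_ws]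
  rcases he.2.2.2 with h | h
  · exact Or.inl ⟨he.1, he.2.1, he.2.2.1, h⟩
  · exact Or.inr ⟨he.1, he.2.1, he.2.2.1, h⟩

theorem wc_sum {V : Type} [Fintype V] (F : SimpleGraph V) (nd : V → ℕ) (m P : ℕ)
    (q : V → V → Prop) (c : V → Finset V)
    (hc : ∀ v u, u ∈ c v ↔ F.Adj v u ∧ nd u < m ∧ q v u) :
    ∑ v ∈ pt nd P, (c v).card = ∑ P' ∈ range m, wc F nd P P' q := by
  have h1 : ∀ P', wc F nd P P' q =
      ∑ v ∈ pt nd P, (univ.filter fun u => F.Adj v u ∧ nd u = P' ∧ q v u).card := by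
    intro P'
    unfold wc ws pt
    rw [card_filter, Fintype.sum_prod_type, sum_filter]
    refine sum_congr rfl fun v _ => ?_
    by_cases hv : nd v = P
    · rw [if_pos hv, card_filter]
      refine sum_congr rfl fun u _ => ?_
      simp only [hv, true_and]
    · rw [if_neg hv]
      refine sum_eq_zero fun u _ => ?_
      rw [if_neg]
      exact fun h => hv h.2.1
  simp only [h1]
  rw [sum_comm]
  refine sum_congr rfl fun v _ => ?_
  rw [card_eq_sum_card_fiberwise (f := nd) (t := range m) (s := c v)]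
  · refine sum_congr rfl fun P' hP' => ?_
    congr 1
    ext u
    rw [mem_filter, mem_filter, hc]
    have := mem_range.mp hP'
    constructor
    · rintro ⟨⟨h1, h2, h3⟩, h4⟩
      exact ⟨mem_univ _, h1, h4, h3⟩
    · rintro ⟨_, h2, h3, h4⟩
      exact ⟨⟨h2, h3 ▸ this, h4⟩, h3⟩
  · intro u hu
    rw [mem_coe, hc] at hu
    exact mem_coe.mpr (mem_range.mpr hu.2.1)

/-- the groups of the edges between two pieces -/
theorem pair_groups {V : Type} [Fintype V] (F : SimpleGraph V) (nd cl qt key : V → ℕ)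
    (hkey : Function.Injective key) (B0 : ℕ)
    (θ : ℕ → ℝ) (hcl : ∀ v, cl v < 7) (h0 : ∀ b < 10, 0 ≤ θ b) (h1 : ∑ b ∈ range 10, θ b = 1)
    (ha : θ 0 ≤ 3 / 200) (ha' : θ 1 ≤ 3 / 200) (hb : ∀ b < 10, θ b ≤ 31 / 200) (P P' : ℕ)
    (h3 : ∀ j < 7, ∀ j' < 7,
      35 * ee F ((pt nd P).filter fun v => cl v = j) ((pt nd P').filter fun v => cl v = j') ≤
        ee F (pt nd P) (pt nd P') + B0)
    (h4 : ee F (pt nd P) (pt nd P') ≤ 24 * ee F ((pt nd P).filter fun v => qt v < 2 ∧ cl v ≠ 0)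
        ((pt nd P').filter fun v => qt v < 2 ∧ cl v ≠ 0) + B0 ∧
      ee F (pt nd P) (pt nd P') ≤ 24 * ee F ((pt nd P).filter fun v => 2 ≤ qt v ∧ cl v ≠ 0)
        ((pt nd P').filter fun v => 2 ≤ qt v ∧ cl v ≠ 0) + B0) :
    ∃ β : V × V → ℕ, (∀ e ∈ eo F nd key P P', β e < 10 ∧ ¬ fb (cl e.1) (qt e.1) (β e) ∧
        ¬ fb (cl e.2) (qt e.2) (β e)) ∧
      ∀ b < 10, |(((eo F nd key P P').filter fun e => β e = b).card : ℝ) -
        θ b * ((eo F nd key P P').card : ℝ)| ≤ 10000 + 100 * B0 := by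
  set E := eo F nd key P P' with hE
  set M := E.card with hM
  have hθ1 : ∀ b < 10, θ b ≤ 1 := fun b hb' => (hb b hb').trans (by norm_num)
  by_cases hgood : 10000 + 100 * B0 ≤ M
  · -- the factor
    obtain ⟨D, hDD, hDw⟩ : ∃ D : ℕ, (D = 1 ∨ D = 2) ∧ ∀ q : V → V → Prop,
        (∀ a c, q a c → q c a) → ∀ s : Finset (V × V),
          (∀ e, e ∈ s ↔ e ∈ E ∧ q e.1 e.2) → wc F nd P P' q = D * s.card := by
      by_cases hPP : P = P'
      · subst hPP
        exact ⟨2, Or.inr rfl, fun q hq s hs => wc_diag_of F nd key hkey P q hq hs⟩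
      · exact ⟨1, Or.inl rfl, fun q _ s hs => by
          rw [one_mul]; exact wc_ne_of F nd key hPP q hs⟩
    have hM1 : ee F (pt nd P) (pt nd P') = D * M := by
      rw [ee_wc', hDw _ (fun _ _ _ => trivial) E (fun e => ⟨fun h => ⟨h, trivial⟩, fun h => h.1⟩)]
    have hJ : ∀ j < 7, ∀ j' < 7, 100 * (E.filter fun e => (cl e.1 = j ∧ cl e.2 = j') ∨
        (cl e.1 = j' ∧ cl e.2 = j)).card ≤ (if j = j' then 3 else 6) * M := by
      intro j hj j' hj'
      have e1 := h3 j hj j' hj'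
      have e2 := h3 j' hj' j hj
      rw [ee_wc F nd P P' (fun v => cl v = j) (fun v => cl v = j')
        (fun v => by rw [mem_filter, mem_pt]) (fun v => by rw [mem_filter, mem_pt]), hM1] at e1
      rw [ee_wc F nd P P' (fun v => cl v = j') (fun v => cl v = j)
        (fun v => by rw [mem_filter, mem_pt]) (fun v => by rw [mem_filter, mem_pt]), hM1] at e2
      have e3 := hDw (fun a c => (cl a = j ∧ cl c = j') ∨ (cl a = j' ∧ cl c = j)) (by
        intro a c h
        rcases h with h | h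
        · exact Or.inr ⟨h.2, h.1⟩
        · exact Or.inl ⟨h.2, h.1⟩)
        (E.filter fun e => (cl e.1 = j ∧ cl e.2 = j') ∨ (cl e.1 = j' ∧ cl e.2 = j))
        (fun e => by rw [mem_filter])
      set X := (E.filter fun e => (cl e.1 = j ∧ cl e.2 = j') ∨
        (cl e.1 = j' ∧ cl e.2 = j)).card with hX
      by_cases hjj : j = j'
      · subst hjj
        rw [if_pos rfl]
        have e4 : wc F nd P P' (fun a c => (cl a = j ∧ cl c = j) ∨ (cl a = j ∧ cl c = j)) =
            wc F nd P P' (fun a c => cl a = j ∧ cl c = j) := by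
          unfold wc
          congr 1
          ext e
          rw [mem_ws, mem_ws, or_self]
        rw [e4] at e3
        rw [e3] at e1
        rcases hDD with rfl | rfl
        · omega
        · omega
      · rw [if_neg hjj]
        have e4 := wc_or F nd P P' (fun a c => cl a = j ∧ cl c = j')
          (fun a c => cl a = j' ∧ cl c = j)
        rw [e3] at e4
        rcases hDD with rfl | rfl
        · omega
        · omega
    have hXY : ∀ (r : V → Prop) (A B : Finset V) (s : Finset (V × V)),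
        (∀ v, v ∈ A ↔ nd v = P ∧ r v) → (∀ v, v ∈ B ↔ nd v = P' ∧ r v) →
        (∀ e, e ∈ s ↔ e ∈ E ∧ r e.1 ∧ r e.2) → D * M ≤ 24 * ee F A B + B0 →
        M ≤ 25 * s.card := by
      intro r A B s hA hB hs hr
      rw [ee_wc F nd P P' r r hA hB, hDw (fun a c => r a ∧ r c) (fun a c h => ⟨h.2, h.1⟩) s hs]
        at hr
      rcases hDD with rfl | rfl
      · omega
      · omega
    have hX : M ≤ 25 * (E.filter fun e => (qt e.1 < 2 ∧ cl e.1 ≠ 0) ∧
        qt e.2 < 2 ∧ cl e.2 ≠ 0).card := by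
      refine hXY (fun v => qt v < 2 ∧ cl v ≠ 0) _ _ _ (fun v => ?_) (fun v => ?_) (fun e => ?_)
        (by rw [← hM1]; exact h4.1)
      · rw [mem_filter, mem_pt]
      · rw [mem_filter, mem_pt]
      · rw [mem_filter]
    have hY : M ≤ 25 * (E.filter fun e => (2 ≤ qt e.1 ∧ cl e.1 ≠ 0) ∧
        2 ≤ qt e.2 ∧ cl e.2 ≠ 0).card := by
      refine hXY (fun v => 2 ≤ qt v ∧ cl v ≠ 0) _ _ _ (fun v => ?_) (fun v => ?_) (fun e => ?_)
        (by rw [← hM1]; exact h4.2)
      · rw [mem_filter, mem_pt]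
      · rw [mem_filter, mem_pt]
      · rw [mem_filter]
    -- the numbers
    set N0 : ℕ → ℕ := fun b => ⌊θ b * M⌋₊ with hN0
    have hMR : (0 : ℝ) ≤ M := Nat.cast_nonneg M
    have hup : ∀ b < 10, (N0 b : ℝ) ≤ θ b * M := fun b hb' =>
      Nat.floor_le (mul_nonneg (h0 b hb') hMR)
    have hlo : ∀ b, θ b * M < N0 b + 1 := fun b => Nat.lt_floor_add_one _
    have hs9 : (∑ b ∈ range 9, (N0 b : ℝ)) ≤ (1 - θ 9) * M := by
      calc (∑ b ∈ range 9, (N0 b : ℝ)) ≤ ∑ b ∈ range 9, θ b * M :=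
            sum_le_sum fun b hb' => hup b (by have := mem_range.mp hb'; omega)
        _ = (∑ b ∈ range 9, θ b) * M := by rw [sum_mul]
        _ = (1 - θ 9) * M := by
            rw [sum_range_succ] at h1
            rw [← h1]; ring
    have hs9' : (1 - θ 9) * M - 9 ≤ ∑ b ∈ range 9, (N0 b : ℝ) := by
      have e1 : ∑ b ∈ range 9, (θ b * M - 1) ≤ ∑ b ∈ range 9, (N0 b : ℝ) :=
        sum_le_sum fun b _ => by linarith [hlo b]
      rw [sum_sub_distrib, ← sum_mul, sum_const, card_range] at e1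
      have e2 : (∑ b ∈ range 9, θ b) = 1 - θ 9 := by
        rw [sum_range_succ] at h1
        linarith
      rw [e2] at e1
      simpa using e1
    have hsN : ∑ b ∈ range 9, N0 b ≤ M := by
      have e1 : ((∑ b ∈ range 9, N0 b : ℕ) : ℝ) ≤ M := by
        push_cast
        refine hs9.trans ?_
        nlinarith [h0 9 (by norm_num)]
      exact_mod_cast e1
    set N : ℕ → ℕ := fun b => if b < 9 then N0 b else M - ∑ b ∈ range 9, N0 b with hN
    have hNlt : ∀ b < 9, N b = N0 b := fun b hb' => if_pos hb'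
    have hN9 : N 9 = M - ∑ b ∈ range 9, N0 b := if_neg (by norm_num)
    have hN9R : (N 9 : ℝ) = M - ∑ b ∈ range 9, (N0 b : ℝ) := by
      rw [hN9, Nat.cast_sub hsN]; push_cast; ring
    have hsum : ∑ b ∈ range 10, N b = M := by
      rw [sum_range_succ, hN9, sum_congr rfl fun b hb' => hNlt b (mem_range.mp hb')]
      exact Nat.add_sub_cancel' hsN
    have hNb : ∀ b < 10, |(N b : ℝ) - θ b * M| ≤ 9 := by
      intro b hb'
      rcases Nat.lt_or_ge b 9 with h | h
      · rw [hNlt b h, abs_le]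
        constructor
        · linarith [hlo b]
        · linarith [hup b hb']
      · have : b = 9 := by omega
        subst this
        rw [hN9R, abs_le]
        constructor
        · nlinarith [hs9]
        · nlinarith [hs9']
    have hMbig : (10000 : ℝ) ≤ M := by
      have : (10000 : ℕ) ≤ M := by omega
      exact_mod_cast this
    have hsmall : ∀ b < 2, θ b ≤ 3 / 200 → 100 * N b ≤ 2 * M := by
      intro b hb' hθ
      rw [hNlt b (by omega)]
      have e1 := hup b (by omega)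
      have e2 : (100 * N0 b : ℝ) ≤ 2 * M := by nlinarith
      exact_mod_cast e2
    have hbig : ∀ b < 10, 100 * N b ≤ 17 * M := by
      intro b hb'
      have e1 := (abs_le.mp (hNb b hb')).2
      have e2 := hb b hb'
      have e3 : (100 * N b : ℝ) ≤ 17 * M := by nlinarith
      exact_mod_cast e3
    obtain ⟨β, hβ1, hβ2⟩ := he E (fun e => cl e.1) (fun e => qt e.1) (fun e => cl e.2)
      (fun e => qt e.2) N hsum hJ (fun e _ => ⟨hcl _, hcl _⟩) hX hY
      (hsmall 0 (by norm_num) ha) (hsmall 1 (by norm_num) ha') hbig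
    refine ⟨β, hβ1, fun b hb' => ?_⟩
    rw [hβ2 b hb']
    refine (hNb b hb').trans ?_
    have : (0 : ℝ) ≤ B0 := Nat.cast_nonneg B0
    linarith
  · choose g hg using exg
    refine ⟨fun e => g (cl e.1) (hcl _) (cl e.2) (hcl _), fun e _ => ?_, fun b hb' => ?_⟩
    · have := hg (cl e.1) (hcl _) (cl e.2) (hcl _)
      exact ⟨this.1, not_fb this.2.1 this.2.2.1 this.2.2.2.1,
        not_fb this.2.1 this.2.2.2.2.1 this.2.2.2.2.2⟩
    · have e1 : (E.filter fun e => g (cl e.1) (hcl _) (cl e.2) (hcl _) = b).card ≤ M :=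
        card_le_card (filter_subset _ _)
      have e2 : (((E.filter fun e => g (cl e.1) (hcl _) (cl e.2) (hcl _) = b).card : ℕ) : ℝ) ≤
          M := by exact_mod_cast e1
      have e3 : (M : ℝ) ≤ 10000 + 100 * B0 := by
        have : M ≤ 10000 + 100 * B0 := by omega
        exact_mod_cast this
      have e4 : (0 : ℝ) ≤
        (((E.filter fun e => g (cl e.1) (hcl _) (cl e.2) (hcl _) = b).card : ℕ) : ℝ) :=
        Nat.cast_nonneg _
      have e5 : (0 : ℝ) ≤ M := Nat.cast_nonneg _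
      have e6 := h0 b hb'
      have e7 := hθ1 b hb'
      rw [abs_le]
      constructor
      · nlinarith
      · nlinarith

theorem inn {V : Type} [Fintype V] (F : SimpleGraph V) (nd cl qt : V → ℕ) (m B0 : ℕ)
    (θ : ℕ → ℝ) (hcl : ∀ v, cl v < 7) (h0 : ∀ b < 10, 0 ≤ θ b) (h1 : ∑ b ∈ range 10, θ b = 1)
    (ha : θ 0 ≤ 3 / 200) (ha' : θ 1 ≤ 3 / 200) (hb : ∀ b < 10, θ b ≤ 31 / 200)
    (h3 : ∀ P < m, ∀ P' < m, ∀ j < 7, ∀ j' < 7,
      35 * ee F ((pt nd P).filter fun v => cl v = j) ((pt nd P').filter fun v => cl v = j') ≤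
        ee F (pt nd P) (pt nd P') + B0)
    (h4 : ∀ P < m, ∀ P' < m,
      ee F (pt nd P) (pt nd P') ≤ 24 * ee F ((pt nd P).filter fun v => qt v < 2 ∧ cl v ≠ 0)
        ((pt nd P').filter fun v => qt v < 2 ∧ cl v ≠ 0) + B0 ∧
      ee F (pt nd P) (pt nd P') ≤ 24 * ee F ((pt nd P).filter fun v => 2 ≤ qt v ∧ cl v ≠ 0)
        ((pt nd P').filter fun v => 2 ≤ qt v ∧ cl v ≠ 0) + B0) :
    ∃ γ : V → V → ℕ, (∀ a c, γ a c = γ c a) ∧
      (∀ a c, F.Adj a c → nd a < m → nd c < m → γ a c < 10 ∧ ¬ fb (cl a) (qt a) (γ a c)) ∧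
      ∀ P < m, ∀ b < 10,
        |∑ v ∈ pt nd P, ((univ.filter fun u => F.Adj v u ∧ nd u < m ∧ γ v u = b).card : ℝ) -
          θ b * ∑ v ∈ pt nd P, (dgi F (univ.filter fun u => nd u < m) v : ℝ)| ≤
            m * (20000 + 200 * B0) := by
  obtain ⟨key, hkey⟩ : ∃ key : V → ℕ, Function.Injective key :=
    ⟨fun v => (Fintype.equivFin V v : ℕ), fun a c h =>
      (Fintype.equivFin V).injective (Fin.ext h)⟩
  have hex : ∀ P P' : ℕ, ∃ β : V × V → ℕ, P < m → P' < m →
      (∀ e ∈ eo F nd key P P', β e < 10 ∧ ¬ fb (cl e.1) (qt e.1) (β e) ∧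
        ¬ fb (cl e.2) (qt e.2) (β e)) ∧
      ∀ b < 10, |(((eo F nd key P P').filter fun e => β e = b).card : ℝ) -
        θ b * ((eo F nd key P P').card : ℝ)| ≤ 10000 + 100 * B0 := by
    intro P P'
    by_cases h : P < m ∧ P' < m
    · obtain ⟨β, hβ⟩ := pair_groups F nd cl qt key hkey B0 θ hcl h0 h1 ha ha' hb P P'
        (h3 P h.1 P' h.2) (h4 P h.1 P' h.2)
      exact ⟨β, fun _ _ => hβ⟩
    · exact ⟨fun _ => 0, fun g1 g2 => absurd ⟨g1, g2⟩ h⟩
  choose β hβ using hex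
  set o : V → V → Prop := fun a c => nd a < nd c ∨ (nd a = nd c ∧ key a < key c) with ho
  set γ : V → V → ℕ := fun a c =>
    if o a c then β (nd a) (nd c) (a, c) else β (nd c) (nd a) (c, a) with hγ
  have hoo : ∀ a c, a ≠ c → (o a c ∧ ¬ o c a) ∨ (¬ o a c ∧ o c a) := by
    intro a c hac
    have hk : key a ≠ key c := fun h => hac (hkey h)
    simp only [ho]
    omega
  have hγt : ∀ a c, o a c → γ a c = β (nd a) (nd c) (a, c) := fun a c h => if_pos h
  have hγf : ∀ a c, ¬ o a c → γ a c = β (nd c) (nd a) (c, a) := fun a c h => if_neg h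
  have hsym : ∀ a c, γ a c = γ c a := by
    intro a c
    by_cases hac : a = c
    · rw [hac]
    · rcases hoo a c hac with ⟨g1, g2⟩ | ⟨g1, g2⟩
      · rw [hγt a c g1, hγf c a g2]
      · rw [hγf a c g1, hγt c a g2]
  have hmo : ∀ a c, F.Adj a c → o a c → (a, c) ∈ eo F nd key (nd a) (nd c) := by
    intro a c g1 g2
    rw [mem_eo]
    refine ⟨g1, rfl, rfl, fun h => ?_⟩
    rcases g2 with g | g
    · omega
    · exact g.2
  refine ⟨γ, hsym, ?_, ?_⟩
  · intro a c hac g1 g2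
    rcases hoo a c hac.ne with ⟨k1, _⟩ | ⟨k1, k2⟩
    · rw [hγt a c k1]
      have := (hβ (nd a) (nd c) g1 g2).1 _ (hmo a c hac k1)
      exact ⟨this.1, this.2.1⟩
    · rw [hγf a c k1]
      have := (hβ (nd c) (nd a) g2 g1).1 _ (hmo c a hac.symm k2)
      exact ⟨this.1, this.2.2⟩
  · intro P hP b hb10
    have hle : ∀ Q Q', Q < m → Q' < m → Q ≤ Q' →
        |(wc F nd Q Q' (fun a c => γ a c = b) : ℝ) - θ b * (wc F nd Q Q' (fun _ _ => True) : ℝ)| ≤
          20000 + 200 * B0 := by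
      intro Q Q' hQ hQ' hQQ
      have e1 := (hβ Q Q' hQ hQ').2 b hb10
      have e2 : ∀ e, e ∈ ((eo F nd key Q Q').filter fun e => β Q Q' e = b) ↔
          e ∈ eo F nd key Q Q' ∧ (fun a c => γ a c = b) e.1 e.2 := by
        intro e
        rw [mem_filter]
        refine and_congr_right fun he => ?_
        have hm := mem_eo.mp he
        have hoe : o e.1 e.2 := by
          simp only [ho]
          rcases Nat.lt_or_eq_of_le hQQ with g | g
          · left; rw [hm.2.1, hm.2.2.1]; exact g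
          · right; exact ⟨by rw [hm.2.1, hm.2.2.1]; exact g, hm.2.2.2 g⟩
        show β Q Q' e = b ↔ γ e.1 e.2 = b
        rw [hγt _ _ hoe, hm.2.1, hm.2.2.1]
      have e3 : ∀ e, e ∈ eo F nd key Q Q' ↔
          e ∈ eo F nd key Q Q' ∧ (fun _ _ : V => True) e.1 e.2 := by
        intro e
        exact ⟨fun h => ⟨h, trivial⟩, fun h => h.1⟩
      have hB : (0 : ℝ) ≤ B0 := Nat.cast_nonneg B0
      by_cases hne : Q = Q'
      · subst hne
        rw [wc_diag_of F nd key hkey Q (fun a c => γ a c = b) (fun a c h => by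
            rw [hsym c a]; exact h) e2,
          wc_diag_of F nd key hkey Q (fun _ _ => True) (fun _ _ _ => trivial) e3]
        push_cast
        rw [abs_le] at e1 ⊢
        constructor <;> nlinarith [e1.1, e1.2]
      · rw [wc_ne_of F nd key hne (fun a c => γ a c = b) e2,
          wc_ne_of F nd key hne (fun _ _ => True) e3]
        linarith
    have hall : ∀ Q' < m,
        |(wc F nd P Q' (fun a c => γ a c = b) : ℝ) - θ b * (wc F nd P Q' (fun _ _ => True) : ℝ)| ≤
          20000 + 200 * B0 := by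
      intro Q' hQ'
      rcases Nat.le_total P Q' with h | h
      · exact hle P Q' hP hQ' h
      · rw [wc_swap F nd P Q' (fun a c => γ a c = b) (fun a c h => by
            rw [hsym c a]; exact h),
          wc_swap F nd P Q' (fun _ _ => True) (fun _ _ _ => trivial)]
        exact hle Q' P hQ' hP h
    have k1 : ∑ v ∈ pt nd P,
        ((univ.filter fun u => F.Adj v u ∧ nd u < m ∧ γ v u = b).card : ℝ) =
        ∑ P' ∈ range m, (wc F nd P P' (fun a c => γ a c = b) : ℝ) := by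
      have k0 : ∑ v ∈ pt nd P,
          (univ.filter fun u => F.Adj v u ∧ nd u < m ∧ γ v u = b).card =
          ∑ P' ∈ range m, wc F nd P P' (fun a c => γ a c = b) := by
        refine wc_sum F nd m P (fun a c => γ a c = b) _ (fun v u => ?_)
        rw [mem_filter]
        exact ⟨fun h => h.2, fun h => ⟨mem_univ _, h⟩⟩
      exact_mod_cast k0
    have k2 : ∑ v ∈ pt nd P, (dgi F (univ.filter fun u => nd u < m) v : ℝ) =
        ∑ P' ∈ range m, (wc F nd P P' (fun _ _ => True) : ℝ) := by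
      have k0 : ∑ v ∈ pt nd P, dgi F (univ.filter fun u => nd u < m) v =
          ∑ P' ∈ range m, wc F nd P P' (fun _ _ => True) := by
        unfold dgi
        refine wc_sum F nd m P (fun _ _ => True) _ (fun v u => ?_)
        rw [mem_filter, mem_filter]
        exact ⟨fun h => ⟨h.2, h.1.2, trivial⟩, fun h => ⟨⟨mem_univ _, h.2.1⟩, h.1⟩⟩
      exact_mod_cast k0
    rw [k1, k2, mul_sum, ← sum_sub_distrib]
    refine (abs_sum_le_sum_abs _ _).trans ?_
    refine (sum_le_sum fun P' hP' => hall P' (mem_range.mp hP')).trans ?_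
    rw [sum_const, card_range, nsmul_eq_mul]

end Pool.Agent.H2.F2
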