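import Mathlib
import Pool.Agent.H71.HL.Defs

/-!
LL: the edges inside the exceptional piece `Lo` get groups, nearly proportionally with respect to the weights `q`. Compare `grd`, `grd2` in `Pool/Agent/H2/FC/Grd.lean`, `Grd2.lean`.

Proof.  Let `E` be the finset of the edges of `F` inside `Lo` (unordered; for example `Sym2 V`, or ordered pairs `(a, c)` with `key a < key c` for an injective `key : V → ℕ`), `s e P := q a P + q c P` for `e = a c`: `∑_P (s e P)² ≤ (∑_P s e P)² ≤ 4`. Abstract lemma: for a finset `E`, vectors `s e : ℕ → ℝ` with `∑_{P < m} (s e P)² ≤ 4`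
and `θ b ≥ 0`, `∑_{b < n} θ b = 1` there is `γ : E → {b < n}` with `∑_{b < n} ∑_{P < m} (∑_{e, γ e = b} s e P - θ b ∑_e s e P)² ≤ 4 #E`. Induction on `E`: for a new `e` the mean over `b'` (with the weights `θ b'`) of `∑_b ∑_P (D b P + ([b = b'] - θ b) s e P)²` is `∑_b ∑_P (D b P)² + ∑_b θ b (1 - θ b) ∑_P (s e P)²`
(the linear terms cancel: `∑_{b'} θ b' ([b = b'] - θ b) = 0`), which is at most the old value `+ 4`, so some `b' < n` with `θ b' > 0` is good. Here `#E ≤ #Lo² / 2`, so every `|D b P| ≤ sqrt (2 #Lo²) ≤ 2 #Lo`.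
`∑_{w ∈ Lo} #{u ∈ Lo : F.Adj w u ∧ γ w u = b} q w P = ∑_{e ∈ E, γ e = b} s e P` (each edge is counted at both ends), and the same without `γ`. `γ a c :=` the group of the edge `a c` if it is in `E`, otherwise a fixed `b0 < n` (`n > 0` because of `∑ θ b = 1`).
-/

set_option autoImplicit false

namespace Pool.Agent.H2.F2

open Finset Classical
open Pool.Agent.H71.HL

/-- The abstract discrepancy lemma. -/
theorem llAux {E : Type} [DecidableEq E] (S : Finset E) (m n : ℕ) (s : E → ℕ → ℝ) (M : ℝ)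
    (hM : ∀ e ∈ S, ∑ P ∈ range m, s e P ^ 2 ≤ M)
    (θ : ℕ → ℝ) (h0 : ∀ b < n, 0 ≤ θ b) (h1 : ∑ b ∈ range n, θ b = 1) :
    ∃ γ : E → ℕ, (∀ e, γ e < n) ∧
      ∑ b ∈ range n, ∑ P ∈ range m,
        (∑ e ∈ S.filter (fun e => γ e = b), s e P - θ b * ∑ e ∈ S, s e P) ^ 2 ≤ M * S.card := by
  have hn : 0 < n := by
    rcases Nat.eq_zero_or_pos n with h | h
    · subst h; simp at h1
    · exact h
  induction S using Finset.induction_on with
  | empty => exact ⟨fun _ => 0, fun _ => hn, by simp⟩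
  | insert e S he ih =>
    obtain ⟨γ, hγ, hb⟩ := ih (fun x hx => hM x (Finset.mem_insert_of_mem hx))
    have hMe := hM e (Finset.mem_insert_self e S)
    have hM0 : 0 ≤ M := le_trans (Finset.sum_nonneg fun P _ => sq_nonneg (s e P)) hMe
    set D : ℕ → ℕ → ℝ := fun b P =>
      ∑ x ∈ S.filter (fun x => γ x = b), s x P - θ b * ∑ x ∈ S, s x P with hD
    set X : ℕ → ℝ := fun b' => ∑ b ∈ range n, ∑ P ∈ range m,
      (D b P + ((if b = b' then (1 : ℝ) else 0) - θ b) * s e P) ^ 2 with hX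
    have hpt : ∀ b ∈ range n, ∀ P : ℕ, ∑ b' ∈ range n,
        θ b' * (D b P + ((if b = b' then (1 : ℝ) else 0) - θ b) * s e P) ^ 2
        = D b P ^ 2 + (θ b - θ b ^ 2) * s e P ^ 2 := by
      intro b hbn P
      have h2 : ∀ b' ∈ range n,
          θ b' * (D b P + ((if b = b' then (1 : ℝ) else 0) - θ b) * s e P) ^ 2
          = θ b' * (D b P - θ b * s e P) ^ 2 +
            (if b = b' then θ b' * (2 * (D b P - θ b * s e P) * s e P + s e P ^ 2) else 0) := by
        intro b' _
        split_ifs with h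
        · ring
        · ring
      rw [Finset.sum_congr rfl h2, Finset.sum_add_distrib, ← Finset.sum_mul, h1,
        Finset.sum_ite_eq, if_pos hbn]
      ring
    have hmean : ∑ b' ∈ range n, θ b' * X b' = ∑ b ∈ range n, ∑ P ∈ range m, D b P ^ 2
        + (∑ b ∈ range n, (θ b - θ b ^ 2)) * ∑ P ∈ range m, s e P ^ 2 := by
      have e1 : ∑ b' ∈ range n, θ b' * X b' = ∑ b ∈ range n, ∑ P ∈ range m, ∑ b' ∈ range n,
          θ b' * (D b P + ((if b = b' then (1 : ℝ) else 0) - θ b) * s e P) ^ 2 := by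
        simp only [hX, Finset.mul_sum]
        rw [Finset.sum_comm]
        refine Finset.sum_congr rfl fun b _ => ?_
        rw [Finset.sum_comm]
      rw [e1, Finset.sum_mul, ← Finset.sum_add_distrib]
      refine Finset.sum_congr rfl fun b hbn => ?_
      rw [Finset.mul_sum, ← Finset.sum_add_distrib]
      exact Finset.sum_congr rfl fun P _ => hpt b hbn P
    have hth : ∑ b ∈ range n, (θ b - θ b ^ 2) ≤ 1 := by
      rw [← h1]
      refine Finset.sum_le_sum fun b _ => ?_
      nlinarith [sq_nonneg (θ b)]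
    have hs0 : 0 ≤ ∑ P ∈ range m, s e P ^ 2 := Finset.sum_nonneg fun P _ => sq_nonneg (s e P)
    have hle : ∑ b' ∈ range n, θ b' * X b' ≤ M * (S.card + 1) := by
      rw [hmean]
      have e2 : (∑ b ∈ range n, (θ b - θ b ^ 2)) * ∑ P ∈ range m, s e P ^ 2 ≤ 1 * M :=
        le_trans (mul_le_mul_of_nonneg_right hth hs0) (mul_le_mul_of_nonneg_left hMe zero_le_one)
      have e3 : ∑ b ∈ range n, ∑ P ∈ range m, D b P ^ 2 ≤ M * S.card := hb
      linarith
    obtain ⟨b', hb', hXb⟩ : ∃ b' ∈ range n, X b' ≤ M * (S.card + 1) := by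
      by_contra hcon
      push Not at hcon
      have hpos : 0 < ∑ b' ∈ range n, θ b' * (X b' - M * (S.card + 1)) := by
        refine Finset.sum_pos' (fun b' hb' => mul_nonneg (h0 b' (Finset.mem_range.1 hb'))
          (sub_nonneg.2 (hcon b' hb').le)) ?_
        by_contra hno
        push Not at hno
        have hz : ∀ b' ∈ range n, θ b' = 0 := by
          intro b' hb'
          by_contra hne
          have hp : 0 < θ b' := lt_of_le_of_ne (h0 b' (Finset.mem_range.1 hb')) (Ne.symm hne)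
          exact absurd (hno b' hb') (not_le.2 (mul_pos hp (sub_pos.2 (hcon b' hb'))))
        rw [Finset.sum_eq_zero hz] at h1
        exact zero_ne_one h1
      have e4 : ∑ b' ∈ range n, θ b' * (X b' - M * (S.card + 1))
          = ∑ b' ∈ range n, θ b' * X b' - M * (S.card + 1) := by
        simp only [mul_sub, Finset.sum_sub_distrib, ← Finset.sum_mul, h1, one_mul]
      rw [e4] at hpos
      linarith
    refine ⟨fun x => if x = e then b' else γ x, fun x => ?_, ?_⟩
    · show (if x = e then b' else γ x) < n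
      split_ifs
      · exact Finset.mem_range.1 hb'
      · exact hγ x
    · have hcard : ((insert e S).card : ℝ) = S.card + 1 := by
        rw [Finset.card_insert_of_notMem he]; push_cast; ring
      rw [hcard]
      refine le_trans (le_of_eq ?_) hXb
      refine Finset.sum_congr rfl fun b _ => Finset.sum_congr rfl fun P _ => ?_
      have e5 : ∑ x ∈ (insert e S).filter (fun x => (if x = e then b' else γ x) = b), s x P
          = (if b = b' then s e P else 0) + ∑ x ∈ S.filter (fun x => γ x = b), s x P := by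
        rw [Finset.sum_filter, Finset.sum_insert he, Finset.sum_filter]
        have e6 : (if (if e = e then b' else γ e) = b then s e P else 0)
            = if b = b' then s e P else 0 := by
          rw [if_pos rfl]
          by_cases h : b = b'
          · rw [if_pos h.symm, if_pos h]
          · rw [if_neg h, if_neg (fun h' => h h'.symm)]
        rw [e6]
        refine congrArg (fun z => (if b = b' then s e P else 0) + z) ?_
        refine Finset.sum_congr rfl fun x hx => ?_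
        have hxe : x ≠ e := fun h => he (h ▸ hx)
        rw [if_neg hxe]
      rw [e5, Finset.sum_insert he]
      simp only [hD]
      split_ifs with h
      · ring
      · ring

/-- Each edge is counted at both ends. -/
theorem llCount {V : Type} [Fintype V] (Lo : Finset V) (R : V → V → Prop)
    [∀ w u, Decidable (R w u)]
    (hs : ∀ a c, R a c → R c a) (hi : ∀ a, ¬ R a a) (S : Finset (Sym2 V))
    (hS : ∀ a c, s(a, c) ∈ S ↔ (a ∈ Lo ∧ c ∈ Lo ∧ R a c)) (f : V → ℝ)
    (g : Sym2 V → ℝ) (hg : ∀ a c, g s(a, c) = f a + f c) :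
    ∑ w ∈ Lo, ((Lo.filter fun u => R w u).card : ℝ) * f w = ∑ e ∈ S, g e := by
  have e1 : ∑ w ∈ Lo, ((Lo.filter fun u => R w u).card : ℝ) * f w
      = ∑ p ∈ (Lo ×ˢ Lo).filter (fun p => R p.1 p.2), f p.1 := by
    rw [Finset.sum_filter, Finset.sum_product]
    refine Finset.sum_congr rfl fun w _ => ?_
    rw [← Finset.sum_filter]
    show _ = ∑ _a ∈ Lo.filter (fun u => R w u), f w
    rw [Finset.sum_const, nsmul_eq_mul]
  have hmap : ∀ p ∈ (Lo ×ˢ Lo).filter (fun p => R p.1 p.2), s(p.1, p.2) ∈ S := by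
    intro p hp
    rw [Finset.mem_filter, Finset.mem_product] at hp
    exact (hS _ _).2 ⟨hp.1.1, hp.1.2, hp.2⟩
  rw [e1, ← Finset.sum_fiberwise_of_maps_to hmap]
  refine Finset.sum_congr rfl fun e he => ?_
  induction e using Sym2.ind with
  | _ a c =>
    obtain ⟨ha, hc, hR⟩ := (hS a c).1 he
    have hne : a ≠ c := fun h => hi a (by rw [← h] at hR; exact hR)
    have hfib : ((Lo ×ˢ Lo).filter (fun p => R p.1 p.2)).filter (fun p => s(p.1, p.2) = s(a, c))
        = {(a, c), (c, a)} := by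
      ext p
      obtain ⟨x, y⟩ := p
      simp only [Finset.mem_filter, Finset.mem_product, Finset.mem_insert, Finset.mem_singleton,
        Prod.mk.injEq, Sym2.eq_iff]
      constructor
      · rintro ⟨_, h⟩
        exact h
      · rintro (⟨rfl, rfl⟩ | ⟨rfl, rfl⟩)
        · exact ⟨⟨⟨ha, hc⟩, hR⟩, Or.inl ⟨rfl, rfl⟩⟩
        · exact ⟨⟨⟨hc, ha⟩, hs _ _ hR⟩, Or.inr ⟨rfl, rfl⟩⟩
    rw [hfib, hg, Finset.sum_pair]
    intro h
    exact hne (Prod.mk.inj h).1

theorem ll {V : Type} [Fintype V] (F : SimpleGraph V) (Lo : Finset V) (m n : ℕ)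
    (q : V → ℕ → ℝ) (hq0 : ∀ v P, 0 ≤ q v P) (hq1 : ∀ v ∈ Lo, ∑ P ∈ range m, q v P ≤ 1)
    (θ : ℕ → ℝ) (h0 : ∀ b < n, 0 ≤ θ b) (h1 : ∑ b ∈ range n, θ b = 1) :
    ∃ γ : V → V → ℕ, (∀ a c, γ a c = γ c a) ∧ (∀ a c, γ a c < n) ∧
      ∀ b < n, ∀ P < m, |∑ w ∈ Lo, ((Lo.filter fun u => F.Adj w u ∧ γ w u = b).card : ℝ) * q w P -
        θ b * ∑ w ∈ Lo, (dgi F Lo w : ℝ) * q w P| ≤ 4 * Lo.card := by
  set E : Finset (Sym2 V) := (Lo ×ˢ Lo).image (fun p => s(p.1, p.2)) |>.filter
    (fun e => e ∈ F.edgeSet) with hE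
  have hmemE : ∀ a c, s(a, c) ∈ E ↔ (a ∈ Lo ∧ c ∈ Lo ∧ F.Adj a c) := by
    intro a c
    rw [hE, Finset.mem_filter, Finset.mem_image, SimpleGraph.mem_edgeSet]
    constructor
    · rintro ⟨⟨p, hp, hpe⟩, h⟩
      rw [Finset.mem_product] at hp
      rcases Sym2.eq_iff.1 hpe with ⟨h2, h3⟩ | ⟨h2, h3⟩
      · exact ⟨h2 ▸ hp.1, h3 ▸ hp.2, h⟩
      · exact ⟨h3 ▸ hp.2, h2 ▸ hp.1, h⟩
    · rintro ⟨ha, hc, h⟩
      exact ⟨⟨(a, c), Finset.mem_product.2 ⟨ha, hc⟩, rfl⟩, h⟩
  have hEcard : (E.card : ℝ) ≤ (Lo.card : ℝ) ^ 2 := by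
    have h2 : E.card ≤ Lo.card * Lo.card := by
      refine le_trans (Finset.card_filter_le _ _) (le_trans Finset.card_image_le ?_)
      rw [Finset.card_product]
    calc (E.card : ℝ) ≤ ((Lo.card * Lo.card : ℕ) : ℝ) := by exact_mod_cast h2
      _ = (Lo.card : ℝ) ^ 2 := by push_cast; ring
  set s : Sym2 V → ℕ → ℝ := fun e P =>
    Sym2.lift ⟨fun a c => q a P + q c P, fun a c => add_comm _ _⟩ e with hsdef
  have hs : ∀ a c P, s s(a, c) P = q a P + q c P := fun a c P => rfl
  have hM : ∀ e ∈ E, ∑ P ∈ range m, s e P ^ 2 ≤ 4 := by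
    intro e he
    induction e using Sym2.ind with
    | _ a c =>
      obtain ⟨ha, hc, _⟩ := (hmemE a c).1 he
      have hsum : ∑ P ∈ range m, s s(a, c) P ≤ 2 := by
        simp only [hs, Finset.sum_add_distrib]
        linarith [hq1 a ha, hq1 c hc]
      have h0' : ∀ P, 0 ≤ s s(a, c) P := fun P => by
        rw [hs]; exact add_nonneg (hq0 a P) (hq0 c P)
      have hle2 : ∀ P ∈ range m, s s(a, c) P ≤ 2 := fun P hP =>
        le_trans (Finset.single_le_sum (fun x _ => h0' x) hP) hsum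
      calc ∑ P ∈ range m, s s(a, c) P ^ 2 ≤ ∑ P ∈ range m, 2 * s s(a, c) P := by
            refine Finset.sum_le_sum fun P hP => ?_
            nlinarith [h0' P, hle2 P hP]
        _ = 2 * ∑ P ∈ range m, s s(a, c) P := by rw [Finset.mul_sum]
        _ ≤ 4 := by linarith
  obtain ⟨γ, hγ, hsum⟩ := llAux E m n s 4 hM θ h0 h1
  refine ⟨fun a c => γ s(a, c), fun a c => ?_, fun a c => hγ _, ?_⟩
  · show γ s(a, c) = γ s(c, a)
    rw [Sym2.eq_swap]
  intro b hb P hP
  have hc1 : ∑ w ∈ Lo, ((Lo.filter fun u => F.Adj w u ∧ γ s(w, u) = b).card : ℝ) * q w P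
      = ∑ e ∈ E.filter (fun e => γ e = b), s e P := by
    refine llCount Lo (fun w u => F.Adj w u ∧ γ s(w, u) = b) ?_ ?_ _ ?_ (fun w => q w P)
      (fun e => s e P) (fun a c => hs a c P)
    · rintro a c ⟨h, h2⟩
      exact ⟨h.symm, by rw [Sym2.eq_swap]; exact h2⟩
    · rintro a ⟨h, _⟩
      exact F.loopless.irrefl a h
    · intro a c
      rw [Finset.mem_filter, hmemE]
      tauto
  have hc2 : ∑ w ∈ Lo, (dgi F Lo w : ℝ) * q w P = ∑ e ∈ E, s e P := by
    refine llCount Lo (fun w u => F.Adj w u) ?_ ?_ _ ?_ (fun w => q w P)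
      (fun e => s e P) (fun a c => hs a c P)
    · intro a c h
      exact h.symm
    · intro a h
      exact F.loopless.irrefl a h
    · exact hmemE
  have hD : ∑ w ∈ Lo, ((Lo.filter fun u => F.Adj w u ∧
        (fun a c => γ s(a, c)) w u = b).card : ℝ) * q w P -
        θ b * ∑ w ∈ Lo, (dgi F Lo w : ℝ) * q w P
      = ∑ e ∈ E.filter (fun e => γ e = b), s e P - θ b * ∑ e ∈ E, s e P := by
    rw [hc2, ← hc1]
  rw [hD]
  have hone : (∑ e ∈ E.filter (fun e => γ e = b), s e P - θ b * ∑ e ∈ E, s e P) ^ 2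
      ≤ 4 * E.card := by
    refine le_trans ?_ hsum
    refine le_trans ?_ (Finset.single_le_sum (f := fun b => ∑ P ∈ range m,
      (∑ e ∈ E.filter (fun e => γ e = b), s e P - θ b * ∑ e ∈ E, s e P) ^ 2)
      (fun x _ => Finset.sum_nonneg fun y _ => sq_nonneg _) (Finset.mem_range.2 hb))
    exact Finset.single_le_sum (f := fun P =>
      (∑ e ∈ E.filter (fun e => γ e = b), s e P - θ b * ∑ e ∈ E, s e P) ^ 2)
      (fun y _ => sq_nonneg _) (Finset.mem_range.2 hP)
  have hL : (0 : ℝ) ≤ Lo.card := Nat.cast_nonneg _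
  refine abs_le_of_sq_le_sq (le_trans hone ?_) (by positivity)
  nlinarith

end Pool.Agent.H2.F2
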