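import Mathlib
import Pool.Agent.H2.F2.Hlb

/-!
HW: the edges from one exceptional vertex to one piece get their groups. Use the STATEMENT of `hlb` (`F2/Hlb.lean`).

Proof.  `hlb E 10 N (fun v b => fb (cl v) (qt v) b)`. Let `M := #E`, `∅ ≠ R ⊆ range 10`, `W := #{v ∈ E : ∀ b ∈ R, fb (cl v) (qt v) b}`; to show: `W + ∑_{b ∈ R} N b ≤ M`.
 * If `W = 0`: `∑_{b ∈ R} N b ≤ ∑_{b < 10} N b = M`.
 * `W > 0` and some `b ∈ R` has `b ≥ 2`: `fb (cl v) (qt v) b` implies `cl v + 2 = b ∨ cl v + 3 = b` (for `b = 2`: `cl v = 0`), so `W ≤ #{cl v = b - 2} + #{cl v = b - 3} ≤ 42 M / 100`. Take `v ∈ E` with `fb (cl v) (qt v) b'` for all `b' ∈ R`. Then `R ⊆ {0, 1, cl v + 2, cl v + 3}`,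
   so `100 ∑_{b ∈ R} N b ≤ 2 M + 2 M + 17 M + 17 M = 38 M`. Together `≤ 80 M / 100`.
 * `R = {0}`: `fb c q 0` fails for `2 ≤ q ∧ c ≠ 0`, so `W ≤ M - #{2 ≤ qt v ∧ cl v ≠ 0}`, and `100 N 0 ≤ 2 M ≤ 24 #{..}` by `hY`. `R = {1}`: the same with `hX`.
 * `R = {0, 1}`: `fb c q 0 ∧ fb c q 1` implies `c = 0`: `W ≤ 21 M / 100`, `100 (N 0 + N 1) ≤ 4 M`.
-/

set_option autoImplicit false

namespace Pool.Agent.H2.F2

open Finset Classical

theorem hw {α : Type} (E : Finset α) (cl qt : α → ℕ) (N : ℕ → ℕ)
    (hsum : ∑ b ∈ range 10, N b = E.card)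
    (hj : ∀ j < 7, 100 * (E.filter fun v => cl v = j).card ≤ 21 * E.card)
    (hcl : ∀ v ∈ E, cl v < 7)
    (hX : E.card ≤ 12 * (E.filter fun v => qt v < 2 ∧ cl v ≠ 0).card)
    (hY : E.card ≤ 12 * (E.filter fun v => 2 ≤ qt v ∧ cl v ≠ 0).card)
    (hN0 : 100 * N 0 ≤ 2 * E.card) (hN1 : 100 * N 1 ≤ 2 * E.card)
    (hNb : ∀ b < 10, 100 * N b ≤ 17 * E.card) :
    ∃ β : α → ℕ, (∀ v ∈ E, β v < 10 ∧ ¬ fb (cl v) (qt v) (β v)) ∧
      ∀ b < 10, (E.filter fun v => β v = b).card = N b := by
  refine hlb E 10 N (fun v b => fb (cl v) (qt v) b) hsum ?_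
  intro R hR hne
  obtain ⟨M, hM⟩ : ∃ M, M = E.card := ⟨_, rfl⟩
  rw [← hM] at hsum hX hY hN0 hN1 ⊢
  have hj' : ∀ j < 7, 100 * (E.filter fun v => cl v = j).card ≤ 21 * M := by
    intro j hj7
    rw [hM]
    exact hj j hj7
  have hNb' : ∀ b < 10, 100 * N b ≤ 17 * M := by
    intro b hb
    rw [hM]
    exact hNb b hb
  rcases (E.filter fun v => ∀ b ∈ R, fb (cl v) (qt v) b).eq_empty_or_nonempty with hW | ⟨v, hv⟩
  · rw [hW, card_empty, zero_add, ← hsum]
    exact sum_le_sum_of_subset hR
  rw [mem_filter] at hv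
  by_cases hb : ∃ b ∈ R, 2 ≤ b
  · obtain ⟨b, hbR, hb2⟩ := hb
    have hb10 : b < 10 := mem_range.1 (hR hbR)
    have h1 : (E.filter fun v => ∀ b ∈ R, fb (cl v) (qt v) b) ⊆
        (E.filter fun v => cl v = b - 2) ∪ (E.filter fun v => cl v = b - 3) := by
      intro u hu
      rw [mem_filter] at hu
      rw [mem_union, mem_filter, mem_filter]
      have h2 := hu.2 b hbR
      unfold fb at h2
      have h3 : cl u = b - 2 ∨ cl u = b - 3 := by omega
      rcases h3 with h3 | h3
      · exact Or.inl ⟨hu.1, h3⟩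
      · exact Or.inr ⟨hu.1, h3⟩
    have h2 := (card_le_card h1).trans (card_union_le _ _)
    have h3 : 100 * (E.filter fun v => cl v = b - 2).card ≤ 21 * M := by
      by_cases h4 : b - 2 < 7
      · exact hj' _ h4
      · have h5 : (E.filter fun v => cl v = b - 2) = ∅ := by
          rw [filter_eq_empty_iff]
          intro u hu h6
          have h7 := hcl u hu
          omega
        rw [h5, card_empty]
        omega
    have h4 : 100 * (E.filter fun v => cl v = b - 3).card ≤ 21 * M := hj' _ (by omega)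
    have h5 : R ⊆ ({0, 1, cl v + 2, cl v + 3} : Finset ℕ) := by
      intro b' hb'
      have h6 := hv.2 b' hb'
      unfold fb at h6
      rw [mem_insert, mem_insert, mem_insert, mem_singleton]
      omega
    obtain ⟨w, hw⟩ : ∃ w : ℕ → ℕ, ∀ b, w b = if b < 2 then 2 * M else 17 * M :=
      ⟨_, fun _ => rfl⟩
    have h6 : ∀ b' ∈ R, 100 * N b' ≤ w b' := by
      intro b' hb'
      rw [hw]
      split_ifs with h7
      · have h8 : b' = 0 ∨ b' = 1 := by omega
        rcases h8 with h8 | h8
        · rw [h8]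
          exact hN0
        · rw [h8]
          exact hN1
      · exact hNb' b' (mem_range.1 (hR hb'))
    have h7 : 100 * ∑ b ∈ R, N b ≤ ∑ b ∈ R, w b := by
      rw [mul_sum]
      exact sum_le_sum h6
    have h8 : ∑ b ∈ R, w b ≤ ∑ b ∈ ({0, 1, cl v + 2, cl v + 3} : Finset ℕ), w b :=
      sum_le_sum_of_subset h5
    have h9 : ∑ b ∈ ({0, 1, cl v + 2, cl v + 3} : Finset ℕ), w b = 38 * M := by
      rw [sum_insert (by simp), sum_insert (by
          rw [mem_insert, mem_singleton]
          omega), sum_insert (by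
          rw [mem_singleton]
          omega), sum_singleton, hw, hw, hw, hw, if_pos (by omega), if_pos (by omega),
        if_neg (by omega), if_neg (by omega)]
      ring
    omega
  · have hb' : ∀ b ∈ R, b < 2 := by
      intro b hbR
      by_contra h
      exact hb ⟨b, hbR, by omega⟩
    by_cases h0 : 0 ∈ R
    · by_cases h1 : 1 ∈ R
      · have h2 : (E.filter fun v => ∀ b ∈ R, fb (cl v) (qt v) b) ⊆
            (E.filter fun v => cl v = 0) := by
          intro u hu
          rw [mem_filter] at hu ⊢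
          have h3 := hu.2 0 h0
          have h4 := hu.2 1 h1
          unfold fb at h3 h4
          refine ⟨hu.1, ?_⟩
          omega
        have h3 := card_le_card h2
        have h4 := hj' 0 (by omega)
        have h5 : ∑ b ∈ R, N b ≤ ∑ b ∈ ({0, 1} : Finset ℕ), N b := by
          refine sum_le_sum_of_subset fun b hbR => ?_
          have h6 := hb' b hbR
          rw [mem_insert, mem_singleton]
          omega
        rw [sum_insert (by simp), sum_singleton] at h5
        omega
      · have h2 : (E.filter fun v => ∀ b ∈ R, fb (cl v) (qt v) b) ⊆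
            E.filter fun v => ¬ (2 ≤ qt v ∧ cl v ≠ 0) := by
          intro u hu
          rw [mem_filter] at hu ⊢
          have h3 := hu.2 0 h0
          unfold fb at h3
          refine ⟨hu.1, ?_⟩
          omega
        have h3 := card_le_card h2
        have h4 := card_filter_add_card_filter_not (s := E) (fun v => 2 ≤ qt v ∧ cl v ≠ 0)
        have h5 : ∑ b ∈ R, N b ≤ ∑ b ∈ ({0} : Finset ℕ), N b := by
          refine sum_le_sum_of_subset fun b hbR => ?_
          have h6 := hb' b hbR
          have h7 : b ≠ 1 := fun h => h1 (h ▸ hbR)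
          rw [mem_singleton]
          omega
        rw [sum_singleton] at h5
        omega
    · have h1 : 1 ∈ R := by
        obtain ⟨b, hbR⟩ := hne
        have h2 := hb' b hbR
        have h3 : b ≠ 0 := fun h => h0 (h ▸ hbR)
        have h4 : b = 1 := by omega
        rw [← h4]
        exact hbR
      have h2 : (E.filter fun v => ∀ b ∈ R, fb (cl v) (qt v) b) ⊆
          E.filter fun v => ¬ (qt v < 2 ∧ cl v ≠ 0) := by
        intro u hu
        rw [mem_filter] at hu ⊢
        have h3 := hu.2 1 h1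
        unfold fb at h3
        refine ⟨hu.1, ?_⟩
        omega
      have h3 := card_le_card h2
      have h4 := card_filter_add_card_filter_not (s := E) (fun v => qt v < 2 ∧ cl v ≠ 0)
      have h5 : ∑ b ∈ R, N b ≤ ∑ b ∈ ({1} : Finset ℕ), N b := by
        refine sum_le_sum_of_subset fun b hbR => ?_
        have h6 := hb' b hbR
        have h7 : b ≠ 0 := fun h => h0 (h ▸ hbR)
        rw [mem_singleton]
        omega
      rw [sum_singleton] at h5
      omega

end Pool.Agent.H2.F2
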