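import Mathlib

/-!
NB: numbers `N P b` with given row sums `e P` and column sums `d b`, nearly proportional; some rows (`bad P`) are given.

Proof.  Let `E := ∑_{P < m} e P = ∑_{b < n} d b`, `B := ∑_{P < m, bad P} e P`. If `E = 0` then `hbig` with any `b < n` gives `n m + B ≤ 0` (`d b * e P0 / E = 0` in `ℝ`), a contradiction as `n, m > 0`; so `E > 0`. For `P < m`, not bad, `P ≠ P0`: `N P b := ⌊d b * e P / E⌋₊` (that is `d b * e P / E` in `ℕ`) for `b + 1 < n` and
`N P (n - 1) := e P - ∑_{b + 1 < n} N P b` (`≥ 0`, as `∑_{b < n} d b e P / E = e P`); then `|N P b - d b e P / E| ≤ 1` for `b + 1 < n` and `0 ≤ N P (n - 1) - d (n - 1) e P / E ≤ n - 1`. Bad rows as given. `N P0 b := d b - ∑_{P < m, P ≠ P0} N P b` (integers); `|N P0 b - d b e P0 / E| =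
|∑_{P ≠ P0} (N P b - d b e P / E)| ≤ n (m - 1) + B` (for a bad `P` the difference is at most `e P` in absolute value, since both numbers are in `[0, e P]`), so `N P0 b ≥ 0` by `hbig`. Row sum of `P0`: `∑_b N P0 b = ∑_b d b - ∑_{P ≠ P0} e P = e P0`.
-/

set_option autoImplicit false

namespace Pool.Agent.H2.F2

open Finset Classical

theorem nb (m n : ℕ) (hn : 0 < n) (e d : ℕ → ℕ) (P0 : ℕ) (hP0 : P0 < m) (bad : ℕ → Prop)
    (hb0 : ¬ bad P0) (Nb : ℕ → ℕ → ℕ)
    (hbad : ∀ P < m, bad P → ∑ b ∈ range n, Nb P b = e P)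
    (hsum : ∑ b ∈ range n, d b = ∑ P ∈ range m, e P)
    (hbig : ∀ b < n, (n * m : ℝ) + ∑ P ∈ (range m).filter (fun P => bad P), (e P : ℝ) ≤
      (d b : ℝ) * e P0 / ((∑ P ∈ range m, e P : ℕ) : ℝ)) :
    ∃ N : ℕ → ℕ → ℕ, (∀ P < m, bad P → ∀ b < n, N P b = Nb P b) ∧
      (∀ P < m, ∑ b ∈ range n, N P b = e P) ∧ (∀ b < n, ∑ P ∈ range m, N P b = d b) ∧
      (∀ P < m, ¬ bad P → P ≠ P0 → ∀ b < n,
        |(N P b : ℝ) - (d b : ℝ) * e P / ((∑ P ∈ range m, e P : ℕ) : ℝ)| ≤ n) ∧
      ∀ b < n, |(N P0 b : ℝ) - (d b : ℝ) * e P0 / ((∑ P ∈ range m, e P : ℕ) : ℝ)| ≤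
        n * m + ∑ P ∈ (range m).filter (fun P => bad P), (e P : ℝ) := by
  obtain ⟨E, hE⟩ : ∃ E : ℕ, E = ∑ P ∈ range m, e P := ⟨_, rfl⟩
  rw [← hE] at hbig hsum ⊢
  obtain ⟨B, hB⟩ : ∃ B : ℝ, B = ∑ P ∈ (range m).filter (fun P => bad P), (e P : ℝ) := ⟨_, rfl⟩
  rw [← hB] at hbig ⊢
  have hB0 : 0 ≤ B := by
    rw [hB]
    exact Finset.sum_nonneg fun P _ => Nat.cast_nonneg _
  have hnR : (0 : ℝ) < n := by exact_mod_cast hn
  have hmR : (0 : ℝ) < m := by exact_mod_cast (lt_of_le_of_lt (Nat.zero_le _) hP0)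
  have hEpos : 0 < E := by
    by_contra h
    have h0 : E = 0 := by omega
    have h1 := hbig 0 hn
    rw [h0, Nat.cast_zero, div_zero] at h1
    have h2 := mul_pos hnR hmR
    linarith
  have hER : (0 : ℝ) < E := by exact_mod_cast hEpos
  -- the proportional numbers
  obtain ⟨t, ht⟩ : ∃ t : ℕ → ℕ → ℝ, ∀ P b, t P b = (d b : ℝ) * e P / E := ⟨fun P b => (d b : ℝ) * e P / E, fun _ _ => rfl⟩
  have ht0 : ∀ P b, 0 ≤ t P b := by
    intro P b
    rw [ht]
    positivity
  have htrow : ∀ P, ∑ b ∈ range n, t P b = e P := by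
    intro P
    have h1 : ∑ b ∈ range n, t P b = (∑ b ∈ range n, (d b : ℝ)) * e P / E := by
      rw [Finset.sum_mul, Finset.sum_div]
      exact Finset.sum_congr rfl fun b _ => ht P b
    have h2 : (∑ b ∈ range n, (d b : ℝ)) = E := by
      rw [← hsum]
      push_cast
      rfl
    rw [h1, h2]
    field_simp
  have htcol : ∀ b, ∑ P ∈ range m, t P b = d b := by
    intro b
    have h1 : ∑ P ∈ range m, t P b = (d b : ℝ) * (∑ P ∈ range m, (e P : ℝ)) / E := by
      rw [Finset.mul_sum, Finset.sum_div]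
      exact Finset.sum_congr rfl fun P _ => ht P b
    have h2 : (∑ P ∈ range m, (e P : ℝ)) = E := by
      rw [hE]
      push_cast
      rfl
    rw [h1, h2]
    field_simp
  have hq1 : ∀ P b, ((d b * e P / E : ℕ) : ℝ) ≤ t P b := by
    intro P b
    rw [ht]
    have h := Nat.cast_div_le (α := ℝ) (m := d b * e P) (n := E)
    rw [Nat.cast_mul] at h
    exact h
  have hq2 : ∀ P b, t P b ≤ ((d b * e P / E : ℕ) : ℝ) + 1 := by
    intro P b
    rw [ht, div_le_iff₀ hER]
    have h := Nat.div_add_mod (d b * e P) E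
    have h2 := Nat.mod_lt (d b * e P) hEpos
    have h3 : d b * e P ≤ (d b * e P / E + 1) * E := by
      have h4 : E * (d b * e P / E) = d b * e P / E * E := Nat.mul_comm _ _
      rw [Nat.add_mul, Nat.one_mul]
      omega
    have h5 : ((d b * e P : ℕ) : ℝ) ≤ (((d b * e P / E + 1) * E : ℕ) : ℝ) := by exact_mod_cast h3
    push_cast at h5
    push_cast
    exact h5
  -- the rows different from `P0`
  obtain ⟨N1, hN1⟩ : ∃ N1 : ℕ → ℕ → ℕ, ∀ P b, N1 P b = if bad P then Nb P b else if b + 1 < n then d b * e P / E else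
      e P - ∑ b' ∈ range (n - 1), d b' * e P / E :=
    ⟨fun P b => if bad P then Nb P b else if b + 1 < n then d b * e P / E else
      e P - ∑ b' ∈ range (n - 1), d b' * e P / E, fun _ _ => rfl⟩
  have hrange : range n = insert (n - 1) (range (n - 1)) := by
    rw [← Finset.range_add_one]
    congr 1
    omega
  have hnot : n - 1 ∉ range (n - 1) := by simp
  have hle : ∀ P, ∑ b' ∈ range (n - 1), d b' * e P / E ≤ e P := by
    intro P
    have h1 : ((∑ b' ∈ range (n - 1), d b' * e P / E : ℕ) : ℝ) ≤ e P := by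
      rw [← htrow P, hrange, Finset.sum_insert hnot, Nat.cast_sum]
      have h2 := Finset.sum_le_sum fun b (_ : b ∈ range (n - 1)) => hq1 P b
      have h3 := ht0 P (n - 1)
      linarith
    exact_mod_cast h1
  have hrow : ∀ P < m, ∑ b ∈ range n, N1 P b = e P := by
    intro P hP
    by_cases hb : bad P
    · rw [← hbad P hP hb]
      refine Finset.sum_congr rfl fun b _ => ?_
      rw [hN1, if_pos hb]
    · rw [hrange, Finset.sum_insert hnot, hN1, if_neg hb, if_neg (by omega)]
      have h1 : ∑ b ∈ range (n - 1), N1 P b = ∑ b' ∈ range (n - 1), d b' * e P / E := by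
        refine Finset.sum_congr rfl fun b hb' => ?_
        rw [Finset.mem_range] at hb'
        rw [hN1, if_neg hb, if_pos (by omega)]
      rw [h1]
      exact Nat.sub_add_cancel (hle P)
  have hgood : ∀ P < m, ¬ bad P → ∀ b < n, |(N1 P b : ℝ) - t P b| ≤ n := by
    intro P hP hb b hbn
    have hn1 : (1 : ℝ) ≤ n := by exact_mod_cast hn
    rw [hN1, if_neg hb]
    by_cases h : b + 1 < n
    · rw [if_pos h, abs_le]
      have h1 := hq1 P b
      have h2 := hq2 P b
      constructor <;> linarith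
    · rw [if_neg h, Nat.cast_sub (hle P), Nat.cast_sum]
      have hb1 : b = n - 1 := by omega
      have h1 := htrow P
      rw [hrange, Finset.sum_insert hnot] at h1
      have h2 := Finset.sum_le_sum fun b (_ : b ∈ range (n - 1)) => hq1 P b
      have h3 := Finset.sum_le_sum fun b (_ : b ∈ range (n - 1)) => hq2 P b
      rw [Finset.sum_add_distrib, Finset.sum_const, Finset.card_range, nsmul_eq_mul, mul_one] at h3
      have h4 : ((n - 1 : ℕ) : ℝ) ≤ n := by exact_mod_cast Nat.sub_le n 1
      rw [hb1, abs_le]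
      constructor <;> linarith
  have hbadb : ∀ P < m, bad P → ∀ b < n, |(N1 P b : ℝ) - t P b| ≤ e P := by
    intro P hP hb b hbn
    have h1 : N1 P b ≤ e P := by
      rw [← hrow P hP]
      exact Finset.single_le_sum (f := fun b => N1 P b) (fun _ _ => Nat.zero_le _) (Finset.mem_range.mpr hbn)
    have h1' : (N1 P b : ℝ) ≤ e P := by exact_mod_cast h1
    have h2 : t P b ≤ e P := by
      rw [← htrow P]
      exact Finset.single_le_sum (f := fun b => t P b) (fun b _ => ht0 P b) (Finset.mem_range.mpr hbn)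
    have h3 := ht0 P b
    have h4 : (0 : ℝ) ≤ N1 P b := Nat.cast_nonneg _
    rw [abs_le]
    constructor <;> linarith
  have hmem0 : P0 ∈ range m := Finset.mem_range.mpr hP0
  have hdiff : ∀ b < n, |∑ P ∈ (range m).erase P0, ((N1 P b : ℝ) - t P b)| ≤ n * m + B := by
    intro b hbn
    refine (Finset.abs_sum_le_sum_abs _ _).trans ?_
    have h1 : ∀ P ∈ (range m).erase P0, |(N1 P b : ℝ) - t P b| ≤ n + (if bad P then (e P : ℝ) else 0) := by
      intro P hP
      have hPm : P < m := Finset.mem_range.mp (Finset.mem_of_mem_erase hP)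
      by_cases hb : bad P
      · rw [if_pos hb]
        exact (hbadb P hPm hb b hbn).trans (by linarith)
      · rw [if_neg hb, add_zero]
        exact hgood P hPm hb b hbn
    refine (Finset.sum_le_sum h1).trans ?_
    rw [Finset.sum_add_distrib, Finset.sum_const, nsmul_eq_mul]
    have h2 : ((((range m).erase P0).card : ℕ) : ℝ) ≤ m := by
      have h3 : ((range m).erase P0).card ≤ m := by
        have := Finset.card_erase_le (s := range m) (a := P0)
        rwa [Finset.card_range] at this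
      exact_mod_cast h3
    have h4 : ∑ P ∈ (range m).erase P0, (if bad P then (e P : ℝ) else 0) ≤ B := by
      rw [hB, Finset.sum_filter]
      refine Finset.sum_le_sum_of_subset_of_nonneg (Finset.erase_subset _ _) fun P _ _ => ?_
      by_cases hb : bad P
      · rw [if_pos hb]
        exact Nat.cast_nonneg _
      · rw [if_neg hb]
    have h5 := mul_le_mul_of_nonneg_right h2 hnR.le
    linarith
  have htsplit : ∀ b, ∑ P ∈ (range m).erase P0, t P b = d b - t P0 b := by
    intro b
    rw [← htcol b, ← Finset.add_sum_erase (range m) (fun P => t P b) hmem0]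
    ring
  have hle0 : ∀ b < n, ∑ P ∈ (range m).erase P0, N1 P b ≤ d b := by
    intro b hbn
    have h1 := (abs_le.mp (hdiff b hbn)).2
    rw [Finset.sum_sub_distrib, htsplit] at h1
    have h2 := hbig b hbn
    rw [← ht] at h2
    have h3 : ((∑ P ∈ (range m).erase P0, N1 P b : ℕ) : ℝ) ≤ d b := by
      rw [Nat.cast_sum]
      linarith
    exact_mod_cast h3
  refine ⟨fun P b => if P = P0 then d b - ∑ P' ∈ (range m).erase P0, N1 P' b else N1 P b, ?_, ?_, ?_, ?_, ?_⟩
  · intro P hP hb b hbn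
    have hne : P ≠ P0 := fun h => hb0 (h ▸ hb)
    simp only [if_neg hne]
    rw [hN1, if_pos hb]
  · intro P hP
    by_cases h : P = P0
    · simp only [if_pos h]
      have h1 : ∑ b ∈ range n, (d b - ∑ P' ∈ (range m).erase P0, N1 P' b) + ∑ b ∈ range n, ∑ P' ∈ (range m).erase P0, N1 P' b =
          ∑ b ∈ range n, d b := by
        rw [← Finset.sum_add_distrib]
        refine Finset.sum_congr rfl fun b hb => ?_
        exact Nat.sub_add_cancel (hle0 b (Finset.mem_range.mp hb))
      have h2 : ∑ b ∈ range n, ∑ P' ∈ (range m).erase P0, N1 P' b = ∑ P' ∈ (range m).erase P0, e P' := by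
        rw [Finset.sum_comm]
        exact Finset.sum_congr rfl fun P' hP' => hrow P' (Finset.mem_range.mp (Finset.mem_of_mem_erase hP'))
      have h3 : e P0 + ∑ P' ∈ (range m).erase P0, e P' = ∑ P' ∈ range m, e P' := Finset.add_sum_erase (range m) (fun P' => e P') hmem0
      rw [h2, hsum, hE, ← h3] at h1
      rw [h]
      exact Nat.add_right_cancel h1
    · simp only [if_neg h]
      exact hrow P hP
  · intro b hbn
    rw [← Finset.add_sum_erase (range m) _ hmem0]
    simp only [if_true]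
    have h1 : ∑ P ∈ (range m).erase P0, (if P = P0 then d b - ∑ P' ∈ (range m).erase P0, N1 P' b else N1 P b) =
        ∑ P ∈ (range m).erase P0, N1 P b := by
      refine Finset.sum_congr rfl fun P hP => ?_
      rw [if_neg (Finset.ne_of_mem_erase hP)]
    rw [h1]
    exact Nat.sub_add_cancel (hle0 b hbn)
  · intro P hP hb hne b hbn
    simp only [if_neg hne]
    rw [← ht]
    exact hgood P hP hb b hbn
  · intro b hbn
    simp only [if_true]
    rw [← ht, Nat.cast_sub (hle0 b hbn), Nat.cast_sum]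
    have h1 := hdiff b hbn
    rw [Finset.sum_sub_distrib, htsplit] at h1
    rw [← abs_neg]
    have e1 : -((d b : ℝ) - ∑ P ∈ (range m).erase P0, (N1 P b : ℝ) - t P0 b) =
        ∑ P ∈ (range m).erase P0, (N1 P b : ℝ) - ((d b : ℝ) - t P0 b) := by ring
    rw [e1]
    exact h1

end Pool.Agent.H2.F2
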