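import Mathlib
import Pool.Agent.H2.F2.Hw
import Pool.Agent.H2.F2.Nb

/-!
WW: the edges from one exceptional vertex (`E =` the set of its neighbours outside the exceptional piece) get their groups, with exact numbers `d b` and nearly proportionally in the pieces. Use the STATEMENTS of `hw` (`F2/Hw.lean`), `nb` (`F2/Nb.lean`).

Proof.  `a P := #{v ∈ E : nd v = P}`, `∑_{P < m} a P = #E =: M`; `x P :=` the summand of `hX` (`∑_{P < m} x P ≤ X`). `bad P :↔ a P < 10000 + 100 x P`; so `B := ∑_{P < m, bad P} a P ≤ 10000 m + 100 X`. Let `P0 < m` with `a P0` maximal: `m * a P0 ≥ M`. From `hbig` for `b = 0` and `hd0`: `200 m (60000 m + 500 X) ≤ 3 M`,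
so `a P0 ≥ M / m ≥ 66 (60000 m + 500 X)`; in particular `P0` is not bad and `200 (10 m + B) ≤ a P0`. `nb m 10 a d P0 bad Nb` where `Nb P b := #{v ∈ E : nd v = P ∧ β0 v = b}`, `β0 v := if cl v ≤ 3 then 8 else 3` (a group which is allowed: `fb c q 8` only for `c = 6, 5`; `fb c q 3` only for `c = 1, 0`);
`hbig` of `nb`: `d b * a P0 / M ≥ d b / m ≥ 60000 m + 500 X ≥ 10 m + B`. It gives `N`.
For a good `P` (also `P0`) use `hw` for `E_P := {v ∈ E : nd v = P}` and `N P`: `5 #{cl v = j} ≤ a P + x P ≤ 101 a P / 100`, so `100 #{..} ≤ 21 a P`; `a P ≤ 11 #{qt v < 2 ∧ cl v ≠ 0} + x P` gives `a P ≤ 12 #{..}`; `N P b ≤ d b a P / M + err` with `err ≤ 10` (`P ≠ P0`) or `err ≤ 10 m + B`, in both cases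
`err ≤ a P / 200`; `d 0 a P / M ≤ 3 a P / 200`, so `100 N P 0 ≤ 2 a P`; `d b a P / M ≤ 31 a P / 200`, so `100 N P b ≤ 16 a P`. It gives `β_P`. `β v := β_(nd v) v` for good `nd v`, `β0 v` for bad `nd v`. `#{v ∈ E : β v = b} = ∑_{P < m} N P b = d b`.
The error: good `P ≠ P0`: `10`; `P0`: `10 m + B`; bad `P`: both numbers are in `[0, a P]`, so at most `B`.
-/

set_option autoImplicit false

namespace Pool.Agent.H2.F2

open Finset Classical

private theorem ww_good {V : Type} (E : Finset V) (nd cl qt : V → ℕ) (P : ℕ) (N : ℕ → ℕ) (a x : ℕ)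
    (ha : (E.filter fun v => nd v = P).card = a)
    (hx : ∑ j ∈ range 7, (5 * (E.filter fun v => nd v = P ∧ cl v = j).card - a) +
        (a - 11 * (E.filter fun v => nd v = P ∧ qt v < 2 ∧ cl v ≠ 0).card) +
        (a - 11 * (E.filter fun v => nd v = P ∧ 2 ≤ qt v ∧ cl v ≠ 0).card) = x)
    (hax : 100 * x ≤ a) (hcl : ∀ v ∈ E, cl v < 7)
    (hs : ∑ b ∈ range 10, N b = a)
    (h0 : 100 * N 0 ≤ 2 * a) (h1 : 100 * N 1 ≤ 2 * a) (hb : ∀ b < 10, 100 * N b ≤ 17 * a) :
    ∃ β : V → ℕ, (∀ v ∈ E, nd v = P → β v < 10 ∧ ¬ fb (cl v) (qt v) (β v)) ∧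
      ∀ b < 10, (E.filter fun v => nd v = P ∧ β v = b).card = N b := by
  have e1 : ∀ j, ((E.filter fun v => nd v = P).filter fun v => cl v = j).card =
      (E.filter fun v => nd v = P ∧ cl v = j).card := by
    intro j
    congr 1
    ext v
    simp only [Finset.mem_filter, and_assoc]
  have e2 : ((E.filter fun v => nd v = P).filter fun v => qt v < 2 ∧ cl v ≠ 0).card =
      (E.filter fun v => nd v = P ∧ qt v < 2 ∧ cl v ≠ 0).card := by
    congr 1
    ext v
    simp only [Finset.mem_filter, and_assoc]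
  have e3 : ((E.filter fun v => nd v = P).filter fun v => 2 ≤ qt v ∧ cl v ≠ 0).card =
      (E.filter fun v => nd v = P ∧ 2 ≤ qt v ∧ cl v ≠ 0).card := by
    congr 1
    ext v
    simp only [Finset.mem_filter, and_assoc]
  have hj : ∀ j < 7, 5 * (E.filter fun v => nd v = P ∧ cl v = j).card - a ≤ x := by
    intro j hj
    have h := Finset.single_le_sum
      (f := fun j => 5 * (E.filter fun v => nd v = P ∧ cl v = j).card - a)
      (fun i _ => Nat.zero_le _) (Finset.mem_range.2 hj)
    have h' : 5 * (E.filter fun v => nd v = P ∧ cl v = j).card - a ≤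
        ∑ j ∈ range 7, (5 * (E.filter fun v => nd v = P ∧ cl v = j).card - a) := h
    omega
  have hx2 : a - 11 * (E.filter fun v => nd v = P ∧ qt v < 2 ∧ cl v ≠ 0).card ≤ x := by omega
  have hx3 : a - 11 * (E.filter fun v => nd v = P ∧ 2 ≤ qt v ∧ cl v ≠ 0).card ≤ x := by omega
  obtain ⟨β, h2, h3⟩ := hw (E.filter fun v => nd v = P) cl qt N (by rw [hs, ha])
    (by
      intro j hj'
      have := hj j hj'
      rw [e1, ha]
      omega)
    (by
      intro v hv
      exact hcl v (Finset.mem_filter.1 hv).1)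
    (by rw [e2, ha]; omega)
    (by rw [e3, ha]; omega)
    (by rw [ha]; exact h0) (by rw [ha]; exact h1) (by rw [ha]; exact hb)
  refine ⟨β, ?_, ?_⟩
  · intro v hv hP
    exact h2 v (Finset.mem_filter.2 ⟨hv, hP⟩)
  · intro b hb'
    rw [← h3 b hb']
    congr 1
    ext v
    simp only [Finset.mem_filter, and_assoc]

private theorem ww_fib {V : Type} (E : Finset V) (nd : V → ℕ) (m : ℕ) (hnd : ∀ v ∈ E, nd v < m) :
    ∑ P ∈ range m, (E.filter fun v => nd v = P).card = E.card := by
  rw [Finset.card_eq_sum_card_fiberwise (f := nd) (s := E) (t := range m)]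
  intro v hv
  exact Finset.mem_coe.2 (Finset.mem_range.2 (hnd v hv))

private theorem ww_rat (d a M : ℝ) (c e N : ℝ) (hM : 0 < M) (ha : 0 ≤ a)
    (hd : 200 * d ≤ c * M) (he : 200 * e ≤ a) (hN : |N - d * a / M| ≤ e) :
    200 * N ≤ (c + 1) * a := by
  have h1 : N ≤ d * a / M + e := by
    have := (abs_le.1 hN).2
    linarith
  have h2 : d * a / M ≤ c * a / 200 := by
    rw [div_le_div_iff₀ hM (by norm_num)]
    nlinarith
  linarith

theorem ww {V : Type} (E : Finset V) (nd cl qt : V → ℕ) (m X : ℕ) (d : ℕ → ℕ) (hm : 0 < m)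
    (hnd : ∀ v ∈ E, nd v < m) (hcl : ∀ v ∈ E, cl v < 7)
    (hX : ∑ P ∈ range m,
      (∑ j ∈ range 7, (5 * (E.filter fun v => nd v = P ∧ cl v = j).card -
          (E.filter fun v => nd v = P).card) +
        ((E.filter fun v => nd v = P).card -
          11 * (E.filter fun v => nd v = P ∧ qt v < 2 ∧ cl v ≠ 0).card) +
        ((E.filter fun v => nd v = P).card -
          11 * (E.filter fun v => nd v = P ∧ 2 ≤ qt v ∧ cl v ≠ 0).card)) ≤ X)
    (hsum : ∑ b ∈ range 10, d b = E.card)
    (hd0 : 200 * d 0 ≤ 3 * E.card) (hd1 : 200 * d 1 ≤ 3 * E.card)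
    (hd2 : ∀ b < 10, 200 * d b ≤ 31 * E.card)
    (hbig : ∀ b < 10, m * (60000 * m + 500 * X) ≤ d b) :
    ∃ β : V → ℕ, (∀ v ∈ E, β v < 10 ∧ ¬ fb (cl v) (qt v) (β v)) ∧
      (∀ b < 10, (E.filter fun v => β v = b).card = d b) ∧
      ∀ P < m, ∀ b < 10, |((E.filter fun v => nd v = P ∧ β v = b).card : ℝ) -
        (d b : ℝ) * ((E.filter fun v => nd v = P).card : ℝ) / (E.card : ℝ)| ≤
          11000 * m + 100 * X := by
  obtain ⟨a, ha⟩ : ∃ a : ℕ → ℕ, ∀ P, (E.filter fun v => nd v = P).card = a P :=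
    ⟨_, fun _ => rfl⟩
  obtain ⟨x, hx⟩ : ∃ x : ℕ → ℕ, ∀ P, ∑ j ∈ range 7,
        (5 * (E.filter fun v => nd v = P ∧ cl v = j).card - a P) +
        (a P - 11 * (E.filter fun v => nd v = P ∧ qt v < 2 ∧ cl v ≠ 0).card) +
        (a P - 11 * (E.filter fun v => nd v = P ∧ 2 ≤ qt v ∧ cl v ≠ 0).card) = x P :=
    ⟨_, fun _ => rfl⟩
  simp only [ha, hx] at hX
  obtain ⟨M, hMd⟩ : ∃ M : ℕ, E.card = M := ⟨_, rfl⟩
  have hfib : ∑ P ∈ range m, a P = M := by
    rw [← hMd, ← ww_fib E nd m hnd]
    exact Finset.sum_congr rfl fun P _ => (ha P).symm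
  rw [hMd] at hsum hd0 hd1
  simp only [hMd] at hd2
  rw [hMd]
  simp only [ha]
  -- the bad pieces
  obtain ⟨bad, hbd⟩ : ∃ bad : ℕ → Prop, ∀ P, bad P ↔ a P < 10000 + 100 * x P :=
    ⟨fun P => a P < 10000 + 100 * x P, fun _ => Iff.rfl⟩
  have hxX : ∀ P < m, x P ≤ X := by
    intro P hP
    exact (Finset.single_le_sum (fun i _ => Nat.zero_le _) (Finset.mem_range.2 hP)).trans hX
  have hB : ∑ P ∈ (range m).filter (fun P => bad P), a P ≤ 10000 * m + 100 * X := by
    have h1 : ∑ P ∈ (range m).filter (fun P => bad P), a P ≤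
        ∑ P ∈ (range m).filter (fun P => bad P), (10000 + 100 * x P) := by
      refine Finset.sum_le_sum fun P hP => ?_
      exact ((hbd P).1 (Finset.mem_filter.1 hP).2).le
    have h2 : ∑ P ∈ (range m).filter (fun P => bad P), (10000 + 100 * x P) ≤
        ∑ P ∈ range m, (10000 + 100 * x P) :=
      Finset.sum_le_sum_of_subset (Finset.filter_subset _ _)
    have h3 : ∑ P ∈ range m, (10000 + 100 * x P) = 10000 * m + 100 * ∑ P ∈ range m, x P := by
      rw [Finset.sum_add_distrib, Finset.sum_const, Finset.card_range, smul_eq_mul,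
        ← Finset.mul_sum]
      ring
    omega
  obtain ⟨P0, hP0m, hP0⟩ := Finset.exists_max_image (range m) a
    ⟨0, Finset.mem_range.2 hm⟩
  have hP0l : P0 < m := Finset.mem_range.1 hP0m
  have hmax : M ≤ m * a P0 := by
    rw [← hfib]
    have h := Finset.sum_le_card_nsmul (range m) a (a P0) hP0
    rwa [Finset.card_range, smul_eq_mul] at h
  have hb0 := hbig 0 (by norm_num)
  have hM0 : 0 < M := by
    have h1 : 0 < m * (60000 * m + 500 * X) := by positivity
    omega
  have hP0a : 200 * (60000 * m + 500 * X) ≤ 3 * a P0 := by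
    have h1 : m * (200 * (60000 * m + 500 * X)) ≤ m * (3 * a P0) := by
      calc m * (200 * (60000 * m + 500 * X)) = 200 * (m * (60000 * m + 500 * X)) := by ring
        _ ≤ 200 * d 0 := Nat.mul_le_mul_left _ hb0
        _ ≤ 3 * M := hd0
        _ ≤ 3 * (m * a P0) := Nat.mul_le_mul_left _ hmax
        _ = m * (3 * a P0) := by ring
    exact Nat.le_of_mul_le_mul_left h1 hm
  have hP0b : ¬ bad P0 := by
    rw [hbd]
    have := hxX P0 hP0l
    omega
  -- the groups of the elements in the bad pieces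
  obtain ⟨β0, hβ0⟩ : ∃ β0 : V → ℕ, ∀ v, β0 v = if cl v ≤ 3 then 8 else 3 := ⟨_, fun _ => rfl⟩
  have hβ0' : ∀ v, β0 v < 10 ∧ ¬ fb (cl v) (qt v) (β0 v) := by
    intro v
    rw [hβ0]
    split_ifs with h
    · refine ⟨by norm_num, ?_⟩
      unfold fb
      omega
    · refine ⟨by norm_num, ?_⟩
      unfold fb
      omega
  have hbadsum : ∀ P < m, bad P →
      ∑ b ∈ range 10, (E.filter fun v => nd v = P ∧ β0 v = b).card = a P := by
    intro P _ _
    rw [← ha P, ← ww_fib (E.filter fun v => nd v = P) β0 10 (fun v _ => (hβ0' v).1)]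
    refine Finset.sum_congr rfl fun b _ => ?_
    congr 1
    ext v
    simp only [Finset.mem_filter, and_assoc]
  have hMr : (0 : ℝ) < M := by exact_mod_cast hM0
  have hBr : ∑ P ∈ (range m).filter (fun P => bad P), (a P : ℝ) ≤ 10000 * m + 100 * X := by
    have h := hB
    have h' : ((∑ P ∈ (range m).filter (fun P => bad P), a P : ℕ) : ℝ) ≤
        ((10000 * m + 100 * X : ℕ) : ℝ) := by exact_mod_cast h
    push_cast at h'
    exact h'
  have hm1 : (1 : ℝ) ≤ m := by exact_mod_cast hm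
  have hX0 : (0 : ℝ) ≤ X := by positivity
  have hmaxr : (M : ℝ) ≤ m * a P0 := by exact_mod_cast hmax
  have hP0ar : 200 * (60000 * (m : ℝ) + 500 * X) ≤ 3 * a P0 := by exact_mod_cast hP0a
  obtain ⟨N, hN1, hN2, hN3, hN4, hN5⟩ := nb m 10 (by norm_num) a d P0 hP0l bad hP0b
    (fun P b => (E.filter fun v => nd v = P ∧ β0 v = b).card) hbadsum (by rw [hsum, hfib])
    (by
      intro b hb
      rw [hfib, le_div_iff₀ hMr]
      have h1 : (m : ℝ) * (60000 * m + 500 * X) ≤ d b := by exact_mod_cast hbig b hb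
      have h2 : ((10 : ℕ) : ℝ) * (m : ℝ) +
          ∑ P ∈ (range m).filter (fun P => bad P), (a P : ℝ) ≤ 60000 * m + 500 * X := by
        push_cast
        linarith
      have h3 : (0 : ℝ) ≤ 60000 * m + 500 * X := by positivity
      have h4 : (0 : ℝ) ≤ a P0 := by positivity
      calc (((10 : ℕ) : ℝ) * (m : ℝ) + ∑ P ∈ (range m).filter (fun P => bad P), (a P : ℝ)) * M
          ≤ (60000 * m + 500 * X) * M := mul_le_mul_of_nonneg_right h2 hMr.le
        _ ≤ (60000 * m + 500 * X) * (m * a P0) := mul_le_mul_of_nonneg_left hmaxr h3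
        _ = (m * (60000 * m + 500 * X)) * a P0 := by ring
        _ ≤ d b * a P0 := mul_le_mul_of_nonneg_right h1 h4)
  rw [hfib] at hN4 hN5
  have herr : ∀ P < m, ¬ bad P → ∃ e : ℝ, 200 * e ≤ a P ∧ ∀ b < 10,
      |(N P b : ℝ) - (d b : ℝ) * a P / (M : ℝ)| ≤ e := by
    intro P hP hPb
    by_cases h : P = P0
    · subst h
      refine ⟨_, ?_, hN5⟩
      push_cast
      linarith
    · refine ⟨_, ?_, hN4 P hP hPb h⟩
      have h1 : 10000 ≤ a P := by
        rw [hbd] at hPb
        omega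
      have h2 : (10000 : ℝ) ≤ a P := by exact_mod_cast h1
      push_cast
      linarith
  have H : ∀ P, ∃ β : V → ℕ, P < m →
      (∀ v ∈ E, nd v = P → β v < 10 ∧ ¬ fb (cl v) (qt v) (β v)) ∧
      ∀ b < 10, (E.filter fun v => nd v = P ∧ β v = b).card = N P b := by
    intro P
    by_cases hP : P < m
    · by_cases hPb : bad P
      · exact ⟨β0, fun _ => ⟨fun v _ _ => hβ0' v, fun b hb => (hN1 P hP hPb b hb).symm⟩⟩
      · obtain ⟨e, he1, he2⟩ := herr P hP hPb
        have hPb' : 10000 + 100 * x P ≤ a P := by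
          rw [hbd] at hPb
          omega
        have haP : (0 : ℝ) ≤ a P := by positivity
        have hd0r : 200 * (d 0 : ℝ) ≤ 3 * M := by exact_mod_cast hd0
        have hd1r : 200 * (d 1 : ℝ) ≤ 3 * M := by exact_mod_cast hd1
        have h0 := ww_rat (d 0) (a P) M 3 e (N P 0) hMr haP hd0r he1 (he2 0 (by norm_num))
        have h1 := ww_rat (d 1) (a P) M 3 e (N P 1) hMr haP hd1r he1 (he2 1 (by norm_num))
        have hbb : ∀ b < 10, 100 * N P b ≤ 17 * a P := by
          intro b hb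
          have hd2r : 200 * (d b : ℝ) ≤ 31 * M := by exact_mod_cast hd2 b hb
          have h2 := ww_rat (d b) (a P) M 31 e (N P b) hMr haP hd2r he1 (he2 b hb)
          have h3 : (100 : ℝ) * N P b ≤ 17 * a P := by linarith
          exact_mod_cast h3
        have h0' : 100 * N P 0 ≤ 2 * a P := by
          have h3 : (100 : ℝ) * N P 0 ≤ 2 * a P := by linarith
          exact_mod_cast h3
        have h1' : 100 * N P 1 ≤ 2 * a P := by
          have h3 : (100 : ℝ) * N P 1 ≤ 2 * a P := by linarith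
          exact_mod_cast h3
        obtain ⟨β, hβ⟩ := ww_good E nd cl qt P (N P) (a P) (x P) (ha P) (hx P) (by omega) hcl
          (hN2 P hP) h0' h1' hbb
        exact ⟨β, fun _ => hβ⟩
    · exact ⟨β0, fun h => absurd h hP⟩
  choose βf hβf using H
  have hcard : ∀ P < m, ∀ b < 10,
      (E.filter fun v => nd v = P ∧ βf (nd v) v = b).card = N P b := by
    intro P hP b hb
    rw [← (hβf P hP).2 b hb]
    congr 1
    ext v
    simp only [Finset.mem_filter]
    constructor
    · rintro ⟨h1, h2, h3⟩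
      rw [h2] at h3
      exact ⟨h1, h2, h3⟩
    · rintro ⟨h1, h2, h3⟩
      refine ⟨h1, h2, ?_⟩
      rw [h2]
      exact h3
  refine ⟨fun v => βf (nd v) v, ?_, ?_, ?_⟩
  · intro v hv
    exact (hβf (nd v) (hnd v hv)).1 v hv rfl
  · intro b hb
    rw [← hN3 b hb, ← ww_fib (E.filter fun v => βf (nd v) v = b) nd m
      (fun v hv => hnd v (Finset.mem_filter.1 hv).1)]
    refine Finset.sum_congr rfl fun P hP => ?_
    rw [← hcard P (Finset.mem_range.1 hP) b hb]
    congr 1
    ext v
    simp only [Finset.mem_filter]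
    tauto
  · intro P hP b hb
    have hc := hcard P hP b hb
    show |((E.filter fun v => nd v = P ∧ βf (nd v) v = b).card : ℝ) - (d b : ℝ) * (a P : ℝ) / (M : ℝ)| ≤ _
    rw [hc]
    by_cases hPb : bad P
    · have h1 : N P b ≤ a P := by
        rw [← hN2 P hP]
        exact Finset.single_le_sum (f := fun b => N P b) (fun i _ => Nat.zero_le _)
          (Finset.mem_range.2 hb)
      have h2 : d b ≤ M := by
        rw [← hsum]
        exact Finset.single_le_sum (f := fun b => d b) (fun i _ => Nat.zero_le _)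
          (Finset.mem_range.2 hb)
      have h3 : a P ≤ 10000 * m + 100 * X := by
        have h4 := (hbd P).1 hPb
        have h5 := hxX P hP
        have h6 : 1 ≤ m := hm
        omega
      have h1r : (N P b : ℝ) ≤ a P := by exact_mod_cast h1
      have h2r : (d b : ℝ) ≤ M := by exact_mod_cast h2
      have h3r : (a P : ℝ) ≤ 10000 * m + 100 * X := by exact_mod_cast h3
      have h4 : (d b : ℝ) * a P / M ≤ a P := by
        rw [div_le_iff₀ hMr, mul_comm]
        exact mul_le_mul_of_nonneg_left h2r (by positivity)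
      have h5 : (0 : ℝ) ≤ (d b : ℝ) * a P / M := by positivity
      have h6 : (0 : ℝ) ≤ N P b := by positivity
      rw [abs_le]
      constructor
      · linarith
      · linarith
    · by_cases h : P = P0
      · subst h
        refine (hN5 b hb).trans ?_
        push_cast
        linarith
      · refine (hN4 P hP hPb h b hb).trans ?_
        push_cast
        linarith

end Pool.Agent.H2.F2
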