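import Mathlib
import Pool.Agent.H71.TD.Ifc
import Pool.Agent.H2.F2.Ww
import Pool.Agent.H2.F2.Ll
import Pool.Agent.H2.F2.Inn

/-!
BLKS: the graph `F` is split into ten graphs `Fb b` with exact degrees `s b` at the exceptional vertices, nearly proportionally in the pieces. Use the STATEMENTS of `ww`, `ll`, `inn` (`F2/Ww.lean`, `F2/Ll.lean`, `F2/Inn.lean`).

Proof.  `Lo := pt nd m`, `θ b := s b / D`, for `w ∈ Lo`: `l w := dgi F Lo w ≤ #Lo`, `E w := {v : F.Adj w v, nd v < m}`, `#(E w) = D - l w ≥ 99 D / 100 > 0` (`D > 0` follows from `hbig`, `m > 0`, `100 s 0 ≤ D`), `q w P := dgi F (pt nd P) w / (D - l w)` (`0` for `w ∉ Lo`): `∑_{P < m} q w P = 1`. `ll` gives `γ1` (for `n = 10`), `inn` gives `γ2`.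
For `w ∈ Lo` let `lo w b := #{u ∈ Lo : F.Adj w u ∧ γ1 w u = b} ≤ l w ≤ #Lo`, `d w b := s b - lo w b` (natural, by `hbig`), `X w :=` the summand of `h1` for `w`, so `X w ≤ B0`. `∑_{b < 10} d w b = D - l w = #(E w)`. `ww (E w) .. (d w)` with `X := X w`: `200 d w 0 ≤ 200 s 0 ≤ 2 D ≤ 3 #(E w)`, `200 d w b ≤ 30 D ≤ 31 #(E w)`,
`m (60000 m + 500 X w) ≤ d w b` by `hbig`: `β w : V → ℕ`.
`col a c :=` if `a, c ∈ Lo` then `γ1 a c`, if `nd a, nd c < m` then `γ2 a c`, if `a ∈ Lo`, `nd c < m` then `β a c`, if `c ∈ Lo`, `nd a < m` then `β c a` (symmetric). `(Fb b).Adj a c :↔ F.Adj a c ∧ col a c = b` (for `b < 10`). It is a partition; forbidden groups: from `ww` and `inn`. Degree of `w ∈ Lo`: `lo w b + #{v ∈ E w : β w v = b} = s b`.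
Pieces: `∑_{v ∈ pt nd P} dg (Fb b) v = ∑_{w ∈ Lo} #{v ∈ E w : nd v = P ∧ β w v = b} + ∑_{v ∈ pt nd P} #{u : F.Adj v u ∧ nd u < m ∧ γ2 v u = b}` (double counting). The first sum differs from `∑_w d w b q w P` by at most `∑_w (11000 m + 100 X w) ≤ 11000 m #Lo + 100 B0`; `∑_w d w b q w P = s b ∑_w q w P - ∑_w lo w b q w P`,
by `ll` the last sum is `θ b ∑_w l w q w P ± 4 #Lo`, and `s b ∑_w q w P - θ b ∑_w l w q w P = θ b ∑_w (D - l w) q w P = θ b ∑_w dgi F (pt nd P) w`. The second sum is `θ b ∑_{v ∈ pt nd P} dgi F {nd < m} v ± m (20000 + 200 B0)`. Together (`dg F v = #{w ∈ Lo : F.Adj v w} + dgi F {nd < m} v`, double counting).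
-/

set_option autoImplicit false

namespace Pool.Agent.H2.F2

open Finset Classical
open Pool.Agent.H71.DN Pool.Agent.H71.HL Pool.Agent.H71.DC

private theorem blks_dc {V : Type} (A B : Finset V) (R : V → V → Prop)
    [∀ v w, Decidable (R v w)] :
    ∑ v ∈ A, (B.filter fun w => R v w).card = ∑ w ∈ B, (A.filter fun v => R v w).card := by
  simp only [card_filter]
  exact sum_comm

/-- Splitting of a neighbourhood. -/
private theorem blks_split {V : Type} [Fintype V] (nd : V → ℕ) (m : ℕ) (hnd : ∀ v, nd v ≤ m)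
    (R : V → Prop) [DecidablePred R] : (univ.filter fun v => R v).card =
      (univ.filter fun v => nd v < m ∧ R v).card + ((pt nd m).filter fun v => R v).card := by
  rw [← card_union_of_disjoint]
  · apply congrArg
    ext v
    unfold pt
    rw [mem_union, mem_filter, mem_filter, mem_filter, mem_filter]
    have h1 := hnd v
    constructor
    · rintro ⟨_, h⟩
      rcases Nat.lt_or_ge (nd v) m with h2 | h2
      · exact Or.inl ⟨mem_univ v, h2, h⟩
      · exact Or.inr ⟨⟨mem_univ v, by omega⟩, h⟩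
    · rintro (⟨_, _, h⟩ | ⟨_, h⟩)
      · exact ⟨mem_univ v, h⟩
      · exact ⟨mem_univ v, h⟩
  · rw [disjoint_left]
    intro v h1 h2
    unfold pt at h2
    rw [mem_filter] at h1
    rw [mem_filter, mem_filter] at h2
    omega

private theorem blks_w {V : Type} [Fintype V] (F : SimpleGraph V) (nd cl qt : V → ℕ)
    (m D B0 : ℕ) (s : ℕ → ℕ) (hm : 0 < m) (hnd : ∀ v, nd v ≤ m) (hcl : ∀ v, cl v < 7)
    (hs : ∑ b ∈ range 10, s b = D)
    (hs0 : 100 * s 0 ≤ D) (hs1 : 100 * s 1 ≤ D) (hs2 : ∀ b < 10, 100 * s b ≤ 15 * D)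
    (hlo : 100 * (pt nd m).card ≤ D)
    (hbig : ∀ b < 10, m * (60000 * m + 500 * B0) + (pt nd m).card ≤ s b)
    (w : V) (hdeg : dg F w = D) (lo : ℕ → ℕ) (hlo1 : ∀ b < 10, lo b ≤ dgi F (pt nd m) w)
    (hlo2 : ∑ b ∈ range 10, lo b = dgi F (pt nd m) w) (x : ℕ)
    (hx : ∑ P ∈ range m,
      (∑ j ∈ range 7, (5 * dgi F ((pt nd P).filter fun v => cl v = j) w - dgi F (pt nd P) w) +
        (dgi F (pt nd P) w -
          11 * dgi F ((pt nd P).filter fun v => qt v < 2 ∧ cl v ≠ 0) w) +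
        (dgi F (pt nd P) w -
          11 * dgi F ((pt nd P).filter fun v => 2 ≤ qt v ∧ cl v ≠ 0) w)) ≤ x) (hxB : x ≤ B0) :
    (∑ P ∈ range m, (dgi F (pt nd P) w : ℝ)) = (D : ℝ) - dgi F (pt nd m) w ∧
    (0 : ℝ) < (D : ℝ) - dgi F (pt nd m) w ∧
    ∃ β : V → ℕ, (∀ v, F.Adj w v → nd v < m → β v < 10 ∧ ¬ fb (cl v) (qt v) (β v)) ∧
      (∀ b < 10, (univ.filter fun v => nd v < m ∧ F.Adj w v ∧ β v = b).card + lo b = s b) ∧
      ∀ P < m, ∀ b < 10, |(((pt nd P).filter fun v => F.Adj w v ∧ β v = b).card : ℝ) -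
        ((s b : ℝ) - lo b) * (dgi F (pt nd P) w : ℝ) / ((D : ℝ) - dgi F (pt nd m) w)| ≤
          11000 * m + 100 * x := by
  obtain ⟨E, hE⟩ : ∃ E : Finset V, E = univ.filter fun v => nd v < m ∧ F.Adj w v := ⟨_, rfl⟩
  have hEm : ∀ v, v ∈ E ↔ nd v < m ∧ F.Adj w v := by
    intro v
    rw [hE, mem_filter]
    exact ⟨fun h => h.2, fun h => ⟨mem_univ v, h⟩⟩
  have hED : E.card + dgi F (pt nd m) w = D := by
    rw [← hdeg, hE]
    unfold dg dgi
    exact (blks_split nd m hnd fun v => F.Adj w v).symm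
  have hl : dgi F (pt nd m) w ≤ (pt nd m).card := by
    unfold dgi
    exact card_filter_le _ _
  have hEP : ∀ P < m, (E.filter fun v => nd v = P).card = dgi F (pt nd P) w := by
    intro P hP
    unfold dgi pt
    apply congrArg
    ext v
    rw [mem_filter, mem_filter, mem_filter, hEm]
    constructor
    · rintro ⟨⟨_, h2⟩, h3⟩
      exact ⟨⟨mem_univ v, h3⟩, h2⟩
    · rintro ⟨⟨_, h2⟩, h3⟩
      exact ⟨⟨by omega, h3⟩, h2⟩
  have hEPc : ∀ P < m, ∀ j, (E.filter fun v => nd v = P ∧ cl v = j).card =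
      dgi F ((pt nd P).filter fun v => cl v = j) w := by
    intro P hP j
    unfold dgi pt
    apply congrArg
    ext v
    rw [mem_filter, mem_filter, mem_filter, mem_filter, hEm]
    constructor
    · rintro ⟨⟨_, h2⟩, h3, h4⟩
      exact ⟨⟨⟨mem_univ v, h3⟩, h4⟩, h2⟩
    · rintro ⟨⟨⟨_, h2⟩, h3⟩, h4⟩
      exact ⟨⟨by omega, h4⟩, h2, h3⟩
  have hEPx : ∀ P < m, (E.filter fun v => nd v = P ∧ qt v < 2 ∧ cl v ≠ 0).card =
      dgi F ((pt nd P).filter fun v => qt v < 2 ∧ cl v ≠ 0) w := by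
    intro P hP
    unfold dgi pt
    apply congrArg
    ext v
    rw [mem_filter, mem_filter, mem_filter, mem_filter, hEm]
    constructor
    · rintro ⟨⟨_, h2⟩, h3, h4⟩
      exact ⟨⟨⟨mem_univ v, h3⟩, h4⟩, h2⟩
    · rintro ⟨⟨⟨_, h2⟩, h3⟩, h4⟩
      exact ⟨⟨by omega, h4⟩, h2, h3⟩
  have hEPy : ∀ P < m, (E.filter fun v => nd v = P ∧ 2 ≤ qt v ∧ cl v ≠ 0).card =
      dgi F ((pt nd P).filter fun v => 2 ≤ qt v ∧ cl v ≠ 0) w := by
    intro P hP
    unfold dgi pt
    apply congrArg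
    ext v
    rw [mem_filter, mem_filter, mem_filter, mem_filter, hEm]
    constructor
    · rintro ⟨⟨_, h2⟩, h3, h4⟩
      exact ⟨⟨⟨mem_univ v, h3⟩, h4⟩, h2⟩
    · rintro ⟨⟨⟨_, h2⟩, h3⟩, h4⟩
      exact ⟨⟨by omega, h4⟩, h2, h3⟩
  have hsumP : ∑ P ∈ range m, dgi F (pt nd P) w = E.card := by
    rw [card_eq_sum_card_fiberwise (f := nd) (s := E) (t := range m) fun v hv => by
      rw [mem_coe, mem_range]
      exact ((hEm v).1 hv).1]
    exact sum_congr rfl fun P hP => (hEP P (mem_range.1 hP)).symm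
  have hDR : (D : ℝ) - dgi F (pt nd m) w = E.card := by
    rw [← hED]
    push_cast
    ring
  have hD0 : 0 < D := by
    have h1 := hbig 0 (by norm_num)
    have h2 : 0 < m * (60000 * m + 500 * B0) := by positivity
    omega
  have hE0 : 0 < E.card := by omega
  have hsd : ∑ b ∈ range 10, (s b - lo b) = E.card := by
    have h1 : ∑ b ∈ range 10, (s b - lo b) + ∑ b ∈ range 10, lo b = ∑ b ∈ range 10, s b := by
      rw [← sum_add_distrib]
      refine sum_congr rfl fun b hb => ?_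
      have h2 := hbig b (mem_range.1 hb)
      have h3 := hlo1 b (mem_range.1 hb)
      omega
    omega
  obtain ⟨β, hβ1, hβ2, hβ3⟩ := ww E nd cl qt m x (fun b => s b - lo b) hm
    (fun v hv => ((hEm v).1 hv).1) (fun v _ => hcl v)
    (by
      refine le_trans (le_of_eq ?_) hx
      refine sum_congr rfl fun P hP => ?_
      have hP' := mem_range.1 hP
      rw [hEP P hP', hEPx P hP', hEPy P hP']
      simp only [hEPc P hP'])
    hsd
    (by
      have h1 : s 0 - lo 0 ≤ s 0 := Nat.sub_le _ _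
      omega)
    (by
      have h1 : s 1 - lo 1 ≤ s 1 := Nat.sub_le _ _
      omega)
    (by
      intro b hb
      have h1 : s b - lo b ≤ s b := Nat.sub_le _ _
      have h2 := hs2 b hb
      omega)
    (by
      intro b hb
      have h1 := hbig b hb
      have h2 := hlo1 b hb
      have h3 : m * (60000 * m + 500 * x) ≤ m * (60000 * m + 500 * B0) :=
        Nat.mul_le_mul_left m (by omega)
      omega)
  refine ⟨?_, ?_, β, ?_, ?_, ?_⟩
  · rw [hDR, ← hsumP]
    push_cast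
    rfl
  · rw [hDR]
    exact_mod_cast hE0
  · intro v hv1 hv2
    exact hβ1 v ((hEm v).2 ⟨hv2, hv1⟩)
  · intro b hb
    have h1 : (univ.filter fun v => nd v < m ∧ F.Adj w v ∧ β v = b) = E.filter fun v => β v = b := by
      ext v
      rw [mem_filter, mem_filter, hEm]
      constructor
      · rintro ⟨_, h1, h2, h3⟩
        exact ⟨⟨h1, h2⟩, h3⟩
      · rintro ⟨⟨h1, h2⟩, h3⟩
        exact ⟨mem_univ v, h1, h2, h3⟩
    rw [h1, hβ2 b hb]
    have h2 := hbig b hb
    have h3 := hlo1 b hb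
    omega
  · intro P hP b hb
    have h1 := hβ3 P hP b hb
    have h2 : (E.filter fun v => nd v = P ∧ β v = b) =
        (pt nd P).filter fun v => F.Adj w v ∧ β v = b := by
      unfold pt
      ext v
      rw [mem_filter, mem_filter, mem_filter, hEm]
      constructor
      · rintro ⟨⟨_, h2⟩, h3, h4⟩
        exact ⟨⟨mem_univ v, h3⟩, h2, h4⟩
      · rintro ⟨⟨_, h2⟩, h3, h4⟩
        exact ⟨⟨by omega, h3⟩, h2, h4⟩
    have h3 : ((s b - lo b : ℕ) : ℝ) = (s b : ℝ) - lo b := by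
      have h4 := hbig b hb
      have h5 := hlo1 b hb
      rw [Nat.cast_sub (by omega)]
    rw [h2, hEP P hP, ← hDR, h3] at h1
    exact h1

theorem blks {V : Type} [Fintype V] (F : SimpleGraph V) (nd cl qt : V → ℕ) (m D B0 : ℕ)
    (s : ℕ → ℕ) (hm : 0 < m) (hnd : ∀ v, nd v ≤ m) (hcl : ∀ v, cl v < 7)
    (hs : ∑ b ∈ range 10, s b = D) (hdeg : ∀ w ∈ pt nd m, dg F w = D)
    (hs0 : 100 * s 0 ≤ D) (hs1 : 100 * s 1 ≤ D) (hs2 : ∀ b < 10, 100 * s b ≤ 15 * D)
    (hlo : 100 * (pt nd m).card ≤ D)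
    (hbig : ∀ b < 10, m * (60000 * m + 500 * B0) + (pt nd m).card ≤ s b)
    (h1 : ∑ w ∈ pt nd m, ∑ P ∈ range m,
      (∑ j ∈ range 7, (5 * dgi F ((pt nd P).filter fun v => cl v = j) w - dgi F (pt nd P) w) +
        (dgi F (pt nd P) w -
          11 * dgi F ((pt nd P).filter fun v => qt v < 2 ∧ cl v ≠ 0) w) +
        (dgi F (pt nd P) w -
          11 * dgi F ((pt nd P).filter fun v => 2 ≤ qt v ∧ cl v ≠ 0) w)) ≤ B0)
    (h3 : ∀ P < m, ∀ P' < m, ∀ j < 7, ∀ j' < 7,
      35 * ee F ((pt nd P).filter fun v => cl v = j) ((pt nd P').filter fun v => cl v = j') ≤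
        ee F (pt nd P) (pt nd P') + B0)
    (h4 : ∀ P < m, ∀ P' < m,
      ee F (pt nd P) (pt nd P') ≤ 24 * ee F ((pt nd P).filter fun v => qt v < 2 ∧ cl v ≠ 0)
        ((pt nd P').filter fun v => qt v < 2 ∧ cl v ≠ 0) + B0 ∧
      ee F (pt nd P) (pt nd P') ≤ 24 * ee F ((pt nd P).filter fun v => 2 ≤ qt v ∧ cl v ≠ 0)
        ((pt nd P').filter fun v => 2 ≤ qt v ∧ cl v ≠ 0) + B0) :
    ∃ Fb : ℕ → SimpleGraph V, (∀ b < 10, Fb b ≤ F) ∧
      (∀ a c, F.Adj a c → ∃ b < 10, (Fb b).Adj a c) ∧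
      (∀ b < 10, ∀ b' < 10, b ≠ b' → ∀ a c, (Fb b).Adj a c → ¬ (Fb b').Adj a c) ∧
      (∀ b < 10, ∀ a c, (Fb b).Adj a c → nd a < m → ¬ fb (cl a) (qt a) b) ∧
      (∀ w ∈ pt nd m, ∀ b < 10, dg (Fb b) w = s b) ∧
      ∀ P < m, ∀ b < 10, |∑ v ∈ pt nd P, (dg (Fb b) v : ℝ) -
        (s b : ℝ) / D * ∑ v ∈ pt nd P, (dg F v : ℝ)| ≤
          11004 * m * (pt nd m).card + 100 * B0 + m * (20000 + 200 * B0) := by
  have hLo : ∀ w, w ∈ pt nd m ↔ nd w = m := by
    intro w
    unfold pt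
    rw [mem_filter]
    exact ⟨fun h => h.2, fun h => ⟨mem_univ w, h⟩⟩
  have hD0 : 0 < D := by
    have h1 := hbig 0 (by norm_num)
    have h2 : 0 < m * (60000 * m + 500 * B0) := by positivity
    omega
  have hDr : (0 : ℝ) < D := by exact_mod_cast hD0
  obtain ⟨θ, hθ⟩ : ∃ θ : ℕ → ℝ, ∀ b, θ b = (s b : ℝ) / D := ⟨_, fun _ => rfl⟩
  have hθ0 : ∀ b < 10, 0 ≤ θ b := fun b _ => by
    rw [hθ]
    positivity
  have hθ1 : ∑ b ∈ range 10, θ b = 1 := by
    simp only [hθ]
    rw [← sum_div, ← Nat.cast_sum, hs, div_self hDr.ne']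
  have hθa : θ 0 ≤ 3 / 200 := by
    rw [hθ, div_le_iff₀ hDr]
    have h1 : (100 : ℝ) * s 0 ≤ D := by exact_mod_cast hs0
    linarith
  have hθa' : θ 1 ≤ 3 / 200 := by
    rw [hθ, div_le_iff₀ hDr]
    have h1 : (100 : ℝ) * s 1 ≤ D := by exact_mod_cast hs1
    linarith
  have hθb : ∀ b < 10, θ b ≤ 31 / 200 := by
    intro b hb
    rw [hθ, div_le_iff₀ hDr]
    have h1 : (100 : ℝ) * s b ≤ 15 * D := by exact_mod_cast hs2 b hb
    linarith
  -- the weights
  obtain ⟨q, hq⟩ : ∃ q : V → ℕ → ℝ, ∀ w P, q w P = if w ∈ pt nd m then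
      (dgi F (pt nd P) w : ℝ) / ((D : ℝ) - dgi F (pt nd m) w) else 0 := ⟨_, fun _ _ => rfl⟩
  obtain ⟨X, hX⟩ : ∃ X : V → ℕ, ∀ w, X w = ∑ P ∈ range m,
      (∑ j ∈ range 7, (5 * dgi F ((pt nd P).filter fun v => cl v = j) w - dgi F (pt nd P) w) +
        (dgi F (pt nd P) w -
          11 * dgi F ((pt nd P).filter fun v => qt v < 2 ∧ cl v ≠ 0) w) +
        (dgi F (pt nd P) w -
          11 * dgi F ((pt nd P).filter fun v => 2 ≤ qt v ∧ cl v ≠ 0) w)) := ⟨_, fun _ => rfl⟩
  have hXsum : ∑ w ∈ pt nd m, X w ≤ B0 := by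
    simp only [hX]
    exact h1
  have hXB : ∀ w ∈ pt nd m, X w ≤ B0 := fun w hw =>
    (single_le_sum (f := X) (fun _ _ => Nat.zero_le _) hw).trans hXsum
  have hlDpos : ∀ w ∈ pt nd m, (0 : ℝ) ≤ (D : ℝ) - dgi F (pt nd m) w := by
    intro w _
    have h2 : dgi F (pt nd m) w ≤ (pt nd m).card := by
      unfold dgi
      exact card_filter_le _ _
    have h3 : dgi F (pt nd m) w ≤ D := by omega
    have h4 : (dgi F (pt nd m) w : ℝ) ≤ D := by exact_mod_cast h3
    linarith
  have hq0 : ∀ w P, 0 ≤ q w P := by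
    intro w P
    rw [hq]
    split_ifs with h
    · exact div_nonneg (Nat.cast_nonneg _) (hlDpos w h)
    · exact le_refl 0
  -- facts that do not depend on the groups of the inner edges
  have hbase : ∀ w ∈ pt nd m, (∑ P ∈ range m, (dgi F (pt nd P) w : ℝ)) =
      (D : ℝ) - dgi F (pt nd m) w ∧ (0 : ℝ) < (D : ℝ) - dgi F (pt nd m) w := by
    intro w hw
    obtain ⟨h2, h3, -⟩ := blks_w F nd cl qt m D B0 s hm hnd hcl hs hs0 hs1 hs2 hlo hbig w
      (hdeg w hw) (fun b => if b = 0 then dgi F (pt nd m) w else 0)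
      (fun b _ => by
        show (if b = 0 then dgi F (pt nd m) w else 0) ≤ _
        split_ifs
        · exact le_refl _
        · exact Nat.zero_le _)
      (by
        rw [sum_ite_eq' (range 10) 0 (fun _ => dgi F (pt nd m) w), if_pos (by norm_num)])
      (X w) (by rw [hX]) (hXB w hw)
    exact ⟨h2, h3⟩
  have hq1 : ∀ w ∈ pt nd m, ∑ P ∈ range m, q w P ≤ 1 := by
    intro w hw
    obtain ⟨h2, h3⟩ := hbase w hw
    simp only [hq, if_pos hw]
    rw [← sum_div, h2, div_self h3.ne']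
  obtain ⟨γ1, g1s, g1l, g1e⟩ := ll F (pt nd m) m 10 q hq0 hq1 θ hθ0 hθ1
  obtain ⟨γ2, g2s, g2l, g2e⟩ := inn F nd cl qt m B0 θ hcl hθ0 hθ1 hθa hθa' hθb h3 h4
  have hlo2 : ∀ w, ∑ b ∈ range 10, ((pt nd m).filter fun u => F.Adj w u ∧ γ1 w u = b).card =
      dgi F (pt nd m) w := by
    intro w
    unfold dgi
    rw [card_eq_sum_card_fiberwise (f := γ1 w) (s := (pt nd m).filter fun u => F.Adj w u)
      (t := range 10) fun u _ => by
        rw [mem_coe, mem_range]
        exact g1l w u]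
    refine sum_congr rfl fun b _ => ?_
    rw [filter_filter]
  have hlo1 : ∀ w, ∀ b < 10, ((pt nd m).filter fun u => F.Adj w u ∧ γ1 w u = b).card ≤
      dgi F (pt nd m) w := by
    intro w b _
    unfold dgi
    refine card_le_card fun u hu => ?_
    rw [mem_filter] at hu ⊢
    exact ⟨hu.1, hu.2.1⟩
  have hex : ∀ w, ∃ β : V → ℕ, w ∈ pt nd m →
      (∀ v, F.Adj w v → nd v < m → β v < 10 ∧ ¬ fb (cl v) (qt v) (β v)) ∧
      (∀ b < 10, (univ.filter fun v => nd v < m ∧ F.Adj w v ∧ β v = b).card +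
        ((pt nd m).filter fun u => F.Adj w u ∧ γ1 w u = b).card = s b) ∧
      ∀ P < m, ∀ b < 10, |(((pt nd P).filter fun v => F.Adj w v ∧ β v = b).card : ℝ) -
        ((s b : ℝ) - ((pt nd m).filter fun u => F.Adj w u ∧ γ1 w u = b).card) *
          (dgi F (pt nd P) w : ℝ) / ((D : ℝ) - dgi F (pt nd m) w)| ≤
          11000 * m + 100 * X w := by
    intro w
    by_cases hw : w ∈ pt nd m
    · obtain ⟨-, -, β, h2⟩ := blks_w F nd cl qt m D B0 s hm hnd hcl hs hs0 hs1 hs2 hlo hbig w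
        (hdeg w hw) (fun b => ((pt nd m).filter fun u => F.Adj w u ∧ γ1 w u = b).card)
        (hlo1 w) (hlo2 w) (X w) (by rw [hX]) (hXB w hw)
      exact ⟨β, fun _ => h2⟩
    · exact ⟨fun _ => 0, fun h => absurd h hw⟩
  choose β hβ using hex
  obtain ⟨col, hcol⟩ : ∃ col : V → V → ℕ, ∀ a c, col a c =
      if nd a < m then (if nd c < m then γ2 a c else β c a) else
        (if nd c < m then β a c else γ1 a c) := ⟨_, fun _ _ => rfl⟩
  have hsym : ∀ a c, col a c = col c a := by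
    intro a c
    rw [hcol, hcol]
    by_cases ha : nd a < m
    · by_cases hc : nd c < m
      · rw [if_pos ha, if_pos hc, if_pos hc, if_pos ha, g2s]
      · rw [if_pos ha, if_neg hc, if_neg hc, if_pos ha]
    · by_cases hc : nd c < m
      · rw [if_neg ha, if_pos hc, if_pos hc, if_neg ha]
      · rw [if_neg ha, if_neg hc, if_neg hc, if_neg ha, g1s]
  have hmem : ∀ a, ¬ nd a < m → a ∈ pt nd m := by
    intro a ha
    have h2 := hnd a
    exact (hLo a).2 (by omega)
  obtain ⟨Fb, hFb⟩ : ∃ Fb : ℕ → SimpleGraph V, ∀ b a c, (Fb b).Adj a c ↔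
      F.Adj a c ∧ col a c = b :=
    ⟨fun b => { Adj := fun a c => F.Adj a c ∧ col a c = b
                symm := ⟨fun a c h => ⟨h.1.symm, by rw [hsym c a]; exact h.2⟩⟩
                loopless := ⟨fun a h => F.irrefl h.1⟩ }, fun _ _ _ => Iff.rfl⟩
  refine ⟨Fb, ?_, ?_, ?_, ?_, ?_, ?_⟩
  · intro b _ a c h
    exact ((hFb b a c).1 h).1
  · intro a c h
    refine ⟨col a c, ?_, (hFb _ a c).2 ⟨h, rfl⟩⟩
    rw [hcol]
    by_cases ha : nd a < m
    · by_cases hc : nd c < m
      · rw [if_pos ha, if_pos hc]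
        exact (g2l a c h ha hc).1
      · rw [if_pos ha, if_neg hc]
        exact ((hβ c (hmem c hc)).1 a h.symm ha).1
    · by_cases hc : nd c < m
      · rw [if_neg ha, if_pos hc]
        exact ((hβ a (hmem a ha)).1 c h hc).1
      · rw [if_neg ha, if_neg hc]
        exact g1l a c
  · intro b _ b' _ hbb a c h h'
    rw [hFb] at h h'
    exact hbb (h.2.symm.trans h'.2)
  · intro b _ a c h ha
    rw [hFb] at h
    rw [hcol, if_pos ha] at h
    by_cases hc : nd c < m
    · rw [if_pos hc] at h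
      rw [← h.2]
      exact (g2l a c h.1 ha hc).2
    · rw [if_neg hc] at h
      rw [← h.2]
      exact ((hβ c (hmem c hc)).1 a h.1.symm ha).2
  · intro w hw b hb
    rw [← (hβ w hw).2.1 b hb]
    have hwm : ¬ nd w < m := by
      have h2 := (hLo w).1 hw
      omega
    unfold dg
    rw [blks_split nd m hnd fun u => (Fb b).Adj w u]
    congr 1
    · apply congrArg
      ext v
      rw [mem_filter, mem_filter, hFb, hcol, if_neg hwm]
      constructor
      · rintro ⟨h2, h3, h4, h5⟩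
        rw [if_pos h3] at h5
        exact ⟨h2, h3, h4, h5⟩
      · rintro ⟨h2, h3, h4, h5⟩
        refine ⟨h2, h3, h4, ?_⟩
        rw [if_pos h3]
        exact h5
    · apply congrArg
      ext v
      rw [mem_filter, mem_filter, hFb, hcol, if_neg hwm]
      constructor
      · rintro ⟨h2, h4, h5⟩
        have h3 : ¬ nd v < m := by
          have h6 := (hLo v).1 h2
          omega
        rw [if_neg h3] at h5
        exact ⟨h2, h4, h5⟩
      · rintro ⟨h2, h4, h5⟩
        have h3 : ¬ nd v < m := by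
          have h6 := (hLo v).1 h2
          omega
        refine ⟨h2, h4, ?_⟩
        rw [if_neg h3]
        exact h5
  · intro P hP b hb
    have hPn : ∀ v ∈ pt nd P, nd v < m := by
      intro v hv
      unfold pt at hv
      rw [mem_filter] at hv
      omega
    -- the degrees in `Fb b`
    have hd1 : ∀ v ∈ pt nd P, dg (Fb b) v =
        (univ.filter fun u => F.Adj v u ∧ nd u < m ∧ γ2 v u = b).card +
          ((pt nd m).filter fun w => F.Adj w v ∧ β w v = b).card := by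
      intro v hv
      have hvm := hPn v hv
      unfold dg
      rw [blks_split nd m hnd fun u => (Fb b).Adj v u]
      congr 1
      · apply congrArg
        ext u
        rw [mem_filter, mem_filter, hFb, hcol, if_pos hvm]
        constructor
        · rintro ⟨h2, h5, h6, h7⟩
          rw [if_pos h5] at h7
          exact ⟨h2, h6, h5, h7⟩
        · rintro ⟨h2, h6, h5, h7⟩
          refine ⟨h2, h5, h6, ?_⟩
          rw [if_pos h5]
          exact h7
      · apply congrArg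
        ext u
        rw [mem_filter, mem_filter, hFb, hcol, if_pos hvm]
        constructor
        · rintro ⟨h2, h6, h7⟩
          have h5 : ¬ nd u < m := by
            have h6 := (hLo u).1 h2
            omega
          rw [if_neg h5] at h7
          exact ⟨h2, h6.symm, h7⟩
        · rintro ⟨h2, h6, h7⟩
          have h5 : ¬ nd u < m := by
            have h6 := (hLo u).1 h2
            omega
          refine ⟨h2, h6.symm, ?_⟩
          rw [if_neg h5]
          exact h7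
    have hd2 : ∀ v ∈ pt nd P, dg F v = dgi F (univ.filter fun u => nd u < m) v +
        ((pt nd m).filter fun w => F.Adj w v).card := by
      intro v _
      unfold dg dgi
      rw [blks_split nd m hnd fun u => F.Adj v u]
      congr 1
      · apply congrArg
        ext u
        rw [mem_filter, mem_filter, mem_filter]
        constructor
        · rintro ⟨h2, h5, h6⟩
          exact ⟨⟨h2, h5⟩, h6⟩
        · rintro ⟨⟨h2, h5⟩, h6⟩
          exact ⟨h2, h5, h6⟩
      · apply congrArg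
        ext u
        rw [mem_filter, mem_filter]
        constructor
        · rintro ⟨h2, h6⟩
          exact ⟨h2, h6.symm⟩
        · rintro ⟨h2, h6⟩
          exact ⟨h2, h6.symm⟩
    have hdc1 : (∑ v ∈ pt nd P, (((pt nd m).filter fun w => F.Adj w v ∧ β w v = b).card : ℝ)) =
        ∑ w ∈ pt nd m, (((pt nd P).filter fun v => F.Adj w v ∧ β w v = b).card : ℝ) := by
      exact_mod_cast blks_dc (pt nd P) (pt nd m) fun v w => F.Adj w v ∧ β w v = b
    have hdc2 : (∑ v ∈ pt nd P, (((pt nd m).filter fun w => F.Adj w v).card : ℝ)) =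
        ∑ w ∈ pt nd m, (dgi F (pt nd P) w : ℝ) := by
      unfold dgi
      exact_mod_cast blks_dc (pt nd P) (pt nd m) fun v w => F.Adj w v
    have hS1 : ∑ v ∈ pt nd P, (dg (Fb b) v : ℝ) =
        ∑ v ∈ pt nd P, ((univ.filter fun u => F.Adj v u ∧ nd u < m ∧ γ2 v u = b).card : ℝ) +
          ∑ w ∈ pt nd m, (((pt nd P).filter fun v => F.Adj w v ∧ β w v = b).card : ℝ) := by
      rw [← hdc1, ← sum_add_distrib]
      refine sum_congr rfl fun v hv => ?_
      rw [hd1 v hv]
      push_cast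
      rfl
    have hS2 : ∑ v ∈ pt nd P, (dg F v : ℝ) =
        ∑ v ∈ pt nd P, (dgi F (univ.filter fun u => nd u < m) v : ℝ) +
          ∑ w ∈ pt nd m, (dgi F (pt nd P) w : ℝ) := by
      rw [← hdc2, ← sum_add_distrib]
      refine sum_congr rfl fun v hv => ?_
      rw [hd2 v hv]
      push_cast
      rfl
    -- the exceptional vertices
    have hA : |∑ w ∈ pt nd m, (((pt nd P).filter fun v => F.Adj w v ∧ β w v = b).card : ℝ) -
        ∑ w ∈ pt nd m, ((s b : ℝ) - ((pt nd m).filter fun u => F.Adj w u ∧ γ1 w u = b).card) *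
          q w P| ≤ 11000 * m * (pt nd m).card + 100 * B0 := by
      rw [← sum_sub_distrib]
      refine (abs_sum_le_sum_abs _ _).trans ?_
      have h2 : ∀ w ∈ pt nd m, |(((pt nd P).filter fun v => F.Adj w v ∧ β w v = b).card : ℝ) -
          ((s b : ℝ) - ((pt nd m).filter fun u => F.Adj w u ∧ γ1 w u = b).card) * q w P| ≤
            11000 * m + 100 * X w := by
        intro w hw
        have h5 := (hβ w hw).2.2 P hP b hb
        rw [hq, if_pos hw, ← mul_div_assoc]
        exact h5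
      refine (sum_le_sum h2).trans ?_
      rw [sum_add_distrib, sum_const, nsmul_eq_mul, ← mul_sum]
      have h5 : (∑ w ∈ pt nd m, (X w : ℝ)) ≤ B0 := by exact_mod_cast hXsum
      linarith
    have hB := g1e b hb P hP
    have hC : ∑ w ∈ pt nd m, ((s b : ℝ) -
        ((pt nd m).filter fun u => F.Adj w u ∧ γ1 w u = b).card) * q w P =
        θ b * ∑ w ∈ pt nd m, (dgi F (pt nd P) w : ℝ) -
          (∑ w ∈ pt nd m, (((pt nd m).filter fun u => F.Adj w u ∧ γ1 w u = b).card : ℝ) * q w P -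
            θ b * ∑ w ∈ pt nd m, (dgi F (pt nd m) w : ℝ) * q w P) := by
      rw [mul_sum, mul_sum, ← sum_sub_distrib, ← sum_sub_distrib]
      refine sum_congr rfl fun w hw => ?_
      obtain ⟨-, h5⟩ := hbase w hw
      have h6 : q w P * ((D : ℝ) - dgi F (pt nd m) w) = dgi F (pt nd P) w := by
        rw [hq, if_pos hw, div_mul_cancel₀ _ h5.ne']
      have h7 : θ b * D = s b := by
        rw [hθ, div_mul_cancel₀ _ hDr.ne']
      rw [← h6, ← h7]
      ring
    have hI := g2e P hP b hb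
    rw [hS1, hS2, ← hθ b]
    have hm1 : (1 : ℝ) ≤ m := by exact_mod_cast hm
    have hc0 : (0 : ℝ) ≤ (pt nd m).card := Nat.cast_nonneg _
    have hmc : (4 : ℝ) * (pt nd m).card ≤ 4 * m * (pt nd m).card := by nlinarith
    rw [hC] at hA
    rw [abs_le] at hA hB hI ⊢
    constructor
    · linarith [hA.1, hB.1, hI.1, hA.2, hB.2, hI.2]
    · linarith [hA.1, hB.1, hI.1, hA.2, hB.2, hI.2]

end Pool.Agent.H2.F2
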