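import Mathlib
import Pool.Agent.H90.TDP.Ifp

/-!
The extension of the dense Havet-Yu theorem to all `p ≤ ε n` (`ε` depends only on `c`): interfaces.

There are `L = Δ + 2 p` labels. The block `j < 8` consists of the labels `ℓ` with `bt L j ≤ ℓ < bt L (j + 1)`. The vertices outside the
exceptional piece have classes `cl v < 7`; a vertex of the class `j` is uncovered by the matchings `φ` at all labels of the blocks `j, j + 1`,
and its colour will be one whose window is contained in these two blocks.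
-/

set_option autoImplicit false

namespace Pool.Agent.H2.F2

open Finset Classical
open Pool.Agent.H71.DN Pool.Agent.H71.DX Pool.Agent.H71.DR Pool.Agent.H71.HL Pool.Agent.H71.DC
open Pool.Agent.H71.TD Pool.Agent.H90.TDP

/-- The first label of the block `j`. -/
def bt (L j : ℕ) : ℕ := j * L / 8

/-- A good partition of the vertices outside the exceptional piece into seven classes; the classes are constant on the
units `un`. -/
structure Spl2 {V : Type} [Fintype V] (G : SimpleGraph V) (k : ℕ) (ty : ℕ → Prop)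
    (nd qt cl un : V → ℕ) (e1 f1 : ℝ) : Prop where
  lt : ∀ v, cl v < 7
  cu : ∀ a b, un a = un b → cl a = cl b
  sz : ∀ P < 2 * k, ∀ j < 7,
    |(((pt nd P).filter fun v => cl v = j).card : ℝ) - ((pt nd P).card : ℝ) / 7| ≤
      e1 * Fintype.card V
  szX : ∀ P < 2 * k, ∀ j < 7,
    |(((pt nd P).filter fun v => qt v < 2 ∧ cl v = j).card : ℝ) -
      (((pt nd P).filter fun v => qt v < 2).card : ℝ) / 7| ≤ e1 * Fintype.card V
  szY : ∀ P < 2 * k, ∀ j < 7,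
    |(((pt nd P).filter fun v => 2 ≤ qt v ∧ cl v = j).card : ℝ) -
      (((pt nd P).filter fun v => 2 ≤ qt v).card : ℝ) / 7| ≤ e1 * Fintype.card V
  szu : ∀ i < k, ty i → ∀ j < 7,
    |((((pt nd (2 * i)).filter fun v => cl v = j).image un).card : ℝ) -
      (((pt nd (2 * i)).image un).card : ℝ) / 7| ≤ e1 * Fintype.card V
  nn : ∀ w ∈ pt nd (2 * k), ∀ P < 2 * k, ∀ j < 7,
    |(((pt nd P).filter fun v => cl v = j ∧ ¬ G.Adj w v).card : ℝ) -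
      (((pt nd P).filter fun v => ¬ G.Adj w v).card : ℝ) / 7| ≤ e1 * Fintype.card V
  g1 : ((∑ w ∈ pt nd (2 * k), ∑ P ∈ range (2 * k), ∑ j ∈ range 7,
    (6 * dgi G ((pt nd P).filter fun v => cl v = j) w - dgi G (pt nd P) w) : ℕ) : ℝ) ≤
    f1 * Fintype.card V
  g2 : ((∑ w ∈ pt nd (2 * k), ∑ P ∈ range (2 * k),
    ((dgi G (pt nd P) w - 10 * dgi G ((pt nd P).filter fun v => qt v < 2 ∧ cl v ≠ 0) w) +
      (dgi G (pt nd P) w - 10 * dgi G ((pt nd P).filter fun v => 2 ≤ qt v ∧ cl v ≠ 0) w)) : ℕ) :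
    ℝ) ≤ f1 * Fintype.card V
  g3 : ∀ P < 2 * k, ∀ P' < 2 * k, ∀ j < 7, ∀ j' < 7,
    36 * (ee (Fg G k ty nd) ((pt nd P).filter fun v => cl v = j)
      ((pt nd P').filter fun v => cl v = j') : ℝ) ≤
      ee (Fg G k ty nd) (pt nd P) (pt nd P') + f1 * Fintype.card V
  g4 : ∀ P < 2 * k, ∀ P' < 2 * k,
    (ee (Fg G k ty nd) (pt nd P) (pt nd P') : ℝ) ≤
      22 * ee (Fg G k ty nd) ((pt nd P).filter fun v => qt v < 2 ∧ cl v ≠ 0)
        ((pt nd P').filter fun v => qt v < 2 ∧ cl v ≠ 0) + f1 * Fintype.card V ∧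
    (ee (Fg G k ty nd) (pt nd P) (pt nd P') : ℝ) ≤
      22 * ee (Fg G k ty nd) ((pt nd P).filter fun v => 2 ≤ qt v ∧ cl v ≠ 0)
        ((pt nd P').filter fun v => 2 ≤ qt v ∧ cl v ≠ 0) + f1 * Fintype.card V

/-- A proper colouring of the defect edges with the labels `0, ..., Δ + 2 p - 1`. `c0 w` is the colour of the exceptional
vertex `w`; these colours lie in a short interval inside the block `7` (the interval `K` consists of the `2 (#Lo + 2 p)` labels from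
`bt L 7 + 2 p` on), and `w` is uncovered at the labels of `(c0 w - p, c0 w + p] ⊆ K`. -/
structure FcU {V : Type} [Fintype V] (G : SimpleGraph V) (Δ p k : ℕ) (ty : ℕ → Prop)
    (nd qt cl : V → ℕ) (t K1 : ℕ) (δ : ℝ) (φ : ℕ → V → V) (c0 : V → ℕ) : Prop where
  inv : ∀ ℓ < Δ + 2 * p, Inv (φ ℓ)
  adj : ∀ ℓ < Δ + 2 * p, ∀ v, φ ℓ v ≠ v → (Fg G k ty nd).Adj v (φ ℓ v)
  dis : ∀ i < Δ + 2 * p, ∀ j < Δ + 2 * p, i ≠ j → ∀ v, φ i v ≠ v → φ i v ≠ φ j v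
  cov : ∀ a b, (Fg G k ty nd).Adj a b → ∃ ℓ < Δ + 2 * p, φ ℓ a = b
  t1 : ∀ ℓ, T1 p t ℓ → ∀ v, nd v < 2 * k → qt v < 2 → φ ℓ v = v
  t2 : ∀ ℓ, T2 p t ℓ → ∀ v, nd v < 2 * k → 2 ≤ qt v → φ ℓ v = v
  av : ∀ v, nd v < 2 * k → ∀ ℓ, bt (Δ + 2 * p) (cl v) ≤ ℓ → ℓ < bt (Δ + 2 * p) (cl v + 2) →
    φ ℓ v = v
  c1 : ∀ w ∈ pt nd (2 * k), bt (Δ + 2 * p) 7 + 3 * p ≤ c0 w ∧
    c0 w < bt (Δ + 2 * p) 7 + 5 * p + 2 * (pt nd (2 * k)).card
  c2 : ∀ w ∈ pt nd (2 * k), ∀ w' ∈ pt nd (2 * k), c0 w = c0 w' → w = w'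
  c3 : ∀ w ∈ pt nd (2 * k), ∀ ℓ, c0 w < ℓ + p → ℓ ≤ c0 w + p → φ ℓ w = w
  sm : ∀ ℓ < Δ + 2 * p, ((univ.filter fun v => nd v < 2 * k ∧ φ ℓ v ≠ v).card : ℝ) ≤
    δ * Fintype.card V
  ub : ∀ i < k, ¬ ty i → ∀ ℓ < bt (Δ + 2 * p) 7, |uu nd (φ ℓ) i| ≤ 3
  uK : ∀ i < k, ¬ ty i → ∀ ℓ < Δ + 2 * p, |uu nd (φ ℓ) i| ≤ K1
  us : ∀ i < k, ¬ ty i → 5 * ∑ ℓ ∈ range (Δ + 2 * p), max 0 (-uu nd (φ ℓ) i) ≤ 4 * Δ

end Pool.Agent.H2.F2
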