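import Mathlib
import Pool.Agent.H2.F2.Ifu
import Pool.Agent.H2.F2.Rm
import Pool.Agent.H2.FC.Fgs

/-!
HYP: the hypotheses of `blks` for the graph that remains after the removal of the matchings of the window region. Use the STATEMENTS of `rmv_dgi`, `rmv_ee` (`F2/Rm.lean`), `fg_dgi` (`FC/Fgs.lean`: `dgi (Fg ..) S w = dgi G S w` for `w` in the exceptional piece).

Proof.  `F := Fg G k ty nd`, `F' := rmv F mm κ`. For `w ∈ pt nd (2 k)`, `P < 2 k`: `a r := dgi F (Qf (10 P + r)) w`, `n r := un mm κ (Qf (10 P + r)) w`, `a' r := a r - n r = dgi F' (..) w` (`rmv_dgi`), `U r := 50 n r - a r` (natural subtraction), `e j := 6 a j - a 9` for `j < 7`. Then (omega)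
`5 a' j - a' 9 ≤ e j + U 9` (`j < 7`), `a' 9 - 11 a' 7 ≤ (a 9 - 10 a 7) + U 7`, `a' 9 - 11 a' 8 ≤ (a 9 - 10 a 8) + U 8`. Sum over `j < 7`, `P < 2 k` and `w`: the left side is at most (sum in `g1`) + (sum in `g2`) + `7 ∑ U 9 + ∑ U 7 + ∑ U 8`, and every one of `∑_w ∑_P U r` is at most `∑_w ∑_{j < 20 k} (50 un (Qs j) w - dgi F (Qs j) w) ≤ b1`
(the indices `10 P + r` with `P < 2 k` are distinct elements of `range (20 k)`; `Finset.sum_nbij`/`sum_le_sum_of_subset` or `Finset.sum_range` reindexing). Together `≤ 2 f1 n + 9 b1 ≤ B0`.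
`h3`: `A := ee F (pt nd P) (pt nd P')`, `up9 := up mm κ (pt nd P) (pt nd P')`, `50 up9 ≤ A + U`, `U ≤ b2` (one term of the double sum in `u2`, `j = 10 P + 9`, `j' = 10 P' + 9`); `36 ee F (P ∩ j) (P' ∩ j') ≤ A + f1 n`; `ee F' .. ≤ ee F ..`; `ee F' P P' = A - up9 ≥ 49 A / 50 - U / 50`. So `35 ee F' (..) ≤ 35 (A + f1 n) / 36 ≤ ee F' P P' + U + f1 n`.
`h4`: with `X := ee F (P ∩ X) (P' ∩ X)` (`r = 7`; `r = 8` is the same), `ee F' P P' ≤ A ≤ 22 X + f1 n`, `ee F' (..) = X - up7 ≥ 49 X / 50 - U / 50`, so `24 ee F' (..) ≥ 22 X - U` (`X ≥ 0`).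
-/

set_option autoImplicit false

namespace Pool.Agent.H2.F2

open Finset Classical
open Pool.Agent.H71.DN Pool.Agent.H71.HL Pool.Agent.H71.DC Pool.Agent.H71.TD Pool.Agent.H90.KB
open Pool.Agent.H2.FC

/-- The family of subsets of the pieces: `10 P + r` is the class `r` of the piece `P` (`r < 7`), the vertices of the quarters `0, 1`
(`r = 7`) and of the quarters `2, 3` (`r = 8`) outside the class `0`, and the whole piece (`r = 9`). -/
noncomputable def Qf {V : Type} [Fintype V] (nd qt cl : V → ℕ) (j : ℕ) : Finset V :=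
  if j % 10 < 7 then (pt nd (j / 10)).filter fun v => cl v = j % 10 else
    if j % 10 = 7 then (pt nd (j / 10)).filter fun v => qt v < 2 ∧ cl v ≠ 0 else
      if j % 10 = 8 then (pt nd (j / 10)).filter fun v => 2 ≤ qt v ∧ cl v ≠ 0 else pt nd (j / 10)

private theorem Hyp_re (f : ℕ → ℕ) (k r : ℕ) (hr : r < 10) :
    ∑ P ∈ range (2 * k), f (10 * P + r) ≤ ∑ j ∈ range (20 * k), f j := by
  have h1 : ∑ P ∈ range (2 * k), f (10 * P + r) =
      ∑ x ∈ (range (2 * k)).image (fun P => 10 * P + r), f x := by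
    rw [sum_image]
    intro a _ b _ h
    dsimp only at h
    omega
  rw [h1]
  apply sum_le_sum_of_subset
  intro x hx
  rw [mem_image] at hx
  obtain ⟨P, hP, rfl⟩ := hx
  rw [mem_range] at hP ⊢
  omega

private theorem Hyp_q0 {V : Type} [Fintype V] (nd qt cl : V → ℕ) (P j : ℕ) (hj : j < 7) :
    Qf nd qt cl (10 * P + j) = (pt nd P).filter fun v => cl v = j := by
  have h1 : (10 * P + j) % 10 = j := by omega
  have h2 : (10 * P + j) / 10 = P := by omega
  unfold Qf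
  rw [h1, h2, if_pos hj]

private theorem Hyp_q7 {V : Type} [Fintype V] (nd qt cl : V → ℕ) (P : ℕ) :
    Qf nd qt cl (10 * P + 7) = (pt nd P).filter fun v => qt v < 2 ∧ cl v ≠ 0 := by
  have h1 : (10 * P + 7) % 10 = 7 := by omega
  have h2 : (10 * P + 7) / 10 = P := by omega
  unfold Qf
  rw [h1, h2, if_neg (by omega), if_pos rfl]

private theorem Hyp_q8 {V : Type} [Fintype V] (nd qt cl : V → ℕ) (P : ℕ) :
    Qf nd qt cl (10 * P + 8) = (pt nd P).filter fun v => 2 ≤ qt v ∧ cl v ≠ 0 := by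
  have h1 : (10 * P + 8) % 10 = 8 := by omega
  have h2 : (10 * P + 8) / 10 = P := by omega
  unfold Qf
  rw [h1, h2, if_neg (by omega), if_neg (by omega), if_pos rfl]

private theorem Hyp_q9 {V : Type} [Fintype V] (nd qt cl : V → ℕ) (P : ℕ) :
    Qf nd qt cl (10 * P + 9) = pt nd P := by
  have h1 : (10 * P + 9) % 10 = 9 := by omega
  have h2 : (10 * P + 9) / 10 = P := by omega
  unfold Qf
  rw [h1, h2, if_neg (by omega), if_neg (by omega), if_neg (by omega)]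

private theorem Hyp_one (g : ℕ → ℕ → ℕ) (N i j : ℕ) (hi : i < N) (hj : j < N) :
    g i j ≤ ∑ x ∈ range N, ∑ y ∈ range N, g x y :=
  le_trans (single_le_sum (f := fun y => g i y) (fun _ _ => Nat.zero_le _) (mem_range.mpr hj))
    (single_le_sum (f := fun x => ∑ y ∈ range N, g x y) (fun _ _ => Nat.zero_le _)
      (mem_range.mpr hi))

private theorem Hyp_ee {V : Type} [Fintype V] (F F' : SimpleGraph V) (h : F' ≤ F)
    (A B : Finset V) : ee F' A B ≤ ee F A B := by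
  unfold ee
  apply card_le_card
  intro x hx
  rw [mem_filter] at hx ⊢
  exact ⟨hx.1, h hx.2⟩

private theorem Hyp_pt (a a' n : ℕ → ℕ) (h : ∀ r, a r = a' r + n r) :
    (∑ j ∈ range 7, (5 * a' j - a' 9)) + (a' 9 - 11 * a' 7) + (a' 9 - 11 * a' 8) ≤
      (∑ j ∈ range 7, (6 * a j - a 9)) + ((a 9 - 10 * a 7) + (a 9 - 10 * a 8)) +
        (7 * (50 * n 9 - a 9) + (50 * n 7 - a 7) + (50 * n 8 - a 8)) := by
  have h1 : ∑ j ∈ range 7, (5 * a' j - a' 9) ≤
      ∑ j ∈ range 7, ((6 * a j - a 9) + (50 * n 9 - a 9)) := by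
    apply sum_le_sum
    intro j _
    have := h j
    have := h 9
    omega
  rw [sum_add_distrib, sum_const, card_range, smul_eq_mul] at h1
  have := h 7
  have := h 8
  have := h 9
  omega

theorem hyp {V : Type} [Fintype V] (G : SimpleGraph V) (k κ : ℕ) (ty : ℕ → Prop)
    (nd qt cl un' : V → ℕ) (e1 f1 b1 b2 : ℝ) (hS : Spl2 G k ty nd qt cl un' e1 f1)
    (mm : ℕ → V → V) (hinv : ∀ ℓ < κ, Inv (mm ℓ))
    (hadj : ∀ ℓ < κ, ∀ v, mm ℓ v ≠ v → (Fg G k ty nd).Adj v (mm ℓ v))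
    (hdis : ∀ i < κ, ∀ j < κ, i ≠ j → ∀ v, mm i v ≠ v → mm i v ≠ mm j v)
    (hU : Us (Fg G k ty nd) (pt nd (2 * k)) (20 * k) (Qf nd qt cl) κ mm b1 b2) (B0 : ℕ)
    (hB1 : 2 * (f1 * Fintype.card V) + 9 * b1 ≤ B0) (hB2 : f1 * Fintype.card V + b2 ≤ B0) :
    (∑ w ∈ pt nd (2 * k), ∑ P ∈ range (2 * k),
      (∑ j ∈ range 7, (5 * dgi (rmv (Fg G k ty nd) mm κ) ((pt nd P).filter fun v => cl v = j) w -
          dgi (rmv (Fg G k ty nd) mm κ) (pt nd P) w) +
        (dgi (rmv (Fg G k ty nd) mm κ) (pt nd P) w -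
          11 * dgi (rmv (Fg G k ty nd) mm κ)
            ((pt nd P).filter fun v => qt v < 2 ∧ cl v ≠ 0) w) +
        (dgi (rmv (Fg G k ty nd) mm κ) (pt nd P) w -
          11 * dgi (rmv (Fg G k ty nd) mm κ)
            ((pt nd P).filter fun v => 2 ≤ qt v ∧ cl v ≠ 0) w)) ≤ B0) ∧
    (∀ P < 2 * k, ∀ P' < 2 * k, ∀ j < 7, ∀ j' < 7,
      35 * ee (rmv (Fg G k ty nd) mm κ) ((pt nd P).filter fun v => cl v = j)
        ((pt nd P').filter fun v => cl v = j') ≤
          ee (rmv (Fg G k ty nd) mm κ) (pt nd P) (pt nd P') + B0) ∧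
    (∀ P < 2 * k, ∀ P' < 2 * k,
      ee (rmv (Fg G k ty nd) mm κ) (pt nd P) (pt nd P') ≤
        24 * ee (rmv (Fg G k ty nd) mm κ) ((pt nd P).filter fun v => qt v < 2 ∧ cl v ≠ 0)
        ((pt nd P').filter fun v => qt v < 2 ∧ cl v ≠ 0) + B0 ∧
      ee (rmv (Fg G k ty nd) mm κ) (pt nd P) (pt nd P') ≤
        24 * ee (rmv (Fg G k ty nd) mm κ) ((pt nd P).filter fun v => 2 ≤ qt v ∧ cl v ≠ 0)
        ((pt nd P').filter fun v => 2 ≤ qt v ∧ cl v ≠ 0) + B0) := by
  have hn0 : (0 : ℝ) ≤ f1 * Fintype.card V := le_trans (Nat.cast_nonneg _) hS.g1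
  have hsub : ∀ P < 2 * k, ∀ r < 10, 10 * P + r < 20 * k := fun P hP r hr => by omega
  have hee : ∀ P < 2 * k, ∀ P' < 2 * k, ∀ r < 10, ∀ r' < 10,
      (50 * up mm κ (Qf nd qt cl (10 * P + r)) (Qf nd qt cl (10 * P' + r')) : ℝ) ≤
        ee (Fg G k ty nd) (Qf nd qt cl (10 * P + r)) (Qf nd qt cl (10 * P' + r')) + b2 := by
    intro P hP P' hP' r hr r' hr'
    have h1 := Hyp_one (fun j j' => 50 * up mm κ (Qf nd qt cl j) (Qf nd qt cl j') -
      ee (Fg G k ty nd) (Qf nd qt cl j) (Qf nd qt cl j')) (20 * k) (10 * P + r) (10 * P' + r')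
      (hsub P hP r hr) (hsub P' hP' r' hr')
    have h2 : ((50 * up mm κ (Qf nd qt cl (10 * P + r)) (Qf nd qt cl (10 * P' + r')) -
      ee (Fg G k ty nd) (Qf nd qt cl (10 * P + r)) (Qf nd qt cl (10 * P' + r')) : ℕ) : ℝ) ≤
        b2 := le_trans (Nat.cast_le.mpr h1) hU.u2
    have h3 : (50 * up mm κ (Qf nd qt cl (10 * P + r)) (Qf nd qt cl (10 * P' + r')) : ℕ) ≤
        ee (Fg G k ty nd) (Qf nd qt cl (10 * P + r)) (Qf nd qt cl (10 * P' + r')) +
        (50 * up mm κ (Qf nd qt cl (10 * P + r)) (Qf nd qt cl (10 * P' + r')) -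
      ee (Fg G k ty nd) (Qf nd qt cl (10 * P + r)) (Qf nd qt cl (10 * P' + r'))) := by omega
    have h4 : ((50 * up mm κ (Qf nd qt cl (10 * P + r)) (Qf nd qt cl (10 * P' + r')) : ℕ) : ℝ) ≤
        ((ee (Fg G k ty nd) (Qf nd qt cl (10 * P + r)) (Qf nd qt cl (10 * P' + r')) +
        (50 * up mm κ (Qf nd qt cl (10 * P + r)) (Qf nd qt cl (10 * P' + r')) -
      ee (Fg G k ty nd) (Qf nd qt cl (10 * P + r)) (Qf nd qt cl (10 * P' + r'))) : ℕ) : ℝ) :=
      Nat.cast_le.mpr h3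
    rw [Nat.cast_add, Nat.cast_mul] at h4
    have h5 : ((50 : ℕ) : ℝ) = 50 := by norm_num
    rw [h5] at h4
    linarith
  have hb0 : (0 : ℝ) ≤ b2 := le_trans (Nat.cast_nonneg _) hU.u2
  refine ⟨?_, ?_, ?_⟩
  · -- the sum
    have hpt : ∀ w ∈ pt nd (2 * k), ∀ P ∈ range (2 * k),
      (∑ j ∈ range 7, (5 * dgi (rmv (Fg G k ty nd) mm κ) ((pt nd P).filter fun v => cl v = j) w -
          dgi (rmv (Fg G k ty nd) mm κ) (pt nd P) w) +
        (dgi (rmv (Fg G k ty nd) mm κ) (pt nd P) w -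
          11 * dgi (rmv (Fg G k ty nd) mm κ)
            ((pt nd P).filter fun v => qt v < 2 ∧ cl v ≠ 0) w) +
        (dgi (rmv (Fg G k ty nd) mm κ) (pt nd P) w -
          11 * dgi (rmv (Fg G k ty nd) mm κ)
            ((pt nd P).filter fun v => 2 ≤ qt v ∧ cl v ≠ 0) w)) ≤
      (∑ j ∈ range 7, (6 * dgi G ((pt nd P).filter fun v => cl v = j) w - dgi G (pt nd P) w)) +
        ((dgi G (pt nd P) w - 10 * dgi G ((pt nd P).filter fun v => qt v < 2 ∧ cl v ≠ 0) w) +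
      (dgi G (pt nd P) w - 10 * dgi G ((pt nd P).filter fun v => 2 ≤ qt v ∧ cl v ≠ 0) w)) +
        (7 * (50 * un mm κ (Qf nd qt cl (10 * P + 9)) w -
            dgi (Fg G k ty nd) (Qf nd qt cl (10 * P + 9)) w) +
          (50 * un mm κ (Qf nd qt cl (10 * P + 7)) w -
            dgi (Fg G k ty nd) (Qf nd qt cl (10 * P + 7)) w) +
          (50 * un mm κ (Qf nd qt cl (10 * P + 8)) w -
            dgi (Fg G k ty nd) (Qf nd qt cl (10 * P + 8)) w)) := by
      intro w hw P hP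
      have h1 := Hyp_pt (fun r => dgi (Fg G k ty nd) (Qf nd qt cl (10 * P + r)) w)
        (fun r => dgi (rmv (Fg G k ty nd) mm κ) (Qf nd qt cl (10 * P + r)) w)
        (fun r => un mm κ (Qf nd qt cl (10 * P + r)) w)
        (fun r => rmv_dgi (Fg G k ty nd) mm κ hinv hadj hdis (Qf nd qt cl (10 * P + r)) w)
      have h2 : ∑ j ∈ range 7, (5 * dgi (rmv (Fg G k ty nd) mm κ)
          (Qf nd qt cl (10 * P + j)) w -
            dgi (rmv (Fg G k ty nd) mm κ) (Qf nd qt cl (10 * P + 9)) w) =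
          ∑ j ∈ range 7, (5 * dgi (rmv (Fg G k ty nd) mm κ)
            ((pt nd P).filter fun v => cl v = j) w -
          dgi (rmv (Fg G k ty nd) mm κ) (pt nd P) w) := by
        apply sum_congr rfl
        intro j hj
        rw [Hyp_q0 nd qt cl P j (mem_range.mp hj), Hyp_q9]
      have h3 : ∑ j ∈ range 7, (6 * dgi (Fg G k ty nd) (Qf nd qt cl (10 * P + j)) w -
            dgi (Fg G k ty nd) (Qf nd qt cl (10 * P + 9)) w) =
          ∑ j ∈ range 7, (6 * dgi G ((pt nd P).filter fun v => cl v = j) w -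
            dgi G (pt nd P) w) := by
        apply sum_congr rfl
        intro j hj
        rw [Hyp_q0 nd qt cl P j (mem_range.mp hj), Hyp_q9, fg_dgi G k ty nd w hw,
          fg_dgi G k ty nd w hw]
      rw [h2, h3] at h1
      rw [Hyp_q9, Hyp_q8, Hyp_q7] at h1 ⊢
      rw [fg_dgi G k ty nd w hw (pt nd P), fg_dgi G k ty nd w hw, fg_dgi G k ty nd w hw] at h1 ⊢
      exact h1
    have hsum := sum_le_sum fun w hw => sum_le_sum fun P hP => hpt w hw P hP
    have hT : ∀ r < 10, (∑ w ∈ pt nd (2 * k), ∑ P ∈ range (2 * k),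
        (50 * un mm κ (Qf nd qt cl (10 * P + r)) w -
            dgi (Fg G k ty nd) (Qf nd qt cl (10 * P + r)) w)) ≤
        ∑ w ∈ pt nd (2 * k), ∑ j ∈ range (20 * k),
          (50 * un mm κ (Qf nd qt cl j) w - dgi (Fg G k ty nd) (Qf nd qt cl j) w) := by
      intro r hr
      apply sum_le_sum
      intro w _
      exact Hyp_re (fun j => 50 * un mm κ (Qf nd qt cl j) w -
        dgi (Fg G k ty nd) (Qf nd qt cl j) w) k r hr
    have t7 := hT 7 (by norm_num)
    have t8 := hT 8 (by norm_num)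
    have t9 := hT 9 (by norm_num)
    have hu1 := hU.u1
    have hg1 := hS.g1
    have hg2 := hS.g2
    simp only [sum_add_distrib, ← mul_sum] at hsum hg2 ⊢
    generalize (∑ w ∈ pt nd (2 * k), ∑ P ∈ range (2 * k),
        (50 * un mm κ (Qf nd qt cl (10 * P + 7)) w -
            dgi (Fg G k ty nd) (Qf nd qt cl (10 * P + 7)) w)) = T7 at *
    generalize (∑ w ∈ pt nd (2 * k), ∑ P ∈ range (2 * k),
        (50 * un mm κ (Qf nd qt cl (10 * P + 8)) w -
            dgi (Fg G k ty nd) (Qf nd qt cl (10 * P + 8)) w)) = T8 at *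
    generalize (∑ w ∈ pt nd (2 * k), ∑ P ∈ range (2 * k),
        (50 * un mm κ (Qf nd qt cl (10 * P + 9)) w -
            dgi (Fg G k ty nd) (Qf nd qt cl (10 * P + 9)) w)) = T9 at *
    generalize (∑ w ∈ pt nd (2 * k), ∑ j ∈ range (20 * k),
          (50 * un mm κ (Qf nd qt cl j) w - dgi (Fg G k ty nd) (Qf nd qt cl j) w)) = T at *
    generalize (∑ w ∈ pt nd (2 * k), ∑ P ∈ range (2 * k), ∑ j ∈ range 7,
      (6 * dgi G ((pt nd P).filter fun v => cl v = j) w - dgi G (pt nd P) w)) = S1 at *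
    rw [← Nat.cast_le (α := ℝ)]
    have hs2 := (Nat.cast_le (α := ℝ)).mpr hsum
    have t7' := (Nat.cast_le (α := ℝ)).mpr t7
    have t8' := (Nat.cast_le (α := ℝ)).mpr t8
    have t9' := (Nat.cast_le (α := ℝ)).mpr t9
    refine le_trans hs2 ?_
    push_cast
    push_cast at hg2
    linarith
  · intro P hP P' hP' j hj j' hj'
    have h1 := hS.g3 P hP P' hP' j hj j' hj'
    have h2 := hee P hP P' hP' 9 (by norm_num) 9 (by norm_num)
    rw [Hyp_q9, Hyp_q9] at h2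
    have h3 := Hyp_ee (Fg G k ty nd) (rmv (Fg G k ty nd) mm κ) (rmv_le _ _ _)
      ((pt nd P).filter fun v => cl v = j) ((pt nd P').filter fun v => cl v = j')
    have h4 := rmv_ee (Fg G k ty nd) mm κ hinv hadj hdis (pt nd P) (pt nd P')
    have h3' := (Nat.cast_le (α := ℝ)).mpr h3
    have h4' : ((ee (Fg G k ty nd) (pt nd P) (pt nd P') : ℕ) : ℝ) =
      ee (rmv (Fg G k ty nd) mm κ) (pt nd P) (pt nd P') + up mm κ (pt nd P) (pt nd P') := by
      exact_mod_cast h4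
    have h5 : (0 : ℝ) ≤ (ee (Fg G k ty nd) (pt nd P) (pt nd P') : ℝ) := Nat.cast_nonneg _
    rw [← Nat.cast_le (α := ℝ)]
    push_cast
    linarith
  · intro P hP P' hP'
    have h1 := hS.g4 P hP P' hP'
    have h3 := Hyp_ee (Fg G k ty nd) (rmv (Fg G k ty nd) mm κ) (rmv_le _ _ _) (pt nd P)
      (pt nd P')
    have h3' := (Nat.cast_le (α := ℝ)).mpr h3
    constructor
    · have h2 := hee P hP P' hP' 7 (by norm_num) 7 (by norm_num)
      rw [Hyp_q7, Hyp_q7] at h2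
      have h4 := rmv_ee (Fg G k ty nd) mm κ hinv hadj hdis
        ((pt nd P).filter fun v => qt v < 2 ∧ cl v ≠ 0)
        ((pt nd P').filter fun v => qt v < 2 ∧ cl v ≠ 0)
      have h4' := congrArg (fun n : ℕ => (n : ℝ)) h4
      rw [Nat.cast_add] at h4'
      have h5 : (0 : ℝ) ≤ (ee (Fg G k ty nd) ((pt nd P).filter fun v => qt v < 2 ∧ cl v ≠ 0)
        ((pt nd P').filter fun v => qt v < 2 ∧ cl v ≠ 0) : ℝ) := Nat.cast_nonneg _
      rw [← Nat.cast_le (α := ℝ)]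
      push_cast
      linarith [h1.1]
    · have h2 := hee P hP P' hP' 8 (by norm_num) 8 (by norm_num)
      rw [Hyp_q8, Hyp_q8] at h2
      have h4 := rmv_ee (Fg G k ty nd) mm κ hinv hadj hdis
        ((pt nd P).filter fun v => 2 ≤ qt v ∧ cl v ≠ 0)
        ((pt nd P').filter fun v => 2 ≤ qt v ∧ cl v ≠ 0)
      have h4' := congrArg (fun n : ℕ => (n : ℝ)) h4
      rw [Nat.cast_add] at h4'
      have h5 : (0 : ℝ) ≤ (ee (Fg G k ty nd) ((pt nd P).filter fun v => 2 ≤ qt v ∧ cl v ≠ 0)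
        ((pt nd P').filter fun v => 2 ≤ qt v ∧ cl v ≠ 0) : ℝ) := Nat.cast_nonneg _
      rw [← Nat.cast_le (α := ℝ)]
      push_cast
      linarith [h1.2]

end Pool.Agent.H2.F2
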