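import Mathlib
import Pool.Agent.H2.F2.Ifu
import Pool.Agent.H2.F2.Defs

/-!
POS: the positions of the groups of labels: the label `ℓ < L` is the label number `ix ℓ` of the group `bk ℓ`; the group `10` is the interval `K`.

Proof.  Let `β j := bt L j = j * L / 8` (so `β 0 = 0`, `β j ≤ β (j + 1)`, `β 8 = L`), `a := β 7 + 2 p`. Define `bk, ix` by cases:
`ℓ < 2 p`: `(2, ℓ)`; `2 p ≤ ℓ < 2 p + t`: `(0, ℓ - 2 p)`; `2 p + t ≤ ℓ < 4 p + t`: `(2, ℓ - t)`; `4 p + t ≤ ℓ < 4 p + 2 t`: `(1, ℓ - 4 p - t)`; `4 p + 2 t ≤ ℓ < β 1`: `(2, ℓ - 2 t)`; `β j ≤ ℓ < β (j + 1)` for `1 ≤ j ≤ 6`: `(2 + j, ℓ - β j)`;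
`β 7 ≤ ℓ < a`: `(9, ℓ - β 7)`; `a ≤ ℓ < a + κ`: `(10, ℓ - a)`; `a + κ ≤ ℓ`: `(9, ℓ - β 7 - κ)`. All claims by cases with `omega` (introduce variables `β1, ..., β7` for `bt L 1, ..., bt L 7` with `β1 ≤ ... ≤ β7 ≤ L`, `bt L 0 = 0`, `bt L 8 = L`; the block `j` of a label `ℓ` with `β 1 ≤ ℓ < β 7` can be found by six case distinctions).
-/

set_option autoImplicit false

namespace Pool.Agent.H2.F2

open Finset Classical
open Pool.Agent.H90.TDP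

/-- The sizes of the groups. -/
def sz (L t κ b : ℕ) : ℕ :=
  if b < 2 then t else if b = 2 then bt L 1 - 2 * t else
    if b < 9 then bt L (b - 1) - bt L (b - 2) else if b = 9 then L - bt L 7 - κ else κ

/-- The group of a label. -/
def Pos_bk (p t κ b1 b2 b3 b4 b5 b6 b7 ℓ : ℕ) : ℕ :=
  if ℓ < 2 * p then 2 else
    if ℓ < 2 * p + t then 0 else
    if ℓ < 4 * p + t then 2 else
    if ℓ < 4 * p + 2 * t then 1 else
    if ℓ < b1 then 2 else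
    if ℓ < b2 then 3 else
    if ℓ < b3 then 4 else
    if ℓ < b4 then 5 else
    if ℓ < b5 then 6 else
    if ℓ < b6 then 7 else
    if ℓ < b7 then 8 else
    if ℓ < b7 + 2 * p then 9 else
    if ℓ < b7 + 2 * p + κ then 10 else
    9

/-- The number of a label in its group. -/
def Pos_ix (p t κ b1 b2 b3 b4 b5 b6 b7 ℓ : ℕ) : ℕ :=
  if ℓ < 2 * p then ℓ else
    if ℓ < 2 * p + t then ℓ - (2 * p) else
    if ℓ < 4 * p + t then ℓ - (t) else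
    if ℓ < 4 * p + 2 * t then ℓ - (4 * p + t) else
    if ℓ < b1 then ℓ - (2 * t) else
    if ℓ < b2 then ℓ - (b1) else
    if ℓ < b3 then ℓ - (b2) else
    if ℓ < b4 then ℓ - (b3) else
    if ℓ < b5 then ℓ - (b4) else
    if ℓ < b6 then ℓ - (b5) else
    if ℓ < b7 then ℓ - (b6) else
    if ℓ < b7 + 2 * p then ℓ - (b7) else
    if ℓ < b7 + 2 * p + κ then ℓ - (b7 + 2 * p) else
    ℓ - (b7 + κ)

/-- The bounds are increasing. -/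
def Pos_H (p t b1 b2 b3 b4 b5 b6 b7 : ℕ) : Prop :=
  4 * p + 2 * t ≤ b1 ∧ b1 ≤ b2 ∧ b2 ≤ b3 ∧ b3 ≤ b4 ∧ b4 ≤ b5 ∧ b5 ≤ b6 ∧ b6 ≤ b7

/-- The label with a given group and number. -/
def Pos_inv (p t κ b1 b2 b3 b4 b5 b6 b7 b i : ℕ) : ℕ :=
  if b = 0 then i + 2 * p else if b = 1 then i + (4 * p + t) else
    if b = 2 then (if i < 2 * p then i else if i < 4 * p then i + t else i + 2 * t) else
    if b = 3 then i + b1 else if b = 4 then i + b2 else if b = 5 then i + b3 else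
    if b = 6 then i + b4 else if b = 7 then i + b5 else if b = 8 then i + b6 else
    if b = 9 then (if i < 2 * p then i + b7 else i + (b7 + κ)) else i + (b7 + 2 * p)

theorem Pos_0 {p t κ b1 b2 b3 b4 b5 b6 b7 : ℕ} (H : Pos_H p t b1 b2 b3 b4 b5 b6 b7) {ℓ : ℕ} (h' : ℓ < 2 * p) :
    Pos_bk p t κ b1 b2 b3 b4 b5 b6 b7 ℓ = 2 ∧ Pos_ix p t κ b1 b2 b3 b4 b5 b6 b7 ℓ = ℓ := by
  obtain ⟨a1, a2, a3, a4, a5, a6, a7⟩ := H
  unfold Pos_bk Pos_ix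
  constructor
  · rw [if_pos h']
  · rw [if_pos h']

theorem Pos_1 {p t κ b1 b2 b3 b4 b5 b6 b7 : ℕ} (H : Pos_H p t b1 b2 b3 b4 b5 b6 b7) {ℓ : ℕ} (h : 2 * p ≤ ℓ) (h' : ℓ < 2 * p + t) :
    Pos_bk p t κ b1 b2 b3 b4 b5 b6 b7 ℓ = 0 ∧ Pos_ix p t κ b1 b2 b3 b4 b5 b6 b7 ℓ = ℓ - (2 * p) := by
  obtain ⟨a1, a2, a3, a4, a5, a6, a7⟩ := H
  unfold Pos_bk Pos_ix
  constructor
  · rw [if_neg (by omega), if_pos h']
  · rw [if_neg (by omega), if_pos h']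

theorem Pos_2 {p t κ b1 b2 b3 b4 b5 b6 b7 : ℕ} (H : Pos_H p t b1 b2 b3 b4 b5 b6 b7) {ℓ : ℕ} (h : 2 * p + t ≤ ℓ) (h' : ℓ < 4 * p + t) :
    Pos_bk p t κ b1 b2 b3 b4 b5 b6 b7 ℓ = 2 ∧ Pos_ix p t κ b1 b2 b3 b4 b5 b6 b7 ℓ = ℓ - (t) := by
  obtain ⟨a1, a2, a3, a4, a5, a6, a7⟩ := H
  unfold Pos_bk Pos_ix
  constructor
  · rw [if_neg (by omega), if_neg (by omega), if_pos h']
  · rw [if_neg (by omega), if_neg (by omega), if_pos h']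

theorem Pos_3 {p t κ b1 b2 b3 b4 b5 b6 b7 : ℕ} (H : Pos_H p t b1 b2 b3 b4 b5 b6 b7) {ℓ : ℕ} (h : 4 * p + t ≤ ℓ) (h' : ℓ < 4 * p + 2 * t) :
    Pos_bk p t κ b1 b2 b3 b4 b5 b6 b7 ℓ = 1 ∧ Pos_ix p t κ b1 b2 b3 b4 b5 b6 b7 ℓ = ℓ - (4 * p + t) := by
  obtain ⟨a1, a2, a3, a4, a5, a6, a7⟩ := H
  unfold Pos_bk Pos_ix
  constructor
  · rw [if_neg (by omega), if_neg (by omega), if_neg (by omega), if_pos h']
  · rw [if_neg (by omega), if_neg (by omega), if_neg (by omega), if_pos h']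

theorem Pos_4 {p t κ b1 b2 b3 b4 b5 b6 b7 : ℕ} (H : Pos_H p t b1 b2 b3 b4 b5 b6 b7) {ℓ : ℕ} (h : 4 * p + 2 * t ≤ ℓ) (h' : ℓ < b1) :
    Pos_bk p t κ b1 b2 b3 b4 b5 b6 b7 ℓ = 2 ∧ Pos_ix p t κ b1 b2 b3 b4 b5 b6 b7 ℓ = ℓ - (2 * t) := by
  obtain ⟨a1, a2, a3, a4, a5, a6, a7⟩ := H
  unfold Pos_bk Pos_ix
  constructor
  · rw [if_neg (by omega), if_neg (by omega), if_neg (by omega), if_neg (by omega), if_pos h']
  · rw [if_neg (by omega), if_neg (by omega), if_neg (by omega), if_neg (by omega), if_pos h']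

theorem Pos_5 {p t κ b1 b2 b3 b4 b5 b6 b7 : ℕ} (H : Pos_H p t b1 b2 b3 b4 b5 b6 b7) {ℓ : ℕ} (h : b1 ≤ ℓ) (h' : ℓ < b2) :
    Pos_bk p t κ b1 b2 b3 b4 b5 b6 b7 ℓ = 3 ∧ Pos_ix p t κ b1 b2 b3 b4 b5 b6 b7 ℓ = ℓ - (b1) := by
  obtain ⟨a1, a2, a3, a4, a5, a6, a7⟩ := H
  unfold Pos_bk Pos_ix
  constructor
  · rw [if_neg (by omega), if_neg (by omega), if_neg (by omega), if_neg (by omega), if_neg (by omega), if_pos h']
  · rw [if_neg (by omega), if_neg (by omega), if_neg (by omega), if_neg (by omega), if_neg (by omega), if_pos h']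

theorem Pos_6 {p t κ b1 b2 b3 b4 b5 b6 b7 : ℕ} (H : Pos_H p t b1 b2 b3 b4 b5 b6 b7) {ℓ : ℕ} (h : b2 ≤ ℓ) (h' : ℓ < b3) :
    Pos_bk p t κ b1 b2 b3 b4 b5 b6 b7 ℓ = 4 ∧ Pos_ix p t κ b1 b2 b3 b4 b5 b6 b7 ℓ = ℓ - (b2) := by
  obtain ⟨a1, a2, a3, a4, a5, a6, a7⟩ := H
  unfold Pos_bk Pos_ix
  constructor
  · rw [if_neg (by omega), if_neg (by omega), if_neg (by omega), if_neg (by omega), if_neg (by omega), if_neg (by omega), if_pos h']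
  · rw [if_neg (by omega), if_neg (by omega), if_neg (by omega), if_neg (by omega), if_neg (by omega), if_neg (by omega), if_pos h']

theorem Pos_7 {p t κ b1 b2 b3 b4 b5 b6 b7 : ℕ} (H : Pos_H p t b1 b2 b3 b4 b5 b6 b7) {ℓ : ℕ} (h : b3 ≤ ℓ) (h' : ℓ < b4) :
    Pos_bk p t κ b1 b2 b3 b4 b5 b6 b7 ℓ = 5 ∧ Pos_ix p t κ b1 b2 b3 b4 b5 b6 b7 ℓ = ℓ - (b3) := by
  obtain ⟨a1, a2, a3, a4, a5, a6, a7⟩ := H
  unfold Pos_bk Pos_ix
  constructor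
  · rw [if_neg (by omega), if_neg (by omega), if_neg (by omega), if_neg (by omega), if_neg (by omega), if_neg (by omega), if_neg (by omega), if_pos h']
  · rw [if_neg (by omega), if_neg (by omega), if_neg (by omega), if_neg (by omega), if_neg (by omega), if_neg (by omega), if_neg (by omega), if_pos h']

theorem Pos_8 {p t κ b1 b2 b3 b4 b5 b6 b7 : ℕ} (H : Pos_H p t b1 b2 b3 b4 b5 b6 b7) {ℓ : ℕ} (h : b4 ≤ ℓ) (h' : ℓ < b5) :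
    Pos_bk p t κ b1 b2 b3 b4 b5 b6 b7 ℓ = 6 ∧ Pos_ix p t κ b1 b2 b3 b4 b5 b6 b7 ℓ = ℓ - (b4) := by
  obtain ⟨a1, a2, a3, a4, a5, a6, a7⟩ := H
  unfold Pos_bk Pos_ix
  constructor
  · rw [if_neg (by omega), if_neg (by omega), if_neg (by omega), if_neg (by omega), if_neg (by omega), if_neg (by omega), if_neg (by omega), if_neg (by omega), if_pos h']
  · rw [if_neg (by omega), if_neg (by omega), if_neg (by omega), if_neg (by omega), if_neg (by omega), if_neg (by omega), if_neg (by omega), if_neg (by omega), if_pos h']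

theorem Pos_9 {p t κ b1 b2 b3 b4 b5 b6 b7 : ℕ} (H : Pos_H p t b1 b2 b3 b4 b5 b6 b7) {ℓ : ℕ} (h : b5 ≤ ℓ) (h' : ℓ < b6) :
    Pos_bk p t κ b1 b2 b3 b4 b5 b6 b7 ℓ = 7 ∧ Pos_ix p t κ b1 b2 b3 b4 b5 b6 b7 ℓ = ℓ - (b5) := by
  obtain ⟨a1, a2, a3, a4, a5, a6, a7⟩ := H
  unfold Pos_bk Pos_ix
  constructor
  · rw [if_neg (by omega), if_neg (by omega), if_neg (by omega), if_neg (by omega), if_neg (by omega), if_neg (by omega), if_neg (by omega), if_neg (by omega), if_neg (by omega), if_pos h']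
  · rw [if_neg (by omega), if_neg (by omega), if_neg (by omega), if_neg (by omega), if_neg (by omega), if_neg (by omega), if_neg (by omega), if_neg (by omega), if_neg (by omega), if_pos h']

theorem Pos_10 {p t κ b1 b2 b3 b4 b5 b6 b7 : ℕ} (H : Pos_H p t b1 b2 b3 b4 b5 b6 b7) {ℓ : ℕ} (h : b6 ≤ ℓ) (h' : ℓ < b7) :
    Pos_bk p t κ b1 b2 b3 b4 b5 b6 b7 ℓ = 8 ∧ Pos_ix p t κ b1 b2 b3 b4 b5 b6 b7 ℓ = ℓ - (b6) := by
  obtain ⟨a1, a2, a3, a4, a5, a6, a7⟩ := H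
  unfold Pos_bk Pos_ix
  constructor
  · rw [if_neg (by omega), if_neg (by omega), if_neg (by omega), if_neg (by omega), if_neg (by omega), if_neg (by omega), if_neg (by omega), if_neg (by omega), if_neg (by omega), if_neg (by omega), if_pos h']
  · rw [if_neg (by omega), if_neg (by omega), if_neg (by omega), if_neg (by omega), if_neg (by omega), if_neg (by omega), if_neg (by omega), if_neg (by omega), if_neg (by omega), if_neg (by omega), if_pos h']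

theorem Pos_11 {p t κ b1 b2 b3 b4 b5 b6 b7 : ℕ} (H : Pos_H p t b1 b2 b3 b4 b5 b6 b7) {ℓ : ℕ} (h : b7 ≤ ℓ) (h' : ℓ < b7 + 2 * p) :
    Pos_bk p t κ b1 b2 b3 b4 b5 b6 b7 ℓ = 9 ∧ Pos_ix p t κ b1 b2 b3 b4 b5 b6 b7 ℓ = ℓ - (b7) := by
  obtain ⟨a1, a2, a3, a4, a5, a6, a7⟩ := H
  unfold Pos_bk Pos_ix
  constructor
  · rw [if_neg (by omega), if_neg (by omega), if_neg (by omega), if_neg (by omega), if_neg (by omega), if_neg (by omega), if_neg (by omega), if_neg (by omega), if_neg (by omega), if_neg (by omega), if_neg (by omega), if_pos h']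
  · rw [if_neg (by omega), if_neg (by omega), if_neg (by omega), if_neg (by omega), if_neg (by omega), if_neg (by omega), if_neg (by omega), if_neg (by omega), if_neg (by omega), if_neg (by omega), if_neg (by omega), if_pos h']

theorem Pos_12 {p t κ b1 b2 b3 b4 b5 b6 b7 : ℕ} (H : Pos_H p t b1 b2 b3 b4 b5 b6 b7) {ℓ : ℕ} (h : b7 + 2 * p ≤ ℓ) (h' : ℓ < b7 + 2 * p + κ) :
    Pos_bk p t κ b1 b2 b3 b4 b5 b6 b7 ℓ = 10 ∧ Pos_ix p t κ b1 b2 b3 b4 b5 b6 b7 ℓ = ℓ - (b7 + 2 * p) := by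
  obtain ⟨a1, a2, a3, a4, a5, a6, a7⟩ := H
  unfold Pos_bk Pos_ix
  constructor
  · rw [if_neg (by omega), if_neg (by omega), if_neg (by omega), if_neg (by omega), if_neg (by omega), if_neg (by omega), if_neg (by omega), if_neg (by omega), if_neg (by omega), if_neg (by omega), if_neg (by omega), if_neg (by omega), if_pos h']
  · rw [if_neg (by omega), if_neg (by omega), if_neg (by omega), if_neg (by omega), if_neg (by omega), if_neg (by omega), if_neg (by omega), if_neg (by omega), if_neg (by omega), if_neg (by omega), if_neg (by omega), if_neg (by omega), if_pos h']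

theorem Pos_13 {p t κ b1 b2 b3 b4 b5 b6 b7 : ℕ} (H : Pos_H p t b1 b2 b3 b4 b5 b6 b7) {ℓ : ℕ} (h : b7 + 2 * p + κ ≤ ℓ) :
    Pos_bk p t κ b1 b2 b3 b4 b5 b6 b7 ℓ = 9 ∧ Pos_ix p t κ b1 b2 b3 b4 b5 b6 b7 ℓ = ℓ - (b7 + κ) := by
  obtain ⟨a1, a2, a3, a4, a5, a6, a7⟩ := H
  unfold Pos_bk Pos_ix
  constructor
  · rw [if_neg (by omega), if_neg (by omega), if_neg (by omega), if_neg (by omega), if_neg (by omega), if_neg (by omega), if_neg (by omega), if_neg (by omega), if_neg (by omega), if_neg (by omega), if_neg (by omega), if_neg (by omega), if_neg (by omega)]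
  · rw [if_neg (by omega), if_neg (by omega), if_neg (by omega), if_neg (by omega), if_neg (by omega), if_neg (by omega), if_neg (by omega), if_neg (by omega), if_neg (by omega), if_neg (by omega), if_neg (by omega), if_neg (by omega), if_neg (by omega)]

theorem Pos_all {p t κ b1 b2 b3 b4 b5 b6 b7 : ℕ} (H : Pos_H p t b1 b2 b3 b4 b5 b6 b7) (ℓ : ℕ) :
    (ℓ < 2 * p ∧ Pos_bk p t κ b1 b2 b3 b4 b5 b6 b7 ℓ = 2 ∧ Pos_ix p t κ b1 b2 b3 b4 b5 b6 b7 ℓ = ℓ) ∨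
    (2 * p ≤ ℓ ∧ ℓ < 2 * p + t ∧ Pos_bk p t κ b1 b2 b3 b4 b5 b6 b7 ℓ = 0 ∧ Pos_ix p t κ b1 b2 b3 b4 b5 b6 b7 ℓ = ℓ - (2 * p)) ∨
    (2 * p + t ≤ ℓ ∧ ℓ < 4 * p + t ∧ Pos_bk p t κ b1 b2 b3 b4 b5 b6 b7 ℓ = 2 ∧ Pos_ix p t κ b1 b2 b3 b4 b5 b6 b7 ℓ = ℓ - (t)) ∨
    (4 * p + t ≤ ℓ ∧ ℓ < 4 * p + 2 * t ∧ Pos_bk p t κ b1 b2 b3 b4 b5 b6 b7 ℓ = 1 ∧ Pos_ix p t κ b1 b2 b3 b4 b5 b6 b7 ℓ = ℓ - (4 * p + t)) ∨
    (4 * p + 2 * t ≤ ℓ ∧ ℓ < b1 ∧ Pos_bk p t κ b1 b2 b3 b4 b5 b6 b7 ℓ = 2 ∧ Pos_ix p t κ b1 b2 b3 b4 b5 b6 b7 ℓ = ℓ - (2 * t)) ∨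
    (b1 ≤ ℓ ∧ ℓ < b2 ∧ Pos_bk p t κ b1 b2 b3 b4 b5 b6 b7 ℓ = 3 ∧ Pos_ix p t κ b1 b2 b3 b4 b5 b6 b7 ℓ = ℓ - (b1)) ∨
    (b2 ≤ ℓ ∧ ℓ < b3 ∧ Pos_bk p t κ b1 b2 b3 b4 b5 b6 b7 ℓ = 4 ∧ Pos_ix p t κ b1 b2 b3 b4 b5 b6 b7 ℓ = ℓ - (b2)) ∨
    (b3 ≤ ℓ ∧ ℓ < b4 ∧ Pos_bk p t κ b1 b2 b3 b4 b5 b6 b7 ℓ = 5 ∧ Pos_ix p t κ b1 b2 b3 b4 b5 b6 b7 ℓ = ℓ - (b3)) ∨
    (b4 ≤ ℓ ∧ ℓ < b5 ∧ Pos_bk p t κ b1 b2 b3 b4 b5 b6 b7 ℓ = 6 ∧ Pos_ix p t κ b1 b2 b3 b4 b5 b6 b7 ℓ = ℓ - (b4)) ∨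
    (b5 ≤ ℓ ∧ ℓ < b6 ∧ Pos_bk p t κ b1 b2 b3 b4 b5 b6 b7 ℓ = 7 ∧ Pos_ix p t κ b1 b2 b3 b4 b5 b6 b7 ℓ = ℓ - (b5)) ∨
    (b6 ≤ ℓ ∧ ℓ < b7 ∧ Pos_bk p t κ b1 b2 b3 b4 b5 b6 b7 ℓ = 8 ∧ Pos_ix p t κ b1 b2 b3 b4 b5 b6 b7 ℓ = ℓ - (b6)) ∨
    (b7 ≤ ℓ ∧ ℓ < b7 + 2 * p ∧ Pos_bk p t κ b1 b2 b3 b4 b5 b6 b7 ℓ = 9 ∧ Pos_ix p t κ b1 b2 b3 b4 b5 b6 b7 ℓ = ℓ - (b7)) ∨
    (b7 + 2 * p ≤ ℓ ∧ ℓ < b7 + 2 * p + κ ∧ Pos_bk p t κ b1 b2 b3 b4 b5 b6 b7 ℓ = 10 ∧ Pos_ix p t κ b1 b2 b3 b4 b5 b6 b7 ℓ = ℓ - (b7 + 2 * p)) ∨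
    (b7 + 2 * p + κ ≤ ℓ ∧ Pos_bk p t κ b1 b2 b3 b4 b5 b6 b7 ℓ = 9 ∧ Pos_ix p t κ b1 b2 b3 b4 b5 b6 b7 ℓ = ℓ - (b7 + κ)) := by
  by_cases c1 : ℓ < 2 * p
  · exact Or.inl ⟨c1, (Pos_0 H c1).1, (Pos_0 H c1).2⟩
  by_cases c2 : ℓ < 2 * p + t
  · exact Or.inr (Or.inl ⟨not_lt.1 c1, c2, (Pos_1 H (not_lt.1 c1) c2).1, (Pos_1 H (not_lt.1 c1) c2).2⟩)
  by_cases c3 : ℓ < 4 * p + t
  · exact Or.inr (Or.inr (Or.inl ⟨not_lt.1 c2, c3, (Pos_2 H (not_lt.1 c2) c3).1, (Pos_2 H (not_lt.1 c2) c3).2⟩))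
  by_cases c4 : ℓ < 4 * p + 2 * t
  · exact Or.inr (Or.inr (Or.inr (Or.inl ⟨not_lt.1 c3, c4, (Pos_3 H (not_lt.1 c3) c4).1, (Pos_3 H (not_lt.1 c3) c4).2⟩)))
  by_cases c5 : ℓ < b1
  · exact Or.inr (Or.inr (Or.inr (Or.inr (Or.inl ⟨not_lt.1 c4, c5, (Pos_4 H (not_lt.1 c4) c5).1, (Pos_4 H (not_lt.1 c4) c5).2⟩))))
  by_cases c6 : ℓ < b2
  · exact Or.inr (Or.inr (Or.inr (Or.inr (Or.inr (Or.inl ⟨not_lt.1 c5, c6, (Pos_5 H (not_lt.1 c5) c6).1, (Pos_5 H (not_lt.1 c5) c6).2⟩)))))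
  by_cases c7 : ℓ < b3
  · exact Or.inr (Or.inr (Or.inr (Or.inr (Or.inr (Or.inr (Or.inl ⟨not_lt.1 c6, c7, (Pos_6 H (not_lt.1 c6) c7).1, (Pos_6 H (not_lt.1 c6) c7).2⟩))))))
  by_cases c8 : ℓ < b4
  · exact Or.inr (Or.inr (Or.inr (Or.inr (Or.inr (Or.inr (Or.inr (Or.inl ⟨not_lt.1 c7, c8, (Pos_7 H (not_lt.1 c7) c8).1, (Pos_7 H (not_lt.1 c7) c8).2⟩)))))))
  by_cases c9 : ℓ < b5
  · exact Or.inr (Or.inr (Or.inr (Or.inr (Or.inr (Or.inr (Or.inr (Or.inr (Or.inl ⟨not_lt.1 c8, c9, (Pos_8 H (not_lt.1 c8) c9).1, (Pos_8 H (not_lt.1 c8) c9).2⟩))))))))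
  by_cases c10 : ℓ < b6
  · exact Or.inr (Or.inr (Or.inr (Or.inr (Or.inr (Or.inr (Or.inr (Or.inr (Or.inr (Or.inl ⟨not_lt.1 c9, c10, (Pos_9 H (not_lt.1 c9) c10).1, (Pos_9 H (not_lt.1 c9) c10).2⟩)))))))))
  by_cases c11 : ℓ < b7
  · exact Or.inr (Or.inr (Or.inr (Or.inr (Or.inr (Or.inr (Or.inr (Or.inr (Or.inr (Or.inr (Or.inl ⟨not_lt.1 c10, c11, (Pos_10 H (not_lt.1 c10) c11).1, (Pos_10 H (not_lt.1 c10) c11).2⟩))))))))))
  by_cases c12 : ℓ < b7 + 2 * p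
  · exact Or.inr (Or.inr (Or.inr (Or.inr (Or.inr (Or.inr (Or.inr (Or.inr (Or.inr (Or.inr (Or.inr (Or.inl ⟨not_lt.1 c11, c12, (Pos_11 H (not_lt.1 c11) c12).1, (Pos_11 H (not_lt.1 c11) c12).2⟩)))))))))))
  by_cases c13 : ℓ < b7 + 2 * p + κ
  · exact Or.inr (Or.inr (Or.inr (Or.inr (Or.inr (Or.inr (Or.inr (Or.inr (Or.inr (Or.inr (Or.inr (Or.inr (Or.inl ⟨not_lt.1 c12, c13, (Pos_12 H (not_lt.1 c12) c13).1, (Pos_12 H (not_lt.1 c12) c13).2⟩))))))))))))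
  exact Or.inr (Or.inr (Or.inr (Or.inr (Or.inr (Or.inr (Or.inr (Or.inr (Or.inr (Or.inr (Or.inr (Or.inr (Or.inr ⟨not_lt.1 c13, (Pos_13 H (not_lt.1 c13)).1, (Pos_13 H (not_lt.1 c13)).2⟩))))))))))))

theorem Pos_left {p t κ b1 b2 b3 b4 b5 b6 b7 : ℕ} (H : Pos_H p t b1 b2 b3 b4 b5 b6 b7) (ℓ : ℕ) :
    Pos_inv p t κ b1 b2 b3 b4 b5 b6 b7 (Pos_bk p t κ b1 b2 b3 b4 b5 b6 b7 ℓ) (Pos_ix p t κ b1 b2 b3 b4 b5 b6 b7 ℓ) = ℓ := by
  obtain ⟨a1, a2, a3, a4, a5, a6, a7⟩ := id H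
  rcases Pos_all (κ := κ) H ℓ with ⟨h', e, e'⟩ | ⟨h, h', e, e'⟩ | ⟨h, h', e, e'⟩ | ⟨h, h', e, e'⟩ | ⟨h, h', e, e'⟩ | ⟨h, h', e, e'⟩ | ⟨h, h', e, e'⟩ | ⟨h, h', e, e'⟩ | ⟨h, h', e, e'⟩ | ⟨h, h', e, e'⟩ | ⟨h, h', e, e'⟩ | ⟨h, h', e, e'⟩ | ⟨h, h', e, e'⟩ | ⟨h, e, e'⟩
  · rw [e, e']
    unfold Pos_inv
    rw [if_neg (by norm_num), if_neg (by norm_num), if_pos rfl]
    rw [if_pos h']
  · rw [e, e']
    unfold Pos_inv
    rw [if_pos rfl]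
    omega
  · rw [e, e']
    unfold Pos_inv
    rw [if_neg (by norm_num), if_neg (by norm_num), if_pos rfl]
    rw [if_neg (by omega), if_pos (by omega)]
    omega
  · rw [e, e']
    unfold Pos_inv
    rw [if_neg (by norm_num), if_pos rfl]
    omega
  · rw [e, e']
    unfold Pos_inv
    rw [if_neg (by norm_num), if_neg (by norm_num), if_pos rfl]
    rw [if_neg (by omega), if_neg (by omega)]
    omega
  · rw [e, e']
    unfold Pos_inv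
    rw [if_neg (by norm_num), if_neg (by norm_num), if_neg (by norm_num), if_pos rfl]
    omega
  · rw [e, e']
    unfold Pos_inv
    rw [if_neg (by norm_num), if_neg (by norm_num), if_neg (by norm_num), if_neg (by norm_num), if_pos rfl]
    omega
  · rw [e, e']
    unfold Pos_inv
    rw [if_neg (by norm_num), if_neg (by norm_num), if_neg (by norm_num), if_neg (by norm_num), if_neg (by norm_num), if_pos rfl]
    omega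
  · rw [e, e']
    unfold Pos_inv
    rw [if_neg (by norm_num), if_neg (by norm_num), if_neg (by norm_num), if_neg (by norm_num), if_neg (by norm_num), if_neg (by norm_num), if_pos rfl]
    omega
  · rw [e, e']
    unfold Pos_inv
    rw [if_neg (by norm_num), if_neg (by norm_num), if_neg (by norm_num), if_neg (by norm_num), if_neg (by norm_num), if_neg (by norm_num), if_neg (by norm_num), if_pos rfl]
    omega
  · rw [e, e']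
    unfold Pos_inv
    rw [if_neg (by norm_num), if_neg (by norm_num), if_neg (by norm_num), if_neg (by norm_num), if_neg (by norm_num), if_neg (by norm_num), if_neg (by norm_num), if_neg (by norm_num), if_pos rfl]
    omega
  · rw [e, e']
    unfold Pos_inv
    rw [if_neg (by norm_num), if_neg (by norm_num), if_neg (by norm_num), if_neg (by norm_num), if_neg (by norm_num), if_neg (by norm_num), if_neg (by norm_num), if_neg (by norm_num), if_neg (by norm_num), if_pos rfl]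
    rw [if_pos (by omega)]
    omega
  · rw [e, e']
    unfold Pos_inv
    rw [if_neg (by norm_num), if_neg (by norm_num), if_neg (by norm_num), if_neg (by norm_num), if_neg (by norm_num), if_neg (by norm_num), if_neg (by norm_num), if_neg (by norm_num), if_neg (by norm_num), if_neg (by norm_num)]
    omega
  · rw [e, e']
    unfold Pos_inv
    rw [if_neg (by norm_num), if_neg (by norm_num), if_neg (by norm_num), if_neg (by norm_num), if_neg (by norm_num), if_neg (by norm_num), if_neg (by norm_num), if_neg (by norm_num), if_neg (by norm_num), if_pos rfl]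
    rw [if_neg (by omega)]
    omega

theorem Pos_size (L : ℕ) {p t κ b1 b2 b3 b4 b5 b6 b7 : ℕ} (S : ℕ → ℕ) (hS0 : S 0 = t) (hS1 : S 1 = t)
    (hS2 : S 2 = b1 - 2 * t) (hS3 : S 3 = b2 - b1) (hS4 : S 4 = b3 - b2) (hS5 : S 5 = b4 - b3)
    (hS6 : S 6 = b5 - b4) (hS7 : S 7 = b6 - b5) (hS8 : S 8 = b7 - b6) (hS9 : S 9 = L - b7 - κ)
    (hS10 : S 10 = κ) (H : Pos_H p t b1 b2 b3 b4 b5 b6 b7)
    (h7 : b7 + 2 * p + κ ≤ L) (ℓ : ℕ) (hℓ : ℓ < L) :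
    Pos_bk p t κ b1 b2 b3 b4 b5 b6 b7 ℓ ≤ 10 ∧ Pos_ix p t κ b1 b2 b3 b4 b5 b6 b7 ℓ < S (Pos_bk p t κ b1 b2 b3 b4 b5 b6 b7 ℓ) := by
  obtain ⟨a1, a2, a3, a4, a5, a6, a7⟩ := id H
  rcases Pos_all (κ := κ) H ℓ with ⟨h', e, e'⟩ | ⟨h, h', e, e'⟩ | ⟨h, h', e, e'⟩ | ⟨h, h', e, e'⟩ | ⟨h, h', e, e'⟩ | ⟨h, h', e, e'⟩ | ⟨h, h', e, e'⟩ | ⟨h, h', e, e'⟩ | ⟨h, h', e, e'⟩ | ⟨h, h', e, e'⟩ | ⟨h, h', e, e'⟩ | ⟨h, h', e, e'⟩ | ⟨h, h', e, e'⟩ | ⟨h, e, e'⟩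
  · rw [e, e', hS2]
    omega
  · rw [e, e', hS0]
    omega
  · rw [e, e', hS2]
    omega
  · rw [e, e', hS1]
    omega
  · rw [e, e', hS2]
    omega
  · rw [e, e', hS3]
    omega
  · rw [e, e', hS4]
    omega
  · rw [e, e', hS5]
    omega
  · rw [e, e', hS6]
    omega
  · rw [e, e', hS7]
    omega
  · rw [e, e', hS8]
    omega
  · rw [e, e', hS9]
    omega
  · rw [e, e', hS10]
    omega
  · rw [e, e', hS9]
    omega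

theorem Pos_right (L : ℕ) {p t κ b1 b2 b3 b4 b5 b6 b7 : ℕ} (S : ℕ → ℕ) (hS0 : S 0 = t) (hS1 : S 1 = t)
    (hS2 : S 2 = b1 - 2 * t) (hS3 : S 3 = b2 - b1) (hS4 : S 4 = b3 - b2) (hS5 : S 5 = b4 - b3)
    (hS6 : S 6 = b5 - b4) (hS7 : S 7 = b6 - b5) (hS8 : S 8 = b7 - b6) (hS9 : S 9 = L - b7 - κ)
    (hS10 : S 10 = κ) (H : Pos_H p t b1 b2 b3 b4 b5 b6 b7)
    (h7 : b7 + 2 * p + κ ≤ L) (b i : ℕ) (hb : b ≤ 10) (hi : i < S b) :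
    ∃ ℓ < L, Pos_bk p t κ b1 b2 b3 b4 b5 b6 b7 ℓ = b ∧ Pos_ix p t κ b1 b2 b3 b4 b5 b6 b7 ℓ = i := by
  obtain ⟨a1, a2, a3, a4, a5, a6, a7⟩ := id H
  interval_cases b
  · rw [hS0] at hi
    refine ⟨i + 2 * p, by omega, (Pos_1 (κ := κ) H (ℓ := i + 2 * p) (by omega) (by omega)).1, ?_⟩
    rw [(Pos_1 (κ := κ) H (ℓ := i + 2 * p) (by omega) (by omega)).2]
    omega
  · rw [hS1] at hi
    refine ⟨i + (4 * p + t), by omega, (Pos_3 (κ := κ) H (ℓ := i + (4 * p + t)) (by omega) (by omega)).1, ?_⟩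
    rw [(Pos_3 (κ := κ) H (ℓ := i + (4 * p + t)) (by omega) (by omega)).2]
    omega
  · rw [hS2] at hi
    by_cases c1 : i < 2 * p
    · refine ⟨i, by omega, (Pos_0 (κ := κ) H c1).1, (Pos_0 (κ := κ) H c1).2⟩
    · by_cases c2 : i < 4 * p
      · refine ⟨i + t, by omega, (Pos_2 (κ := κ) H (ℓ := i + t) (by omega) (by omega)).1, ?_⟩
        rw [(Pos_2 (κ := κ) H (ℓ := i + t) (by omega) (by omega)).2]
        omega
      · refine ⟨i + 2 * t, by omega, (Pos_4 (κ := κ) H (ℓ := i + 2 * t) (by omega) (by omega)).1, ?_⟩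
        rw [(Pos_4 (κ := κ) H (ℓ := i + 2 * t) (by omega) (by omega)).2]
        omega
  · rw [hS3] at hi
    refine ⟨i + b1, by omega, (Pos_5 (κ := κ) H (ℓ := i + b1) (by omega) (by omega)).1, ?_⟩
    rw [(Pos_5 (κ := κ) H (ℓ := i + b1) (by omega) (by omega)).2]
    omega
  · rw [hS4] at hi
    refine ⟨i + b2, by omega, (Pos_6 (κ := κ) H (ℓ := i + b2) (by omega) (by omega)).1, ?_⟩
    rw [(Pos_6 (κ := κ) H (ℓ := i + b2) (by omega) (by omega)).2]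
    omega
  · rw [hS5] at hi
    refine ⟨i + b3, by omega, (Pos_7 (κ := κ) H (ℓ := i + b3) (by omega) (by omega)).1, ?_⟩
    rw [(Pos_7 (κ := κ) H (ℓ := i + b3) (by omega) (by omega)).2]
    omega
  · rw [hS6] at hi
    refine ⟨i + b4, by omega, (Pos_8 (κ := κ) H (ℓ := i + b4) (by omega) (by omega)).1, ?_⟩
    rw [(Pos_8 (κ := κ) H (ℓ := i + b4) (by omega) (by omega)).2]
    omega
  · rw [hS7] at hi
    refine ⟨i + b5, by omega, (Pos_9 (κ := κ) H (ℓ := i + b5) (by omega) (by omega)).1, ?_⟩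
    rw [(Pos_9 (κ := κ) H (ℓ := i + b5) (by omega) (by omega)).2]
    omega
  · rw [hS8] at hi
    refine ⟨i + b6, by omega, (Pos_10 (κ := κ) H (ℓ := i + b6) (by omega) (by omega)).1, ?_⟩
    rw [(Pos_10 (κ := κ) H (ℓ := i + b6) (by omega) (by omega)).2]
    omega
  · rw [hS9] at hi
    by_cases c1 : i < 2 * p
    · refine ⟨i + b7, by omega, (Pos_11 (κ := κ) H (ℓ := i + b7) (by omega) (by omega)).1, ?_⟩
      rw [(Pos_11 (κ := κ) H (ℓ := i + b7) (by omega) (by omega)).2]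
      omega
    · refine ⟨i + (b7 + κ), by omega, (Pos_13 (κ := κ) H (ℓ := i + (b7 + κ)) (by omega)).1, ?_⟩
      rw [(Pos_13 (κ := κ) H (ℓ := i + (b7 + κ)) (by omega)).2]
      omega
  · rw [hS10] at hi
    refine ⟨i + (b7 + 2 * p), by omega, (Pos_12 (κ := κ) H (ℓ := i + (b7 + 2 * p)) (by omega) (by omega)).1, ?_⟩
    rw [(Pos_12 (κ := κ) H (ℓ := i + (b7 + 2 * p)) (by omega) (by omega)).2]
    omega

theorem pos (L p t κ : ℕ) (h1 : 4 * p + 2 * t ≤ bt L 1) (h2 : bt L 7 + 2 * p + κ ≤ L) :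
    ∃ bk ix : ℕ → ℕ, (∀ ℓ < L, bk ℓ ≤ 10 ∧ ix ℓ < sz L t κ (bk ℓ)) ∧
      (∀ b ≤ 10, ∀ i < sz L t κ b, ∃ ℓ < L, bk ℓ = b ∧ ix ℓ = i) ∧
      (∀ ℓ < L, ∀ ℓ' < L, bk ℓ = bk ℓ' → ix ℓ = ix ℓ' → ℓ = ℓ') ∧
      (∀ ℓ, T1 p t ℓ → bk ℓ = 0) ∧ (∀ ℓ, T2 p t ℓ → bk ℓ = 1) ∧
      (∀ ℓ < L, bk ℓ = 10 → bt L 7 + 2 * p ≤ ℓ ∧ ℓ < bt L 7 + 2 * p + κ) ∧
      (∀ ℓ, bt L 7 + 2 * p ≤ ℓ → ℓ < bt L 7 + 2 * p + κ →
        bk ℓ = 10 ∧ ix ℓ = ℓ - (bt L 7 + 2 * p)) ∧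
      (∀ c < 7, ∀ q, ∀ ℓ < L, bt L c ≤ ℓ → ℓ < bt L (c + 2) →
        (bk ℓ = 10 ∧ c = 6) ∨ fb c q (bk ℓ)) ∧
      ∑ b ∈ range 10, sz L t κ b = L - κ := by
  have hb : ∀ j, bt L j ≤ bt L (j + 1) := by
    intro j
    unfold bt
    apply Nat.div_le_div_right
    apply Nat.mul_le_mul_right
    omega
  have m12 := hb 1
  have m23 := hb 2
  have m34 := hb 3
  have m45 := hb 4
  have m56 := hb 5
  have m67 := hb 6
  norm_num at m12 m23 m34 m45 m56 m67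
  have s0 : sz L t κ 0 = t := by simp [sz]
  have s1 : sz L t κ 1 = t := by simp [sz]
  have s2 : sz L t κ 2 = bt L 1 - 2 * t := by simp [sz]
  have s3 : sz L t κ 3 = bt L 2 - bt L 1 := by simp [sz]
  have s4 : sz L t κ 4 = bt L 3 - bt L 2 := by simp [sz]
  have s5 : sz L t κ 5 = bt L 4 - bt L 3 := by simp [sz]
  have s6 : sz L t κ 6 = bt L 5 - bt L 4 := by simp [sz]
  have s7 : sz L t κ 7 = bt L 6 - bt L 5 := by simp [sz]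
  have s8 : sz L t κ 8 = bt L 7 - bt L 6 := by simp [sz]
  have s9 : sz L t κ 9 = L - bt L 7 - κ := by simp [sz]
  have s10 : sz L t κ 10 = κ := by simp [sz]
  have hsum : ∑ b ∈ range 10, sz L t κ b = L - κ := by
    simp only [sum_range_succ, sum_range_zero, s0, s1, s2, s3, s4, s5, s6, s7, s8, s9]
    omega
  generalize hS : sz L t κ = S at s0 s1 s2 s3 s4 s5 s6 s7 s8 s9 s10 hsum ⊢
  clear hS
  generalize e1 : bt L 1 = b1 at h1 m12 s2 s3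
  generalize e2 : bt L 2 = b2 at m12 m23 s3 s4
  generalize e3 : bt L 3 = b3 at m23 m34 s4 s5
  generalize e4 : bt L 4 = b4 at m34 m45 s5 s6
  generalize e5 : bt L 5 = b5 at m45 m56 s6 s7
  generalize e6 : bt L 6 = b6 at m56 m67 s7 s8
  generalize e7 : bt L 7 = b7 at h2 m67 s8 s9 ⊢
  have H : Pos_H p t b1 b2 b3 b4 b5 b6 b7 := ⟨h1, m12, m23, m34, m45, m56, m67⟩
  refine ⟨Pos_bk p t κ b1 b2 b3 b4 b5 b6 b7, Pos_ix p t κ b1 b2 b3 b4 b5 b6 b7, ?_, ?_, ?_, ?_, ?_,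
    ?_, ?_, ?_, hsum⟩
  · exact Pos_size L S s0 s1 s2 s3 s4 s5 s6 s7 s8 s9 s10 H h2
  · intro b hb' i hi
    exact Pos_right L S s0 s1 s2 s3 s4 s5 s6 s7 s8 s9 s10 H h2 b i hb' hi
  · intro ℓ _ ℓ' _ h h'
    have l1 := Pos_left (κ := κ) H ℓ
    have l2 := Pos_left (κ := κ) H ℓ'
    rw [h, h'] at l1
    exact l1.symm.trans l2
  · intro ℓ h
    exact (Pos_1 H h.1 h.2).1
  · intro ℓ h
    exact (Pos_3 H h.1 h.2).1
  · intro ℓ _ hh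
    rcases Pos_all (κ := κ) H ℓ with ⟨h', e, e'⟩ | ⟨h, h', e, e'⟩ | ⟨h, h', e, e'⟩ | ⟨h, h', e, e'⟩ | ⟨h, h', e, e'⟩ | ⟨h, h', e, e'⟩ | ⟨h, h', e, e'⟩ | ⟨h, h', e, e'⟩ | ⟨h, h', e, e'⟩ | ⟨h, h', e, e'⟩ | ⟨h, h', e, e'⟩ | ⟨h, h', e, e'⟩ | ⟨h, h', e, e'⟩ | ⟨h, e, e'⟩
    all_goals omega
  · intro ℓ h h'
    exact Pos_12 H h h'
  · intro c hc q ℓ hℓ ha hb'
    unfold fb
    interval_cases c
    · norm_num at hb'
      rw [e2] at hb'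
      rcases Pos_all (κ := κ) H ℓ with ⟨h', e, e'⟩ | ⟨h, h', e, e'⟩ | ⟨h, h', e, e'⟩ | ⟨h, h', e, e'⟩ | ⟨h, h', e, e'⟩ | ⟨h, h', e, e'⟩ | ⟨h, h', e, e'⟩ | ⟨h, h', e, e'⟩ | ⟨h, h', e, e'⟩ | ⟨h, h', e, e'⟩ | ⟨h, h', e, e'⟩ | ⟨h, h', e, e'⟩ | ⟨h, h', e, e'⟩ | ⟨h, e, e'⟩
      all_goals omega
    · norm_num at hb'
      rw [e1] at ha
      rw [e3] at hb'
      by_cases c1 : ℓ < b2
      · have := (Pos_5 (κ := κ) H ha c1).1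
        omega
      · have := (Pos_6 (κ := κ) H (by omega) hb').1
        omega
    · norm_num at hb'
      rw [e2] at ha
      rw [e4] at hb'
      by_cases c1 : ℓ < b3
      · have := (Pos_6 (κ := κ) H ha c1).1
        omega
      · have := (Pos_7 (κ := κ) H (by omega) hb').1
        omega
    · norm_num at hb'
      rw [e3] at ha
      rw [e5] at hb'
      by_cases c1 : ℓ < b4
      · have := (Pos_7 (κ := κ) H ha c1).1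
        omega
      · have := (Pos_8 (κ := κ) H (by omega) hb').1
        omega
    · norm_num at hb'
      rw [e4] at ha
      rw [e6] at hb'
      by_cases c1 : ℓ < b5
      · have := (Pos_8 (κ := κ) H ha c1).1
        omega
      · have := (Pos_9 (κ := κ) H (by omega) hb').1
        omega
    · norm_num at hb'
      rw [e5] at ha
      rw [e7] at hb'
      by_cases c1 : ℓ < b6
      · have := (Pos_9 (κ := κ) H ha c1).1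
        omega
      · have := (Pos_10 (κ := κ) H (by omega) hb').1
        omega
    · rw [e6] at ha
      rcases Pos_all (κ := κ) H ℓ with ⟨h', e, e'⟩ | ⟨h, h', e, e'⟩ | ⟨h, h', e, e'⟩ | ⟨h, h', e, e'⟩ | ⟨h, h', e, e'⟩ | ⟨h, h', e, e'⟩ | ⟨h, h', e, e'⟩ | ⟨h, h', e, e'⟩ | ⟨h, h', e, e'⟩ | ⟨h, h', e, e'⟩ | ⟨h, h', e, e'⟩ | ⟨h, h', e, e'⟩ | ⟨h, h', e, e'⟩ | ⟨h, e, e'⟩
      all_goals omega

end Pool.Agent.H2.F2
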