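import Mathlib
import Pool.Agent.H2.F2.Ifu
import Pool.Agent.H2.F2.Blks
import Pool.Agent.H2.F2.Pos
import Pool.Agent.H2.F2.Hyp
import Pool.Agent.H2.F2.Asb
import Pool.Agent.H2.FC.Hal
import Pool.Agent.H2.FC.Blk

/-!
ASM2: the colouring of the defect edges with `Δ + 2 p` labels, uniformly in `p`, from the matchings of the window region.
-/

set_option autoImplicit false

namespace Pool.Agent.H2.F2

open Finset Classical
open Pool.Agent.H71.DN Pool.Agent.H71.DX Pool.Agent.H71.DR Pool.Agent.H71.HL Pool.Agent.H71.DC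
open Pool.Agent.H71.TD Pool.Agent.H2.NE Pool.Agent.H2.FC Pool.Agent.H90.KB Pool.Agent.H90.TDP

/-- The sizes of the ten groups. -/
theorem sz_le (L t κ b : ℕ) (hb : b < 10) (hL : 120 * t ≤ L) (ht : 100 ≤ t)
    (hκ : 100 * κ ≤ t) : t ≤ sz L t κ b ∧ 8 * sz L t κ b ≤ L + 8 := by
  unfold sz bt
  interval_cases b <;> simp <;> omega

theorem asm2 {V : Type} [Fintype V] (G : SimpleGraph V) (Δ p k t κ B0 K1 : ℕ)
    (c x ξ ζ f e1 f1 δ C b1 b2 : ℝ) (ty : ℕ → Prop) (nd qt cl un' : V → ℕ)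
    (sf : ℕ → Finset V)
    (hS : Str G Δ c x ξ ζ f k ty nd sf) (h2 : Spl2 G k ty nd qt cl un' e1 f1)
    (mm : ℕ → V → V) (cw : V → ℕ)
    (hK : KbOut (Fg G k ty nd) nd (2 * k) Δ p (univ.filter fun v => cl v ≠ 6) C κ mm cw)
    (hU : Us (Fg G k ty nd) (pt nd (2 * k)) (20 * k) (Qf nd qt cl) κ mm b1 b2)
    (hκ : κ = 2 * ((pt nd (2 * k)).card + 2 * p)) (hk : 0 < k) (ht : 100 ≤ t)
    (hgt : 120 * t ≤ Δ + 2 * p) (hκt : 100 * κ ≤ t)
    (hb0 : 2 * k * (60000 * (2 * k) + 500 * B0) + (pt nd (2 * k)).card ≤ t)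
    (hξ : 2 * (ξ * Fintype.card V) ≤ t)
    (hB1 : 2 * (f1 * Fintype.card V) + 9 * b1 ≤ B0) (hB2 : f1 * Fintype.card V + b2 ≤ B0)
    (hE : 120 * (11004 * ((2 * k : ℕ) : ℝ) * (pt nd (2 * k)).card + 100 * B0 +
      ((2 * k : ℕ) : ℝ) * (20000 + 200 * B0)) ≤ t)
    (hC : 120 * (C * κ) ≤ t) (hK3 : 3 ≤ K1) (hK1 : 2 * C ≤ K1)
    (h8 : (8 : ℝ) * k ≤ δ * Fintype.card V)
    (h8C : 4 * (k * C) ≤ δ * Fintype.card V)
    (hf : 2 * f * (Fintype.card V : ℝ) ^ 2 ≤ δ * Fintype.card V * t)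
    (hus : 20 * ((K1 + 1) * κ) ≤ Δ) :
    ∃ (φ : ℕ → V → V) (c0 : V → ℕ), FcU G Δ p k ty nd qt cl t K1 δ φ c0 := by
  obtain ⟨F, hFdef⟩ : ∃ F, F = Fg G k ty nd := ⟨_, rfl⟩
  obtain ⟨L, hL⟩ : ∃ L, L = Δ + 2 * p := ⟨_, rfl⟩
  rw [← hFdef] at hK hU
  have hδ0 : 0 ≤ δ * Fintype.card V := le_trans (by positivity) h8
  have hadj' := hK.adj
  have hnd : ∀ v, nd v ≤ 2 * k := hS.le
  have hdeg : ∀ w ∈ pt nd (2 * k), dg F w = Δ := by
    intro w hw
    rw [hFdef]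
    exact fg_lo G Δ c x ξ ζ f k ty nd sf hS w hw
  have hhi : ∀ v, nd v < 2 * k → (dg F v : ℝ) ≤ ξ * Fintype.card V := by
    intro v hv
    rw [hFdef]
    exact fg_hi G Δ c x ξ ζ f k ty nd sf hS v hv
  have hbalF : ∀ i < k, ¬ ty i → ∑ v ∈ pt nd (2 * i), dg F v =
      ∑ v ∈ pt nd (2 * i + 1), dg F v := by
    intro i hi hty
    rw [hFdef]
    exact fg_bal G Δ c x ξ ζ f k ty nd sf hS i hi hty
  have hsmF : ((∑ v ∈ univ.filter fun v => nd v < 2 * k, dg F v : ℕ) : ℝ) ≤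
      f * (Fintype.card V : ℝ) ^ 2 := by
    rw [hFdef]
    exact hS.sm
  obtain ⟨F', hF'⟩ : ∃ F', F' = rmv F mm κ := ⟨_, rfl⟩
  have hFF : F' ≤ F := by rw [hF']; exact rmv_le F mm κ
  obtain ⟨D, hD⟩ : ∃ D, D = L - κ := ⟨_, rfl⟩
  have hκL : κ ≤ L := by omega
  have hDL : D + κ = L := by omega
  have hdeg' : ∀ w ∈ pt nd (2 * k), dg F' w = D := by
    intro w hw
    have h1 := deg_rmv F nd (2 * k) Δ p κ _ C mm cw hK w hw (hdeg w hw)
    rw [hF']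
    omega
  -- the hypotheses of `blks`
  have hH := hyp G k κ ty nd qt cl un' e1 f1 b1 b2 h2 mm hK.inv
    (by rw [← hFdef]; exact hK.adj) hK.dis (by rw [← hFdef]; exact hU) B0 hB1 hB2
  rw [← hFdef, ← hF'] at hH
  obtain ⟨hH1, hH3, hH4⟩ := hH
  obtain ⟨bk, ix, p1, p2, p3, p4, p5, p6, p7, p8, p9⟩ := pos L p t κ
    (by unfold bt; omega) (by unfold bt; omega)
  have hsz : ∀ b < 10, t ≤ sz L t κ b ∧ 8 * sz L t κ b ≤ L + 8 := fun b hb =>
    sz_le L t κ b hb (by omega) ht hκt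
  have hsz0 : sz L t κ 0 = t := by simp [sz]
  have hsz1 : sz L t κ 1 = t := by simp [sz]
  have hsz10 : sz L t κ 10 = κ := by simp [sz]
  obtain ⟨Fb, q1, q2, q3, q4, q5, q6⟩ := blks F' nd cl qt (2 * k) D B0 (sz L t κ) (by omega) hnd
    h2.lt (by rw [p9]; omega) hdeg' (by rw [hsz0]; omega) (by rw [hsz1]; omega)
    (fun b hb => by
      have h1 := (hsz b hb).2
      omega)
    (by omega)
    (fun b hb => le_trans hb0 (hsz b hb).1)
    hH1 hH3 hH4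
  have hpw : ∀ v, v ∉ pt nd (2 * k) → nd v < 2 * k := by
    intro v hv
    have h1 : nd v ≠ 2 * k := fun h => hv (by
      unfold pt
      simp only [mem_filter, mem_univ, true_and]
      exact h)
    have h2 := hnd v
    omega
  have hle2 : ∀ (H : SimpleGraph V), H ≤ F → ∀ a b, a ∉ pt nd (2 * k) →
      b ∉ pt nd (2 * k) → dg H a + dg H b ≤ t := by
    intro H hH a b ha hb
    have h1 := hhi a (hpw a ha)
    have h2 := hhi b (hpw b hb)
    have h3 := dg_mono H _ hH a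
    have h4 := dg_mono H _ hH b
    have h5 : ((dg F a + dg F b : ℕ) : ℝ) ≤ t := by
      push_cast
      linarith
    have h6 : dg F a + dg F b ≤ t := by exact_mod_cast h5
    omega
  -- the balances
  have hDt : t ≤ D := by omega
  have hD0 : (0 : ℝ) < D := by
    have h1 : 0 < D := by omega
    exact_mod_cast h1
  have hbal : ∀ b < 10, ∀ i < k, ¬ ty i → 30 * |∑ v ∈ pt nd (2 * i), (dg (Fb b) v : ℤ) -
      ∑ v ∈ pt nd (2 * i + 1), (dg (Fb b) v : ℤ)| ≤ sz L t κ b := by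
    intro b hb i hi hty
    have h1 := q6 (2 * i) (by omega) b hb
    have h3 := q6 (2 * i + 1) (by omega) b hb
    have h4 := bal_rmv F nd (2 * k) Δ p κ _ C mm cw hK i (by omega) (hbalF i hi hty)
    rw [← hF'] at h4
    have hsb := hsz b hb
    have h5 : (sz L t κ b : ℝ) / D ≤ 1 := by
      rw [div_le_one hD0]
      have h6 : sz L t κ b ≤ D := by omega
      exact_mod_cast h6
    have htb : (t : ℝ) ≤ sz L t κ b := by exact_mod_cast hsb.1
    have h6 := bal_b _ _ _ _ _ _ _ (sz L t κ b : ℝ) h1 h3 h4 (by positivity) h5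
      (le_trans hE htb) (by nlinarith)
    have h7 : (((30 * |∑ v ∈ pt nd (2 * i), (dg (Fb b) v : ℤ) -
      ∑ v ∈ pt nd (2 * i + 1), (dg (Fb b) v : ℤ)| : ℤ)) : ℝ) ≤ ((sz L t κ b : ℤ) : ℝ) := by
      push_cast
      exact h6
    exact_mod_cast h7
  -- the colourings of the blocks
  have hblk : ∀ b, ∃ M : ℕ → V → V, b < 10 → Col (Fb b) (sz L t κ b) M ∧
      (∀ ℓ < sz L t κ b, sz L t κ b * (univ.filter fun v => nd v < 2 * k ∧ M ℓ v ≠ v).card ≤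
        ∑ v ∈ univ.filter (fun v => nd v < 2 * k), dg (Fb b) v + 4 * k * sz L t κ b) ∧
      ∀ i < k, ¬ ty i → (∀ ℓ < sz L t κ b, |uu nd (M ℓ) i| ≤ 3) ∧
        10 * ∑ ℓ ∈ range (sz L t κ b), max 0 (-uu nd (M ℓ) i) ≤ 7 * sz L t κ b := by
    intro b
    by_cases hb : b < 10
    · have hsb := hsz b hb
      obtain ⟨M0, hM0⟩ := hal (Fb b) (pt nd (2 * k)) (sz L t κ b) (fun w hw => q5 w hw b hb)
        (fun a a' _ ha ha' => le_trans (hle2 (Fb b) ((q1 b hb).trans hFF) a a' ha ha') hsb.1)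
        (by omega)
      obtain ⟨M, hM1, hM2, hM3⟩ := blk (Fb b) nd k (sz L t κ b) M0 hM0
      exact ⟨M, fun _ => ⟨hM1, hM2, fun i hi hty => hM3 i hi (hbal b hb i hi hty)⟩⟩
    · exact ⟨fun _ => id, fun h => absurd h hb⟩
  choose M hM using hblk
  -- the colouring
  obtain ⟨φ, hφ⟩ : ∃ φ : ℕ → V → V, ∀ ℓ, φ ℓ = if bk ℓ < 10 then M (bk ℓ) (ix ℓ) else mm (ix ℓ) :=
    ⟨_, fun _ => rfl⟩
  have hφ1 : ∀ ℓ, bk ℓ < 10 → φ ℓ = M (bk ℓ) (ix ℓ) := fun ℓ h => by rw [hφ, if_pos h]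
  have hφ2 : ∀ ℓ, bk ℓ = 10 → φ ℓ = mm (ix ℓ) := fun ℓ h => by rw [hφ, if_neg (by omega)]
  have hc10 : ∀ ℓ < L, bk ℓ < 10 ∨ bk ℓ = 10 := fun ℓ hℓ => by
    have h1 := (p1 ℓ hℓ).1
    omega
  have hix : ∀ ℓ < L, bk ℓ = 10 → ix ℓ < κ := by
    intro ℓ hℓ h
    have h1 := (p1 ℓ hℓ).2
    rw [h, hsz10] at h1
    exact h1
  have hbtL : ∀ j ≤ 8, bt L j ≤ L := by
    intro j hj
    unfold bt
    have h1 : j * L ≤ 8 * L := Nat.mul_le_mul_right L hj
    omega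
  -- the edge of a label
  have hed : ∀ ℓ < L, bk ℓ < 10 → ∀ v, φ ℓ v ≠ v → (Fb (bk ℓ)).Adj v (φ ℓ v) := by
    intro ℓ hℓ h v hv
    rw [hφ1 ℓ h] at hv ⊢
    exact (hM (bk ℓ) h).1.adj (ix ℓ) (p1 ℓ hℓ).2 v hv
  have hnofb : ∀ ℓ < L, bk ℓ < 10 → ∀ v, nd v < 2 * k → fb (cl v) (qt v) (bk ℓ) → φ ℓ v = v := by
    intro ℓ hℓ h v hv hfb
    by_contra hne
    exact q4 (bk ℓ) h _ _ (hed ℓ hℓ h v hne) hv hfb
  refine ⟨φ, fun w => cw w + (bt L 7 + 2 * p), ?_⟩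
  refine ⟨?_, ?_, ?_, ?_, ?_, ?_, ?_, ?_, ?_, ?_, ?_, ?_, ?_, ?_⟩
  · -- inv
    intro ℓ hℓ
    rw [← hL] at hℓ
    rcases hc10 ℓ hℓ with h | h
    · rw [hφ1 ℓ h]
      exact (hM (bk ℓ) h).1.inv (ix ℓ) (p1 ℓ hℓ).2
    · rw [hφ2 ℓ h]
      exact hK.inv (ix ℓ) (hix ℓ hℓ h)
  · -- adj
    intro ℓ hℓ v hv
    rw [← hL] at hℓ
    rw [← hFdef]
    rcases hc10 ℓ hℓ with h | h
    · exact hFF (q1 (bk ℓ) h (hed ℓ hℓ h v hv))
    · rw [hφ2 ℓ h] at hv ⊢
      exact hK.adj (ix ℓ) (hix ℓ hℓ h) v hv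
  · -- dis
    intro i hi j hj hij v hv heq
    rw [← hL] at hi hj
    have hvj : φ j v ≠ v := by rw [← heq]; exact hv
    rcases hc10 i hi with h | h
    · rcases hc10 j hj with h' | h'
      · by_cases hbb : bk i = bk j
        · have h1 : ix i ≠ ix j := fun h1 => hij (p3 i hi j hj hbb h1)
          rw [hφ1 i h] at hv heq
          rw [hφ1 j h', ← hbb] at heq
          have h3 := (p1 j hj).2
          rw [← hbb] at h3
          exact (hM (bk i) h).1.dis (ix i) (p1 i hi).2 (ix j) h3 h1 v hv heq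
        · have h3 := hed i hi h v hv
          have h4 := hed j hj h' v hvj
          rw [← heq] at h4
          exact q3 (bk i) h (bk j) h' hbb _ _ h3 h4
      · have h3 := q1 (bk i) h (hed i hi h v hv)
        rw [hF'] at h3
        have h4 := (h3.2 (ix j) (hix j hj h')).1
        rw [heq, hφ2 j h'] at h4
        exact h4 rfl
    · rcases hc10 j hj with h' | h'
      · have h3 := q1 (bk j) h' (hed j hj h' v hvj)
        rw [hF'] at h3
        have h4 := (h3.2 (ix i) (hix i hi h)).1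
        rw [← heq, hφ2 i h] at h4
        exact h4 rfl
      · have h1 : ix i ≠ ix j := fun h1 => hij (p3 i hi j hj (by omega) h1)
        rw [hφ2 i h] at hv heq
        rw [hφ2 j h'] at heq
        exact hK.dis (ix i) (hix i hi h) (ix j) (hix j hj h') h1 v hv heq
  · -- cov
    intro a b hab
    rw [← hFdef] at hab
    rw [← hL]
    by_cases h1 : ∃ ℓ < κ, mm ℓ a = b
    · obtain ⟨i, hi, h3⟩ := h1
      obtain ⟨ℓ, hℓ, h4, h5⟩ := p2 10 le_rfl i (by rw [hsz10]; exact hi)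
      refine ⟨ℓ, hℓ, ?_⟩
      rw [hφ2 ℓ h4, h5]
      exact h3
    · have h3 : F'.Adj a b := by
        rw [hF']
        refine ⟨hab, fun ℓ hℓ => ⟨fun h => h1 ⟨ℓ, hℓ, h⟩, fun h => h1 ⟨ℓ, hℓ, ?_⟩⟩⟩
        rw [← h]
        exact hK.inv ℓ hℓ b
      obtain ⟨b', hb', h4⟩ := q2 a b h3
      obtain ⟨i, hi, h5⟩ := (hM b' hb').1.cov a b h4
      obtain ⟨ℓ, hℓ, h6, h7⟩ := p2 b' (by omega) i hi
      refine ⟨ℓ, hℓ, ?_⟩
      rw [hφ1 ℓ (by omega), h6, h7]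
      exact h5
  · -- t1
    intro ℓ hℓ v hv hq
    have h1 := p4 ℓ hℓ
    have h3 : ℓ < L := by
      have h4 := hℓ.2
      omega
    refine hnofb ℓ h3 (by omega) v hv ?_
    rw [h1]
    exact Or.inl ⟨rfl, Or.inl hq⟩
  · -- t2
    intro ℓ hℓ v hv hq
    have h1 := p5 ℓ hℓ
    have h3 : ℓ < L := by
      have h4 := hℓ.2
      omega
    refine hnofb ℓ h3 (by omega) v hv ?_
    rw [h1]
    exact Or.inr (Or.inl ⟨rfl, Or.inl hq⟩)
  · -- av
    intro v hv ℓ h1 h3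
    rw [← hL] at h1 h3
    have h4 : cl v < 7 := h2.lt v
    have h5 : ℓ < L := lt_of_lt_of_le h3 (hbtL _ (by omega))
    rcases p8 (cl v) h4 (qt v) ℓ h5 h1 h3 with h6 | h6
    · rw [hφ2 ℓ h6.1]
      by_contra hne
      have h7 := hK.al (ix ℓ) (hix ℓ h5 h6.1) v hne hv
      rw [mem_filter] at h7
      exact h7.2 h6.2
    · rcases hc10 ℓ h5 with h | h
      · exact hnofb ℓ h5 h v hv h6
      · exfalso
        rw [h] at h6
        unfold fb at h6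
        omega
  · -- c1
    intro w hw
    have h1 := hK.c1 w hw
    rw [← hL]
    constructor <;> omega
  · -- c2
    intro w hw w' hw' h
    exact hK.c2 w hw w' hw' (by omega)
  · -- c3
    intro w hw ℓ h1 h3
    have h4 := hK.c1 w hw
    have h5 := p7 ℓ (by omega) (by omega)
    have h6 : ix ℓ < κ := by omega
    rw [hφ2 ℓ h5.1]
    exact (hK.c3 w hw (ix ℓ) h6).2 (by omega)
  · -- sm
    intro ℓ hℓ
    rw [← hL] at hℓ
    rcases hc10 ℓ hℓ with h | h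
    · rw [hφ1 ℓ h]
      exact sm_blk F (Fb (bk ℓ)) ((q1 (bk ℓ) h).trans hFF) nd k (sz L t κ (bk ℓ)) t f δ
        (by omega) (hsz (bk ℓ) h).1 _ ((hM (bk ℓ) h).2.1 (ix ℓ) (p1 ℓ hℓ).2) hsmF h8 hf
    · rw [hφ2 ℓ h]
      refine sm_kb F nd (2 * k) Δ p κ _ C mm cw hK f δ (by omega) hsmF ?_ ?_ (ix ℓ)
        (hix ℓ hℓ h)
      · push_cast
        linarith
      · refine le_trans hf (mul_le_mul_of_nonneg_left ?_ hδ0)
        have h3 : t ≤ Δ := by omega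
        exact_mod_cast h3
  · -- ub
    intro i hi hty ℓ hℓ
    rw [← hL] at hℓ
    have h1 : ℓ < L := lt_of_lt_of_le hℓ (hbtL 7 (by omega))
    rcases hc10 ℓ h1 with h | h
    · rw [hφ1 ℓ h]
      exact ((hM (bk ℓ) h).2.2 i hi hty).1 (ix ℓ) (p1 ℓ h1).2
    · exfalso
      have h3 := p6 ℓ h1 h
      omega
  · -- uK
    intro i hi hty ℓ hℓ
    rw [← hL] at hℓ
    rcases hc10 ℓ hℓ with h | h
    · rw [hφ1 ℓ h]
      have h3 := ((hM (bk ℓ) h).2.2 i hi hty).1 (ix ℓ) (p1 ℓ hℓ).2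
      omega
    · rw [hφ2 ℓ h]
      have h3 := uu_kb F nd (2 * k) Δ p κ _ C mm cw hK i (by omega) (hbalF i hi hty) (ix ℓ)
        (hix ℓ hℓ h)
      have h4 : ((|uu nd (mm (ix ℓ)) i| : ℤ) : ℝ) ≤ ((K1 : ℤ) : ℝ) := by
        push_cast at h3 ⊢
        linarith
      exact_mod_cast h4
  · -- us
    intro i hi hty
    rw [← hL]
    obtain ⟨g, hg⟩ : ∃ g : ℕ → ℕ → ℤ, ∀ b j, g b j = if b < 10 then max 0 (-uu nd (M b j) i) else
      max 0 (-uu nd (mm j) i) := ⟨_, fun _ _ => rfl⟩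
    have h1 : ∑ ℓ ∈ range L, max 0 (-uu nd (φ ℓ) i) = ∑ ℓ ∈ range L, g (bk ℓ) (ix ℓ) := by
      refine sum_congr rfl fun ℓ _ => ?_
      rw [hg, hφ ℓ]
      split_ifs <;> rfl
    have h3 := sum_pos L 11 (sz L t κ) bk ix g
      (fun ℓ hℓ => ⟨by have := (p1 ℓ hℓ).1; omega, (p1 ℓ hℓ).2⟩)
      (fun b hb j hj => p2 b (by omega) j hj) p3
    rw [h1, h3, sum_range_succ, hsz10]
    have h4 : ∀ b ∈ range 10, 10 * ∑ j ∈ range (sz L t κ b), g b j ≤ 7 * (sz L t κ b : ℤ) := by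
      intro b hb
      rw [mem_range] at hb
      have h5 := ((hM b hb).2.2 i hi hty).2
      have h6 : ∑ j ∈ range (sz L t κ b), g b j =
          ∑ j ∈ range (sz L t κ b), max 0 (-uu nd (M b j) i) :=
        sum_congr rfl fun j _ => by rw [hg, if_pos hb]
      rw [h6]
      exact h5
    have h5 : 10 * ∑ b ∈ range 10, ∑ j ∈ range (sz L t κ b), g b j ≤ 7 * ((L - κ : ℕ) : ℤ) := by
      rw [mul_sum, ← p9]
      push_cast
      rw [mul_sum]
      exact sum_le_sum h4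
    have h6 : ∑ j ∈ range κ, g 10 j ≤ (κ : ℤ) * K1 := by
      calc ∑ j ∈ range κ, g 10 j ≤ ∑ j ∈ range κ, (K1 : ℤ) := by
            refine sum_le_sum fun j hj => ?_
            rw [mem_range] at hj
            rw [hg, if_neg (by omega)]
            have h7 := uu_kb F nd (2 * k) Δ p κ _ C mm cw hK i (by omega) (hbalF i hi hty) j hj
            have h8 : ((|uu nd (mm j) i| : ℤ) : ℝ) ≤ ((K1 : ℤ) : ℝ) := by
              push_cast at h7 ⊢
              linarith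
            have h9 : |uu nd (mm j) i| ≤ (K1 : ℤ) := by exact_mod_cast h8
            have h10 := abs_le.1 h9
            rw [max_le_iff]
            constructor <;> omega
        _ = (κ : ℤ) * K1 := by
            rw [sum_const, card_range, nsmul_eq_mul]
    have h7 : (20 : ℤ) * ((K1 + 1) * κ) ≤ Δ := by exact_mod_cast hus
    have h8 : ((L - κ : ℕ) : ℤ) = Δ + 2 * p - κ := by omega
    have h9 : (4 : ℤ) * p ≤ κ := by omega
    rw [h8] at h5
    have h10 : (20 : ℤ) * (κ * K1) + 20 * κ ≤ Δ := by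
      have : (20 : ℤ) * ((K1 + 1) * κ) = 20 * (κ * K1) + 20 * κ := by ring
      linarith
    have h11 : (0 : ℤ) ≤ κ * K1 := by positivity
    linarith

end Pool.Agent.H2.F2
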