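import Mathlib
import Pool.Agent.H2.F2.Ifu
import Pool.Agent.H2.FC.Fgs

/-!
ZK: the vertices outside the class `6` carry enough of the edges. Use the STATEMENT of `fg_dgi` (`FC/Fgs.lean`: `dgi (Fg ..) S w = dgi G S w` for `w` in the exceptional piece).

Proof.  `F := Fg G k ty nd`, `Z := {v : cl v ≠ 6}`. First claim: for `w ∈ pt nd (2 k)`, `P < 2 k`: `a := dgi F (pt nd P) w`, `a6 := dgi F {v ∈ pt nd P : cl v = 6} w`, `aZ := dgi F (pt nd P ∩ Z) w`: `a = aZ + a6`, `e := 6 a6 - a` (natural subtraction): `a - 7 aZ ≤ 2 e` (omega); the sum over `w, P` is at most `2 *` (the sum in `g1`, terms `j = 6`).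
Second claim: `A := ee F (pt nd P) (pt nd P') = ∑_{j < 7} ∑_{j' < 7} ee F (P ∩ j) (P' ∩ j')` (all classes are `< 7`), and `ee F (P ∩ Z) (P' ∩ Z)` is the sum of the terms with `j, j' < 6`; the other `13` terms (`j = 6` or `j' = 6`) are at most `(A + f1 n) / 36` each. So `ee F (P ∩ Z) (P' ∩ Z) ≥ A - 13 (A + f1 n) / 36`, and `A ≤ 2 ee F (P ∩ Z) (P' ∩ Z) + f1 n`
(`46 / 36 ≥ 1`, `26 / 36 ≤ 1`; `A ≥ 0`, and `f1 n ≥ 0` follows from `g1`). It is simpler to decompose only by `Z` and its complement: `A = ee (P ∩ Z) (P' ∩ Z) + ∑_{j' < 7} ee (P ∩ 6) (P' ∩ j') + ∑_{j < 6} ee (P ∩ j) (P' ∩ 6)`.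
-/

set_option autoImplicit false

namespace Pool.Agent.H2.F2

open Finset Classical
open Pool.Agent.H71.DN Pool.Agent.H71.HL Pool.Agent.H71.DC Pool.Agent.H71.TD

private lemma F2Zk_ee {V : Type} [Fintype V] (G : SimpleGraph V) (A B : Finset V) :
    ee G A B = ∑ a ∈ A, ∑ b ∈ B, if G.Adj a b then 1 else 0 := by
  unfold ee
  rw [card_filter, sum_product]

private lemma F2Zk_r {V : Type} [Fintype V] (G : SimpleGraph V) (A B : Finset V) (cl : V → ℕ)
    (m : ℕ) (h : ∀ v ∈ B, cl v < m) :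
    ee G A B = ∑ j ∈ range m, ee G A (B.filter fun v => cl v = j) := by
  simp only [F2Zk_ee]
  conv_rhs => rw [sum_comm]
  refine sum_congr rfl fun a _ => ?_
  exact (sum_fiberwise_of_maps_to (fun v hv => mem_range.2 (h v hv)) _).symm

private lemma F2Zk_l {V : Type} [Fintype V] (G : SimpleGraph V) (A B : Finset V) (cl : V → ℕ)
    (m : ℕ) (h : ∀ v ∈ A, cl v < m) :
    ee G A B = ∑ j ∈ range m, ee G (A.filter fun v => cl v = j) B := by
  simp only [F2Zk_ee]
  rw [sum_fiberwise_of_maps_to (fun v hv => mem_range.2 (h v hv))]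

private lemma F2Zk_int {V : Type} [Fintype V] (A : Finset V) (cl : V → ℕ) :
    (A ∩ univ.filter fun v => cl v ≠ 6) = A.filter fun v => ¬ cl v = 6 := by
  ext v
  simp

private lemma F2Zk_s1 {V : Type} [Fintype V] (G : SimpleGraph V) (A B : Finset V) (cl : V → ℕ) :
    ee G A B = ee G (A ∩ univ.filter fun v => cl v ≠ 6) B +
      ee G (A.filter fun v => cl v = 6) B := by
  rw [F2Zk_int]
  simp only [F2Zk_ee]
  rw [add_comm, sum_filter_add_sum_filter_not]

private lemma F2Zk_s2 {V : Type} [Fintype V] (G : SimpleGraph V) (A B : Finset V) (cl : V → ℕ) :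
    ee G A B = ee G A (B ∩ univ.filter fun v => cl v ≠ 6) +
      ee G A (B.filter fun v => cl v = 6) := by
  rw [F2Zk_int]
  simp only [F2Zk_ee]
  rw [← sum_add_distrib]
  refine sum_congr rfl fun a _ => ?_
  rw [add_comm, sum_filter_add_sum_filter_not]

private lemma F2Zk_sub {V : Type} [Fintype V] (A : Finset V) (cl : V → ℕ) (j : ℕ) (hj : j < 6) :
    ((A ∩ univ.filter fun v => cl v ≠ 6).filter fun v => cl v = j) =
      A.filter fun v => cl v = j := by
  ext v
  simp only [mem_filter, mem_inter, mem_univ, true_and]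
  constructor
  · rintro ⟨⟨h1, -⟩, h3⟩
    exact ⟨h1, h3⟩
  · rintro ⟨h1, h3⟩
    exact ⟨⟨h1, by omega⟩, h3⟩

private lemma F2Zk_dgi {V : Type} [Fintype V] (G : SimpleGraph V) (A : Finset V) (cl : V → ℕ)
    (w : V) : dgi G A w = dgi G (A ∩ univ.filter fun v => cl v ≠ 6) w +
      dgi G (A.filter fun v => cl v = 6) w := by
  rw [F2Zk_int]
  unfold dgi
  rw [filter_filter, filter_filter, ← card_union_of_disjoint]
  · congr 1
    ext v
    simp only [mem_filter, mem_union]
    tauto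
  · rw [disjoint_left]
    intro v h1 h2
    exact (mem_filter.1 h1).2.1 (mem_filter.1 h2).2.1

theorem zk {V : Type} [Fintype V] (G : SimpleGraph V) (k : ℕ) (ty : ℕ → Prop)
    (nd qt cl un' : V → ℕ) (e1 f1 : ℝ) (hS : Spl2 G k ty nd qt cl un' e1 f1) (B : ℕ)
    (hB : 2 * (f1 * Fintype.card V) ≤ B) :
    (∑ w ∈ pt nd (2 * k), ∑ P ∈ range (2 * k),
      (dgi (Fg G k ty nd) (pt nd P) w -
        7 * dgi (Fg G k ty nd) (pt nd P ∩ univ.filter fun v => cl v ≠ 6) w) ≤ B) ∧
    ∀ P < 2 * k, ∀ P' < 2 * k, ee (Fg G k ty nd) (pt nd P) (pt nd P') ≤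
      2 * ee (Fg G k ty nd) (pt nd P ∩ univ.filter fun v => cl v ≠ 6)
        (pt nd P' ∩ univ.filter fun v => cl v ≠ 6) + B := by
  have hf : 0 ≤ f1 * (Fintype.card V : ℝ) := le_trans (Nat.cast_nonneg _) hS.g1
  constructor
  · have h1 : ∑ w ∈ pt nd (2 * k), ∑ P ∈ range (2 * k),
        (dgi (Fg G k ty nd) (pt nd P) w -
          7 * dgi (Fg G k ty nd) (pt nd P ∩ univ.filter fun v => cl v ≠ 6) w) ≤
        2 * ∑ w ∈ pt nd (2 * k), ∑ P ∈ range (2 * k), ∑ j ∈ range 7,
          (6 * dgi G ((pt nd P).filter fun v => cl v = j) w - dgi G (pt nd P) w) := by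
      rw [mul_sum]
      refine sum_le_sum fun w hw => ?_
      rw [mul_sum]
      refine sum_le_sum fun P _ => ?_
      have h2 : 6 * dgi G ((pt nd P).filter fun v => cl v = 6) w - dgi G (pt nd P) w ≤
          ∑ j ∈ range 7,
            (6 * dgi G ((pt nd P).filter fun v => cl v = j) w - dgi G (pt nd P) w) :=
        single_le_sum (f := fun j => 6 * dgi G ((pt nd P).filter fun v => cl v = j) w -
          dgi G (pt nd P) w) (fun j _ => Nat.zero_le _) (mem_range.2 (by norm_num))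
      rw [Pool.Agent.H2.FC.fg_dgi G k ty nd w hw, Pool.Agent.H2.FC.fg_dgi G k ty nd w hw]
      have h3 := F2Zk_dgi G (pt nd P) cl w
      omega
    have h4 : ((∑ w ∈ pt nd (2 * k), ∑ P ∈ range (2 * k), ∑ j ∈ range 7,
          (6 * dgi G ((pt nd P).filter fun v => cl v = j) w - dgi G (pt nd P) w) : ℕ) : ℝ) ≤
        f1 * Fintype.card V := hS.g1
    have h5 : ((2 * ∑ w ∈ pt nd (2 * k), ∑ P ∈ range (2 * k), ∑ j ∈ range 7,
          (6 * dgi G ((pt nd P).filter fun v => cl v = j) w - dgi G (pt nd P) w) : ℕ) : ℝ) ≤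
        (B : ℝ) := by
      rw [Nat.cast_mul, Nat.cast_ofNat]
      linarith
    exact h1.trans (by exact_mod_cast h5)
  · intro P hP P' hP'
    obtain ⟨F, hF⟩ : ∃ F, F = Fg G k ty nd := ⟨_, rfl⟩
    have hg := hS.g3 P hP P' hP'
    rw [← hF] at hg ⊢
    have e1 := F2Zk_s1 F (pt nd P) (pt nd P') cl
    have e2 := F2Zk_s2 F (pt nd P ∩ univ.filter fun v => cl v ≠ 6) (pt nd P') cl
    have e3 := F2Zk_r F ((pt nd P).filter fun v => cl v = 6) (pt nd P') cl 7 (fun v _ => hS.lt v)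
    have e4 := F2Zk_l F (pt nd P ∩ univ.filter fun v => cl v ≠ 6)
      ((pt nd P').filter fun v => cl v = 6) cl 6 (fun v hv => by
        have h1 := hS.lt v
        have h2 : cl v ≠ 6 := (mem_filter.1 (mem_inter.1 hv).2).2
        omega)
    have e5 : ∑ j ∈ range 6, ee F ((pt nd P ∩ univ.filter fun v => cl v ≠ 6).filter
        fun v => cl v = j) ((pt nd P').filter fun v => cl v = 6) =
        ∑ j ∈ range 6, ee F ((pt nd P).filter fun v => cl v = j)
          ((pt nd P').filter fun v => cl v = 6) :=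
      sum_congr rfl fun j hj => by rw [F2Zk_sub _ _ _ (mem_range.1 hj)]
    rw [e5] at e4
    have b1 : 36 * (ee F ((pt nd P).filter fun v => cl v = 6) (pt nd P') : ℝ) ≤
        7 * ((ee F (pt nd P) (pt nd P') : ℝ) + f1 * Fintype.card V) := by
      rw [e3, Nat.cast_sum, mul_sum]
      refine (sum_le_sum (g := fun _ => (ee F (pt nd P) (pt nd P') : ℝ) +
        f1 * Fintype.card V) fun j hj => hg 6 (by norm_num) j (mem_range.1 hj)).trans ?_
      rw [sum_const, card_range, nsmul_eq_mul, Nat.cast_ofNat]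
    have b2 : 36 * (ee F (pt nd P ∩ univ.filter fun v => cl v ≠ 6)
        ((pt nd P').filter fun v => cl v = 6) : ℝ) ≤
        6 * ((ee F (pt nd P) (pt nd P') : ℝ) + f1 * Fintype.card V) := by
      rw [e4, Nat.cast_sum, mul_sum]
      refine (sum_le_sum (g := fun _ => (ee F (pt nd P) (pt nd P') : ℝ) +
        f1 * Fintype.card V) fun j hj => hg j
          (lt_trans (mem_range.1 hj) (by norm_num)) 6 (by norm_num)).trans ?_
      rw [sum_const, card_range, nsmul_eq_mul, Nat.cast_ofNat]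
    have e6 : (ee F (pt nd P) (pt nd P') : ℝ) =
        (ee F (pt nd P ∩ univ.filter fun v => cl v ≠ 6)
          (pt nd P' ∩ univ.filter fun v => cl v ≠ 6) : ℝ) +
        (ee F (pt nd P ∩ univ.filter fun v => cl v ≠ 6)
          ((pt nd P').filter fun v => cl v = 6) : ℝ) +
        (ee F ((pt nd P).filter fun v => cl v = 6) (pt nd P') : ℝ) := by
      have h7 := e1
      rw [e2] at h7
      exact_mod_cast h7
    have h8 : (0 : ℝ) ≤ (ee F (pt nd P ∩ univ.filter fun v => cl v ≠ 6)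
          (pt nd P' ∩ univ.filter fun v => cl v ≠ 6) : ℝ) := Nat.cast_nonneg _
    have h9 : (ee F (pt nd P) (pt nd P') : ℝ) ≤
        2 * (ee F (pt nd P ∩ univ.filter fun v => cl v ≠ 6)
          (pt nd P' ∩ univ.filter fun v => cl v ≠ 6) : ℝ) + B := by linarith
    exact_mod_cast h9

end Pool.Agent.H2.F2
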