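import Mathlib
import Pool.Agent.H2.F2.Asm2
import Pool.Agent.H2.F2.Zk
import Pool.Agent.H90.KB.Kb

/-!
FC2: the colouring of the defect edges with `Δ + 2 p` labels, uniformly in `p ≤ ε n`.
-/

set_option autoImplicit false

namespace Pool.Agent.H2.F2

open Finset Classical
open Pool.Agent.H71.DN Pool.Agent.H71.DX Pool.Agent.H71.DR Pool.Agent.H71.HL Pool.Agent.H71.DC
open Pool.Agent.H71.TD Pool.Agent.H2.NE Pool.Agent.H2.FC Pool.Agent.H90.KB Pool.Agent.H90.TDP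

theorem Qf_lt {V : Type} [Fintype V] (nd qt cl : V → ℕ) (k j : ℕ) (hj : j < 20 * k) :
    ∀ v ∈ Qf nd qt cl j, nd v < 2 * k := by
  intro v hv
  have h1 : nd v = j / 10 := by
    unfold Qf at hv
    split_ifs at hv
    · exact (mem_filter.1 (mem_filter.1 hv).1).2
    · exact (mem_filter.1 (mem_filter.1 hv).1).2
    · exact (mem_filter.1 (mem_filter.1 hv).1).2
    · exact (mem_filter.1 hv).2
  omega

theorem fc2 (c : ℝ) (hc : 0 < c) (hc1 : c ≤ 1) : ∃ K1 : ℕ, ∀ g : ℕ, 10 ≤ g →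
    ∃ f1 ξ0 ε : ℝ, 0 < f1 ∧ 0 < ξ0 ∧ 0 < ε ∧ ∀ δ : ℝ, 0 < δ → ∃ (f0 : ℝ) (n0 : ℕ), 0 < f0 ∧
      ∀ (V : Type) [Fintype V] (G : SimpleGraph V) (Δ p k : ℕ) (x ξ ζ f e1 : ℝ)
        (ty : ℕ → Prop) (nd qt cl un : V → ℕ) (sf : ℕ → Finset V), n0 ≤ Fintype.card V →
        c * Fintype.card V ≤ Δ → (p : ℝ) ≤ ε * Fintype.card V → 0 ≤ ξ → ξ ≤ ξ0 → 0 ≤ f →
        f ≤ f0 → Str G Δ c x ξ ζ f k ty nd sf → Spl2 G k ty nd qt cl un e1 f1 →
        ∃ (φ : ℕ → V → V) (c0 : V → ℕ),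
          FcU G Δ p k ty nd qt cl ((Δ + 2 * p - 2) / (12 * g)) K1 δ φ c0 := by
  obtain ⟨C, hCdef⟩ : ∃ C : ℝ, C = 1000 / c ^ 2 := ⟨_, rfl⟩
  have hc2 : 0 < c ^ 2 := by positivity
  have hC0 : 0 < C := by rw [hCdef]; positivity
  have hCc : C * c ^ 2 = 1000 := by rw [hCdef]; field_simp
  have hC1 : 1000 ≤ C := by
    rw [hCdef, le_div_iff₀ hc2]
    nlinarith
  obtain ⟨K1, hK1⟩ := exists_nat_ge (2 * C)
  have hK1a : (2000 : ℝ) ≤ K1 := by linarith
  refine ⟨K1, fun g hg => ?_⟩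
  have hg' : (10 : ℝ) ≤ g := by exact_mod_cast hg
  have hg0 : (0 : ℝ) < g := by linarith
  obtain ⟨s, hs⟩ : ∃ s : ℝ, s = c / (48 * g) := ⟨_, rfl⟩
  have hs0 : 0 < s := by rw [hs]; positivity
  have hsg : s * (48 * g) = c := by rw [hs]; field_simp
  have hs1 : 480 * s ≤ c := by nlinarith
  have hs2 : s ≤ 1 := by linarith
  -- the constants
  obtain ⟨σ, hσ⟩ : ∃ σ : ℝ, σ = c * s / 10 ^ 6 := ⟨_, rfl⟩
  have hσ0 : 0 < σ := by rw [hσ]; positivity
  obtain ⟨ω, hω⟩ : ∃ ω : ℝ, ω = min (c ^ 2 * s * σ / 10 ^ 8)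
    (min (s / (120 * C)) (c / (20 * (K1 + 1)))) := ⟨_, rfl⟩
  have hω0 : 0 < ω := by rw [hω]; positivity
  have hω1 : ω ≤ c ^ 2 * s * σ / 10 ^ 8 := by rw [hω]; exact min_le_left _ _
  have hω2 : ω ≤ s / (120 * C) := by
    rw [hω]; exact (min_le_right _ _).trans (min_le_left _ _)
  have hω3 : ω ≤ c / (20 * (K1 + 1)) := by
    rw [hω]; exact (min_le_right _ _).trans (min_le_right _ _)
  refine ⟨σ / 32, s / 2, ω / 8, by positivity, by positivity, by positivity, fun δ hδ => ?_⟩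
  obtain ⟨n1, hn1⟩ := exists_nat_ge (48 * g / c)
  obtain ⟨n2, hn2⟩ := exists_nat_ge (10 ^ 9 / (c ^ 2 * s))
  obtain ⟨n3, hn3⟩ := exists_nat_ge (16 * C / (c * δ))
  obtain ⟨n4, hn4⟩ := exists_nat_ge (10 ^ 3 / σ)
  refine ⟨min (min (ω / 4) (δ * s / 2)) (c * σ / 10 ^ 7), n1 + n2 + n3 + n4 + 1,
    by positivity, ?_⟩
  intro V _ G Δ p k x ξ ζ f e1 ty nd qt cl un sf hn hcΔ hpn hξ0 hξ hf0 hf hS hP
  have hfa : f ≤ ω / 4 := le_trans hf ((min_le_left _ _).trans (min_le_left _ _))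
  have hfb : f ≤ δ * s / 2 := le_trans hf ((min_le_left _ _).trans (min_le_right _ _))
  have hfc : f ≤ c * σ / 10 ^ 7 := le_trans hf (min_le_right _ _)
  obtain ⟨n, hnd⟩ : ∃ n : ℝ, n = Fintype.card V := ⟨_, rfl⟩
  have hnR : ((n1 + n2 + n3 + n4 + 1 : ℕ) : ℝ) ≤ n := by rw [hnd]; exact_mod_cast hn
  push_cast at hnR
  have p1 : (0 : ℝ) ≤ n1 := Nat.cast_nonneg _
  have p2 : (0 : ℝ) ≤ n2 := Nat.cast_nonneg _
  have p3 : (0 : ℝ) ≤ n3 := Nat.cast_nonneg _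
  have p4 : (0 : ℝ) ≤ n4 := Nat.cast_nonneg _
  have hnpos : 0 < n := by linarith
  rw [← hnd] at hcΔ hpn
  have q1 : 48 * g ≤ c * n := by
    have h1 : 48 * (g : ℝ) / c ≤ n := by linarith
    rwa [div_le_iff₀' hc] at h1
  have q2 : 10 ^ 9 ≤ c ^ 2 * s * n := by
    have h1 : 10 ^ 9 / (c ^ 2 * s) ≤ n := by linarith
    rwa [div_le_iff₀' (by positivity)] at h1
  have q3 : 16 * C ≤ c * δ * n := by
    have h1 : 16 * C / (c * δ) ≤ n := by linarith
    rwa [div_le_iff₀' (by positivity)] at h1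
  have q4 : 10 ^ 3 ≤ σ * n := by
    have h1 : 10 ^ 3 / σ ≤ n := by linarith
    rwa [div_le_iff₀' hσ0] at h1
  -- simple consequences
  have hcn : c ^ 2 * s * n ≤ c * s * n := by
    have h1 : c ^ 2 ≤ c := by nlinarith
    have h2 : c ^ 2 * s ≤ c * s := mul_le_mul_of_nonneg_right h1 hs0.le
    exact mul_le_mul_of_nonneg_right h2 hnpos.le
  have hcsn : c * s * n ≤ s * n := by
    have h1 : c * s ≤ s := by nlinarith
    exact mul_le_mul_of_nonneg_right h1 hnpos.le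
  have hsn : 10 ^ 9 ≤ s * n := by linarith
  have hσn : σ * n * 10 ^ 6 = c * s * n := by rw [hσ]; ring
  -- the number `t` of labels
  obtain ⟨t, ht⟩ : ∃ t : ℕ, t = (Δ + 2 * p - 2) / (12 * g) := ⟨_, rfl⟩
  have ht1 : 12 * g * t ≤ Δ + 2 * p - 2 := by rw [ht]; exact Nat.mul_div_le _ _
  have ht2 : Δ < 12 * g * (t + 1) + 2 := by
    have h1 : Δ + 2 * p - 2 < 12 * g * (t + 1) := by
      rw [ht]
      exact Nat.lt_mul_div_succ _ (by omega)
    omega
  have ht2' : (Δ : ℝ) < 12 * g * (t + 1) + 2 := by exact_mod_cast ht2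
  have hts : s * n ≤ t := by
    have h2 : s * n * (48 * g) = c * n := by rw [← hsg]; ring
    have h1 : s * n * (12 * g) ≤ t * (12 * g) := by nlinarith
    exact le_of_mul_le_mul_right h1 (by positivity)
  have ht0' : (0 : ℝ) < t := lt_of_lt_of_le (by positivity) hts
  have ht0 : 0 < t := by exact_mod_cast ht0'
  have ht100 : 100 ≤ t := by
    have h1 : ((100 : ℕ) : ℝ) ≤ t := by push_cast; linarith
    exact_mod_cast h1
  have h120 : 120 * t ≤ Δ + 2 * p := by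
    have h1 : 12 * 10 * t ≤ 12 * g * t := Nat.mul_le_mul_right t (Nat.mul_le_mul_left 12 hg)
    omega
  have hkc : (k : ℝ) * c ≤ 2 := hS.kc
  have hk0 : (0 : ℝ) ≤ k := Nat.cast_nonneg _
  obtain ⟨l, hl⟩ : ∃ l : ℝ, l = ((pt nd (2 * k)).card : ℝ) := ⟨_, rfl⟩
  have hlo : l ≤ f * n := by rw [hnd, hl]; exact hS.lo
  have hlo0 : (0 : ℝ) ≤ l := by rw [hl]; exact Nat.cast_nonneg _
  have hla : l ≤ ω / 4 * n := le_trans hlo (mul_le_mul_of_nonneg_right hfa hnpos.le)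
  have hlc : l ≤ c * σ / 10 ^ 7 * n := le_trans hlo (mul_le_mul_of_nonneg_right hfc hnpos.le)
  have hcσ : c * σ * n ≤ σ * n := by
    have h1 : c * σ ≤ σ := by nlinarith
    exact mul_le_mul_of_nonneg_right h1 hnpos.le
  have hk : 0 < k := by
    by_contra hk
    have hk' : k = 0 := by omega
    have h1 : pt nd (2 * k) = univ := by
      unfold pt
      rw [filter_eq_self]
      intro v _
      have h2 := hS.le v
      omega
    have h2 : l = n := by rw [hl, hnd, h1, card_univ]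
    have h3 : c * σ / 10 ^ 7 ≤ 1 / 2 := by
      have h4 : c * σ ≤ 1 := by
        have h5 : σ ≤ 1 := by
          rw [hσ]
          have h6 : c * s ≤ 1 := by nlinarith
          linarith
        nlinarith
      linarith
    have h4 : c * σ / 10 ^ 7 * n ≤ 1 / 2 * n := mul_le_mul_of_nonneg_right h3 hnpos.le
    linarith
  -- the window region
  obtain ⟨κ, hκ⟩ : ∃ κ : ℕ, κ = 2 * ((pt nd (2 * k)).card + 2 * p) := ⟨_, rfl⟩
  have hκR : (κ : ℝ) = 2 * l + 4 * p := by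
    rw [hκ, hl]
    push_cast
    ring
  have hκω : (κ : ℝ) ≤ ω * n := by linarith
  have hκ0 : (0 : ℝ) ≤ κ := Nat.cast_nonneg _
  have hCκ : 120 * (C * κ) ≤ t := by
    have h1 : C * κ ≤ C * (s / (120 * C) * n) := mul_le_mul_of_nonneg_left
      (le_trans hκω (mul_le_mul_of_nonneg_right hω2 hnpos.le)) hC0.le
    have h2 : C * (s / (120 * C) * n) = s * n / 120 := by field_simp
    linarith
  have h100κ : 100 * κ ≤ t := by
    have h1 : (1000 : ℝ) * κ ≤ C * κ := mul_le_mul_of_nonneg_right hC1 hκ0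
    have h2 : ((100 * κ : ℕ) : ℝ) ≤ t := by push_cast; linarith
    exact_mod_cast h2
  have hus : 20 * ((K1 + 1) * κ) ≤ Δ := by
    have h1 : ((K1 : ℝ) + 1) * κ ≤ (K1 + 1) * (c / (20 * (K1 + 1)) * n) :=
      mul_le_mul_of_nonneg_left
      (le_trans hκω (mul_le_mul_of_nonneg_right hω3 hnpos.le)) (by positivity)
    have h2 : ((K1 : ℝ) + 1) * (c / (20 * (K1 + 1)) * n) = c * n / 20 := by field_simp
    have h3 : ((20 * ((K1 + 1) * κ) : ℕ) : ℝ) ≤ Δ := by push_cast; linarith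
    exact_mod_cast h3
  have h24 : 24 * t ≤ Δ := by omega
  have h3lo : 3 * (pt nd (2 * k)).card ≤ t := by omega
  -- the errors
  obtain ⟨Bb, hBb⟩ : ∃ Bb : ℕ, Bb = ⌊σ * n⌋₊ := ⟨_, rfl⟩
  have hBb1 : (Bb : ℝ) ≤ σ * n := by rw [hBb]; exact Nat.floor_le (by positivity)
  have hBb2 : σ * n - 1 ≤ Bb := by rw [hBb]; exact (Nat.sub_one_lt_floor _).le
  have hBb0 : (0 : ℝ) ≤ Bb := Nat.cast_nonneg _
  obtain ⟨Ba, hBa⟩ : ∃ Ba : ℕ, Ba = ⌈σ * n / 16⌉₊ := ⟨_, rfl⟩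
  have hBa1 : σ * n / 16 ≤ Ba := by rw [hBa]; exact Nat.le_ceil _
  have hBa2 : (Ba : ℝ) ≤ σ * n / 16 + 1 := by
    rw [hBa]
    exact (Nat.ceil_lt_add_one (by positivity)).le
  obtain ⟨b1, hb1⟩ : ∃ b1 : ℝ, b1 = 150 * ((2 * k + 20 * k : ℕ) : ℝ) *
    ((pt nd (2 * k)).card : ℝ) := ⟨_, rfl⟩
  have hb1' : b1 ≤ σ * n / 1000 := by
    have h1 : c * b1 = 3300 * ((k * c) * l) := by rw [hb1, hl]; push_cast; ring
    have h2 : (k * c) * l ≤ 2 * l := mul_le_mul_of_nonneg_right hkc hlo0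
    have h3 : c * b1 ≤ c * (σ * n / 1000) := by
      have h4 : c * (σ * n / 1000) = 10 ^ 4 * (c * σ / 10 ^ 7 * n) := by ring
      rw [h1, h4]
      linarith
    exact le_of_mul_le_mul_left h3 hc
  obtain ⟨b2, hb2⟩ : ∃ b2 : ℝ, b2 = 10000 * κ * ((2 * k + 20 * k : ℕ) : ℝ) ^ 2 * n / t :=
    ⟨_, rfl⟩
  have hkc2 : (k * c) ^ 2 ≤ 4 := by
    have h1 : (k * c) ^ 2 ≤ 2 ^ 2 := pow_le_pow_left₀ (by positivity) hkc 2
    linarith
  have hb2' : b2 ≤ σ * n / 5 := by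
    rw [hb2, div_le_iff₀ ht0']
    have h1 : c ^ 2 * (10000 * κ * ((2 * k + 20 * k : ℕ) : ℝ) ^ 2 * n) =
        4840000 * ((k * c) ^ 2 * (κ * n)) := by push_cast; ring
    have h2 : (k * c) ^ 2 * (κ * n) ≤ 4 * (κ * n) :=
      mul_le_mul_of_nonneg_right hkc2 (by positivity)
    have h3 : κ * n ≤ c ^ 2 * s * σ / 10 ^ 8 * n * n :=
      mul_le_mul_of_nonneg_right (le_trans hκω (mul_le_mul_of_nonneg_right hω1 hnpos.le))
        hnpos.le
    have h4 : σ * n / 5 * (s * n) ≤ σ * n / 5 * t :=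
      mul_le_mul_of_nonneg_left hts (by positivity)
    have h5 : c ^ 2 * (10000 * κ * ((2 * k + 20 * k : ℕ) : ℝ) ^ 2 * n) ≤
        c ^ 2 * (σ * n / 5 * (s * n)) := by
      have h6 : c ^ 2 * (σ * n / 5 * (s * n)) = 2 * 10 ^ 7 * (c ^ 2 * s * σ / 10 ^ 8 * n * n) := by
        ring
      rw [h1, h6]
      have h7 : 0 ≤ c ^ 2 * s * σ / 10 ^ 8 * n * n := by positivity
      linarith
    exact le_trans (le_of_mul_le_mul_left h5 hc2) h4
  obtain ⟨hz1, hz2⟩ := zk G k ty nd qt cl un e1 (σ / 32) hP Ba (by rw [← hnd]; linarith)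
  have hhi : ∀ v, nd v < 2 * k → (dg (Fg G k ty nd) v : ℝ) ≤ ξ * n := by
    intro v hv
    rw [hnd]
    exact fg_hi G Δ c x ξ ζ f k ty nd sf hS v hv
  have hξt : 2 * (ξ * n) ≤ t := by
    have h1 : ξ * n ≤ s / 2 * n := mul_le_mul_of_nonneg_right hξ hnpos.le
    linarith
  have htl : 3 * l ≤ t := by rw [hl]; exact_mod_cast h3lo
  obtain ⟨mm, cw, hK, hU⟩ := kb (Fg G k ty nd) nd (2 * k) Δ p t (20 * k) κ Ba t C
    (univ.filter fun v => cl v ≠ 6) (Qf nd qt cl) hS.le ht0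
    (fun w hw => fg_lo G Δ c x ξ ζ f k ty nd sf hS w hw) h24 h3lo
    (fun v hv => by
      have h1 := hhi v hv
      have h2 : ((2 * dg (Fg G k ty nd) v : ℕ) : ℝ) ≤ t := by push_cast; linarith
      exact_mod_cast h2)
    hκ h100κ (by omega)
    (by rw [← hb1]; linarith)
    (by rw [← hnd, ← hb2]; linarith)
    (fun j hj => Qf_lt nd qt cl k j hj)
    hz1
    (fun P hP' P' hP'' => by
      have h1 := hz2 P hP' P' hP''
      have h2 : (ee (Fg G k ty nd) (pt nd P) (pt nd P') : ℝ) ≤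
          2 * ee (Fg G k ty nd) (pt nd P ∩ univ.filter fun v => cl v ≠ 6)
            (pt nd P' ∩ univ.filter fun v => cl v ≠ 6) + Ba := by exact_mod_cast h1
      have h3 : (0 : ℝ) ≤ ee (Fg G k ty nd) (pt nd P ∩ univ.filter fun v => cl v ≠ 6)
        (pt nd P' ∩ univ.filter fun v => cl v ≠ 6) := Nat.cast_nonneg _
      linarith)
    (by
      have h1 : (2 * ((2 * k : ℕ) : ℝ) * ((pt nd (2 * k)).card : ℝ) + 2 * t +
          ((2 * k : ℕ) : ℝ) * (2 + t)) / t ≤ 8 * k + 2 := by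
        rw [div_le_iff₀ ht0', ← hl]
        push_cast
        have h2 : (k : ℝ) * (3 * l) ≤ k * t := mul_le_mul_of_nonneg_left htl hk0
        have h3 : (1 : ℝ) ≤ t := by linarith
        have h4 : (k : ℝ) * 1 ≤ k * t := mul_le_mul_of_nonneg_left h3 hk0
        have h5 : (0 : ℝ) ≤ k * t := by positivity
        have h6 : 2 * (2 * (k : ℝ)) * l + 2 * t + 2 * k * (2 + t) =
          4 / 3 * (k * (3 * l)) + 2 * t + 4 * (k * 1) + 2 * (k * t) := by ring
        have h7 : (8 * (k : ℝ) + 2) * t = 8 * (k * t) + 2 * t := by ring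
        rw [h6, h7]
        linarith
      have h2 : 22 * ((2 * k : ℕ) : ℝ) ^ 2 + 36 * ((2 * k : ℕ) : ℝ) + 16 + (8 * k + 2) ≤ C := by
        push_cast
        have h3 : c ^ 2 * (22 * (2 * (k : ℝ)) ^ 2 + 36 * (2 * k) + 16 + (8 * k + 2)) ≤ c ^ 2 * C := by
          have h4 : c ^ 2 * (22 * (2 * (k : ℝ)) ^ 2 + 36 * (2 * k) + 16 + (8 * k + 2)) =
              88 * (k * c) ^ 2 + 80 * c * (k * c) + 18 * c ^ 2 := by ring
          have h5 : c * (k * c) ≤ 1 * 2 := mul_le_mul hc1 hkc (by positivity) zero_le_one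
          have h6 : c ^ 2 ≤ 1 := by
            have h7 : c ^ 2 ≤ 1 ^ 2 := pow_le_pow_left₀ hc.le hc1 2
            linarith
          rw [h4, mul_comm (c ^ 2) C, hCc]
          linarith
        exact le_of_mul_le_mul_left h3 hc2
      linarith)
  rw [← hb1, ← hnd, ← hb2] at hU
  rw [← ht]
  refine asm2 G Δ p k t κ Bb K1 c x ξ ζ f e1 (σ / 32) δ C b1 b2 ty nd qt cl un sf hS hP mm cw
    hK hU hκ hk ht100 h120 h100κ ?_ (by rw [← hnd]; exact hξt) ?_ ?_ ?_ hCκ ?_ hK1 ?_ ?_ ?_ hus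
  · -- `hb0`
    have h1 : c ^ 2 * (2 * k * (60000 * (2 * k) + 500 * Bb) + l) ≤ c ^ 2 * t := by
      have h2 : c ^ 2 * (2 * k * (60000 * (2 * k) + 500 * Bb) + l) =
          240000 * (k * c) ^ 2 + 1000 * (k * c) * (c * Bb) + c ^ 2 * l := by ring
      have h3 : c * Bb ≤ c * (σ * n) := mul_le_mul_of_nonneg_left hBb1 hc.le
      have h4 : (k * c) * (c * Bb) ≤ 2 * (c * (σ * n)) :=
        mul_le_mul hkc h3 (by positivity) (by norm_num)
      have h5 : c * (σ * n) * 10 ^ 6 = c ^ 2 * s * n := by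
        have h6 : c * (σ * n) * 10 ^ 6 = c * (σ * n * 10 ^ 6) := by ring
        rw [h6, hσn]
        ring
      have h6 : c ^ 2 * l ≤ 1 * l := mul_le_mul_of_nonneg_right
        (by
          have h7 : c ^ 2 ≤ 1 ^ 2 := pow_le_pow_left₀ hc.le hc1 2
          linarith) hlo0
      have h7 : c ^ 2 * (s * n) ≤ c ^ 2 * t := mul_le_mul_of_nonneg_left hts hc2.le
      have h8 : c * σ / 10 ^ 7 * n = c * (σ * n) / 10 ^ 7 := by ring
      have h9 : c ^ 2 * (s * n) = c ^ 2 * s * n := by ring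
      rw [h2]
      rw [h9] at h7
      rw [h8] at hlc
      linarith
    have h2 := le_of_mul_le_mul_left h1 hc2
    rw [hl] at h2
    exact_mod_cast h2
  · rw [← hnd]
    linarith
  · rw [← hnd]
    linarith
  · -- `hE`
    rw [← hl]
    push_cast
    have h1 : c * (120 * (11004 * (2 * k) * l + 100 * Bb + 2 * k * (20000 + 200 * Bb))) ≤
        c * t := by
      have h2 : c * (120 * (11004 * (2 * k) * l + 100 * Bb + 2 * k * (20000 + 200 * Bb))) =
          2640960 * ((k * c) * l) + 12000 * (c * Bb) + 4800000 * (k * c) +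
            48000 * ((k * c) * Bb) := by ring
      have h3 : (k * c) * l ≤ 2 * l := mul_le_mul_of_nonneg_right hkc hlo0
      have h4 : c * Bb ≤ 1 * Bb := mul_le_mul_of_nonneg_right hc1 hBb0
      have h5 : (k * c) * Bb ≤ 2 * Bb := mul_le_mul_of_nonneg_right hkc hBb0
      have h6 : c * (s * n) ≤ c * t := mul_le_mul_of_nonneg_left hts hc.le
      have h7 : c * (s * n) = c * s * n := by ring
      have h8 : c * σ / 10 ^ 7 * n = c * σ * n / 10 ^ 7 := by ring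
      rw [h2]
      rw [h7] at h6
      rw [h8] at hlc
      linarith
    exact le_of_mul_le_mul_left h1 hc
  · have h1 : ((3 : ℕ) : ℝ) ≤ K1 := by push_cast; linarith
    exact_mod_cast h1
  · rw [← hnd]
    have h1 : c * (8 * (k : ℝ)) ≤ c * (δ * n) := by
      have h2 : c * (8 * (k : ℝ)) = 8 * (k * c) := by ring
      have h3 : c * (δ * n) = c * δ * n := by ring
      rw [h2, h3]
      linarith
    exact le_of_mul_le_mul_left h1 hc
  · rw [← hnd]
    have h1 : c * (4 * (k * C)) ≤ c * (δ * n) := by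
      have h2 : c * (4 * (k * C)) = 4 * ((k * c) * C) := by ring
      have h3 : (k * c) * C ≤ 2 * C := mul_le_mul_of_nonneg_right hkc hC0.le
      have h4 : c * (δ * n) = c * δ * n := by ring
      rw [h2, h4]
      linarith
    exact le_of_mul_le_mul_left h1 hc
  · rw [← hnd]
    have h1 : f * n ^ 2 ≤ δ * s / 2 * n ^ 2 := mul_le_mul_of_nonneg_right hfb (by positivity)
    have h2 : δ * n * (s * n) ≤ δ * n * t := mul_le_mul_of_nonneg_left hts (by positivity)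
    have h3 : δ * n * (s * n) = 2 * (δ * s / 2 * n ^ 2) := by ring
    have h4 : 2 * f * n ^ 2 = 2 * (f * n ^ 2) := by ring
    rw [h4]
    linarith

end Pool.Agent.H2.F2
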